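import Mathlib

namespace Pool.Agent.BetaL

open Finset

variable {Ω : Type*} [Fintype Ω] [DecidableEq Ω]

/-- down operator -/
def dn (f : Finset Ω → ℝ) (Y : Finset Ω) : ℝ := ∑ c ∈ Yᶜ, f (insert c Y)

/-- up operator -/
def up (h : Finset Ω → ℝ) (X : Finset Ω) : ℝ := ∑ b ∈ X, h (X.erase b)

omit [Fintype Ω] in
lemma erase_insert_ne {Y : Finset Ω} {b c : Ω} (hc : c ∉ Y) (hb : b ∈ Y) :
    (insert c Y).erase b = insert c (Y.erase b) := by
  rw [Finset.erase_insert_of_ne]
  rintro rfl
  exact hc hb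

/-- commutation relation -/
lemma dn_up (h : Finset Ω → ℝ) (Y : Finset Ω) :
    dn (up h) Y = up (dn h) Y + ((Fintype.card Ω : ℝ) - 2 * Y.card) * h Y := by
  have h1 : dn (up h) Y = ∑ c ∈ Yᶜ, (h Y + ∑ b ∈ Y, h (insert c (Y.erase b))) := by
    unfold dn up
    refine Finset.sum_congr rfl fun c hc => ?_
    have hc' : c ∉ Y := Finset.mem_compl.mp hc
    rw [Finset.sum_insert hc', Finset.erase_insert hc']
    congr 1
    exact Finset.sum_congr rfl fun b hb => by rw [erase_insert_ne hc' hb]
  have h2 : up (dn h) Y = ∑ b ∈ Y, (h Y + ∑ c ∈ Yᶜ, h (insert c (Y.erase b))) := by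
    unfold dn up
    refine Finset.sum_congr rfl fun b hb => ?_
    show ∑ c ∈ (Y.erase b)ᶜ, h (insert c (Y.erase b)) = _
    rw [Finset.compl_erase, Finset.sum_insert (by simpa using hb), Finset.insert_erase hb]
  rw [h1, h2, Finset.sum_add_distrib, Finset.sum_add_distrib, Finset.sum_comm]
  simp only [Finset.sum_const, nsmul_eq_mul, Finset.card_compl]
  rw [Nat.cast_sub (Finset.card_le_univ Y)]
  ring

/-- The eigenvalues of the up-down operator on `x`-sets. -/
theorem up_dn_eigen (x : ℕ) : ∀ (f : Finset Ω → ℝ) (μ : ℝ),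
    (∀ X : Finset Ω, X.card = x → up (dn f) X = μ * f X) →
    (∃ X : Finset Ω, X.card = x ∧ f X ≠ 0) →
    ∃ t : ℕ, t ≤ x ∧ μ = t * ((Fintype.card Ω : ℝ) - 2 * x + 1 + t) := by
  induction x with
  | zero =>
    intro f μ h1 h2
    obtain ⟨X, hX, hfX⟩ := h2
    refine ⟨0, le_rfl, ?_⟩
    have := h1 X hX
    rw [Finset.card_eq_zero.mp hX] at this hfX
    simp only [up, Finset.sum_empty] at this
    rcases mul_eq_zero.mp this.symm with h | h
    · rw [h]; simp
    · exact absurd h hfX
  | succ x ih =>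
    intro f μ h1 h2
    by_cases h0 : ∃ Y : Finset Ω, Y.card = x ∧ dn f Y ≠ 0
    · have hY : ∀ Y : Finset Ω, Y.card = x →
          up (dn (dn f)) Y = (μ - ((Fintype.card Ω : ℝ) - 2 * x)) * dn f Y := by
        intro Y hY
        have h3 := dn_up (dn f) Y
        have h4 : dn (up (dn f)) Y = μ * dn f Y := by
          unfold dn
          rw [Finset.mul_sum]
          refine Finset.sum_congr rfl fun c hc => ?_
          exact h1 (insert c Y) (by rw [Finset.card_insert_of_notMem (Finset.mem_compl.mp hc), hY])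
        rw [h4, hY] at h3
        linarith
      obtain ⟨t, ht, hμ⟩ := ih (dn f) (μ - ((Fintype.card Ω : ℝ) - 2 * x)) hY h0
      refine ⟨t + 1, by omega, ?_⟩
      have : μ = (t : ℝ) * ((Fintype.card Ω : ℝ) - 2 * x + 1 + t) +
        ((Fintype.card Ω : ℝ) - 2 * x) := by linarith
      rw [this]
      push_cast
      ring
    · push Not at h0
      obtain ⟨X, hX, hfX⟩ := h2
      refine ⟨0, Nat.zero_le _, ?_⟩
      have h3 := h1 X hX
      have h4 : up (dn f) X = 0 := by
        unfold up
        refine Finset.sum_eq_zero fun b hb => ?_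
        exact h0 _ (by rw [Finset.card_erase_of_mem hb, hX]; rfl)
      rw [h4] at h3
      rcases mul_eq_zero.mp h3.symm with h | h
      · rw [h]; simp
      · exact absurd h hfX

end Pool.Agent.BetaL
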