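import Mathlib
import Pool.Agent.MP_1e96f1_co.Defs
import Pool.Agent.BetaL.Johnson

namespace Pool.Agent.BetaL

open Finset Pool.Agent.MP_1e96f1_co

variable {Ω : Type*} [Fintype Ω] [DecidableEq Ω]

/-- the function on sets attached to a level function `F` -/
def lev (Bs : Finset (Finset Ω)) (n : ℕ) (F : ℕ → ℝ) (X : Finset Ω) : ℝ :=
  ∑ B ∈ Bs.filter (fun B => (X \ B).card ≤ n), F (X \ B).card

omit [Fintype Ω] in
lemma inter_iff {X B : Finset Ω} {d n : ℕ} (hX : X.card = d + 2 * n + 1) :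
    d + (n + 1) ≤ (X ∩ B).card ↔ (X \ B).card ≤ n := by
  have := Finset.card_sdiff_add_card_inter X B
  omega

omit [Fintype Ω] in
lemma beta_exists {Bs : Finset (Finset Ω)} {v d n : ℕ} (hB : IsBeta Bs v d (n + 1))
    {X : Finset Ω} (hX : X.card = d + 2 * n + 1) : ∃ B ∈ Bs, (X \ B).card ≤ n := by
  obtain ⟨B, ⟨hB1, hB2⟩, -⟩ := hB.2.2 X (by omega)
  exact ⟨B, hB1, (inter_iff hX).mp hB2⟩

omit [Fintype Ω] in
lemma beta_unique {Bs : Finset (Finset Ω)} {v d n : ℕ} (hB : IsBeta Bs v d (n + 1))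
    {X : Finset Ω} (hX : X.card = d + 2 * n + 1) {B C : Finset Ω} (hBs : B ∈ Bs) (hCs : C ∈ Bs)
    (h1 : (X \ B).card ≤ n) (h2 : (X \ C).card ≤ n) : B = C := by
  obtain ⟨D, -, hD⟩ := hB.2.2 X (by omega)
  rw [hD B ⟨hBs, (inter_iff hX).mpr h1⟩, hD C ⟨hCs, (inter_iff hX).mpr h2⟩]

omit [Fintype Ω] in
lemma lev_eq {Bs : Finset (Finset Ω)} {v d n : ℕ} (hB : IsBeta Bs v d (n + 1)) (F : ℕ → ℝ)
    {X : Finset Ω} (hX : X.card = d + 2 * n + 1) {B : Finset Ω} (hBs : B ∈ Bs)
    (h1 : (X \ B).card ≤ n) : lev Bs n F X = F (X \ B).card := by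
  have : Bs.filter (fun B => (X \ B).card ≤ n) = {B} := by
    ext C
    simp only [Finset.mem_filter, Finset.mem_singleton]
    constructor
    · rintro ⟨hC, h2⟩
      exact beta_unique hB hX hC hBs h2 h1
    · rintro rfl
      exact ⟨hBs, h1⟩
  rw [lev, this, Finset.sum_singleton]

/-- the value of the down operator in case one -/
def Ev (v k x : ℕ) (F : ℕ → ℝ) (l : ℕ) : ℝ :=
  ((k : ℝ) - (x - 1 - l)) * F l + ((v : ℝ) - k - l) * F (l + 1)

lemma dn_one {Bs : Finset (Finset Ω)} {v k d n : ℕ} (hD : IsDesign Bs v k d)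
    (hB : IsBeta Bs v d (n + 1)) (F : ℕ → ℝ)
    {Y : Finset Ω} (hY : Y.card = d + 2 * n) {B : Finset Ω} (hBs : B ∈ Bs)
    (h1 : (Y \ B).card + 1 ≤ n) :
    dn (lev Bs n F) Y = Ev v k (d + 2 * n + 1) F (Y \ B).card := by
  have hval : ∀ c ∈ Yᶜ, lev Bs n F (insert c Y) =
      if c ∈ B then F (Y \ B).card else F ((Y \ B).card + 1) := by
    intro c hc
    have hc' : c ∉ Y := Finset.mem_compl.mp hc
    have hcard : (insert c Y).card = d + 2 * n + 1 := by
      rw [Finset.card_insert_of_notMem hc', hY]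
    split_ifs with hcB
    · have h2 : (insert c Y) \ B = Y \ B := Finset.insert_sdiff_of_mem _ hcB
      rw [lev_eq hB F hcard hBs (by rw [h2]; omega), h2]
    · have h2 : ((insert c Y) \ B).card = (Y \ B).card + 1 := by
        rw [Finset.insert_sdiff_of_notMem _ hcB, Finset.card_insert_of_notMem]
        simp [hc']
      rw [lev_eq hB F hcard hBs (by rw [h2]; omega), h2]
  unfold dn
  rw [Finset.sum_congr rfl hval, Finset.sum_ite, Finset.sum_const, Finset.sum_const,
    nsmul_eq_mul, nsmul_eq_mul]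
  have hk := hD.card_block B hBs
  have c1 : ((Yᶜ.filter (fun c => c ∈ B)).card : ℝ) = (k : ℝ) - ((d + 2 * n + 1 : ℕ) - 1 -
      ((Y \ B).card : ℝ)) := by
    have e1 : Yᶜ.filter (fun c => c ∈ B) = B \ Y := by
      ext c
      simp only [Finset.mem_filter, Finset.mem_compl, Finset.mem_sdiff]
      tauto
    have e2 := Finset.card_sdiff_add_card_inter B Y
    have e3 := Finset.card_sdiff_add_card_inter Y B
    rw [Finset.inter_comm] at e3
    have e4 : (B \ Y).card + (d + 2 * n + 1) = k + (Y \ B).card + 1 := by omega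
    have e5 : ((B \ Y).card : ℝ) + (d + 2 * n + 1 : ℕ) = k + (Y \ B).card + 1 := by
      exact_mod_cast e4
    rw [e1]
    linarith
  have c2 : ((Yᶜ.filter (fun c => ¬ c ∈ B)).card : ℝ) = (v : ℝ) - k - (Y \ B).card := by
    have e1 : Yᶜ.filter (fun c => ¬ c ∈ B) = (Y ∪ B)ᶜ := by
      ext c
      simp only [Finset.mem_filter, Finset.mem_compl, Finset.mem_union]
      tauto
    have e2 : (Y ∪ B).card = (Y \ B).card + k := by
      rw [← Finset.sdiff_union_self_eq_union, Finset.card_union_of_disjoint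
        Finset.sdiff_disjoint, hk]
    have e3 := Finset.card_compl_add_card (Y ∪ B)
    rw [hD.card_points, e2] at e3
    have e5 : (((Y ∪ B)ᶜ).card : ℝ) + ((Y \ B).card + k) = v := by exact_mod_cast e3
    rw [e1]
    linarith
  rw [c1, c2, Ev]

lemma dn_two {Bs : Finset (Finset Ω)} {v k d n : ℕ} (hD : IsDesign Bs v k d)
    (hB : IsBeta Bs v d (n + 1)) (F : ℕ → ℝ)
    {Y : Finset Ω} (hY : Y.card = d + 2 * n) (h1 : ∀ B ∈ Bs, n ≤ (Y \ B).card) :
    dn (lev Bs n F) Y = ((v : ℝ) - (d + 2 * n + 1 : ℕ) + 1) * F n := by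
  have hval : ∀ c ∈ Yᶜ, lev Bs n F (insert c Y) = F n := by
    intro c hc
    have hc' : c ∉ Y := Finset.mem_compl.mp hc
    have hcard : (insert c Y).card = d + 2 * n + 1 := by
      rw [Finset.card_insert_of_notMem hc', hY]
    obtain ⟨B, hBs, hBn⟩ := beta_exists hB hcard
    have h2 : n ≤ ((insert c Y) \ B).card :=
      (h1 B hBs).trans (Finset.card_le_card (Finset.sdiff_subset_sdiff
        (Finset.subset_insert _ _) le_rfl))
    rw [lev_eq hB F hcard hBs hBn, le_antisymm hBn h2]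
  unfold dn
  rw [Finset.sum_congr rfl hval, Finset.sum_const, nsmul_eq_mul]
  have e1 := Finset.card_compl_add_card Y
  rw [hD.card_points, hY] at e1
  have e2 : ((Yᶜ).card : ℝ) + (d + 2 * n : ℕ) = v := by exact_mod_cast e1
  push_cast at e2 ⊢
  have e3 : ((Yᶜ).card : ℝ) = v - (d + 2 * n + 1) + 1 := by linarith
  rw [e3]

/-- the eigenvalue equation -/
lemma up_dn_lev {Bs : Finset (Finset Ω)} {v k d n : ℕ} (hD : IsDesign Bs v k d)
    (hB : IsBeta Bs v d (n + 1)) (F : ℕ → ℝ)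
    {X : Finset Ω} (hX : X.card = d + 2 * n + 1) {B : Finset Ω} (hBs : B ∈ Bs)
    (h1 : (X \ B).card ≤ n) :
    up (dn (lev Bs n F)) X =
      ((X \ B).card : ℝ) * Ev v k (d + 2 * n + 1) F ((X \ B).card - 1) +
        (((d + 2 * n + 1 : ℕ) : ℝ) - (X \ B).card) *
          (if (X \ B).card < n then Ev v k (d + 2 * n + 1) F (X \ B).card
            else ((v : ℝ) - (d + 2 * n + 1 : ℕ) + 1) * F n) := by
  set l := (X \ B).card with hl
  have hval : ∀ b ∈ X, dn (lev Bs n F) (X.erase b) =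
      if b ∈ B then (if l < n then Ev v k (d + 2 * n + 1) F l
            else ((v : ℝ) - (d + 2 * n + 1 : ℕ) + 1) * F n)
        else Ev v k (d + 2 * n + 1) F (l - 1) := by
    intro b hb
    have hcard : (X.erase b).card = d + 2 * n := by
      rw [Finset.card_erase_of_mem hb, hX]; rfl
    split_ifs with hbB hln
    · have h2 : ((X.erase b) \ B) = X \ B := by
        rw [Finset.erase_sdiff_comm, Finset.erase_eq_of_notMem]
        simp [hbB]
      rw [dn_one hD hB F hcard hBs (by rw [h2]; omega), h2]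
    · have h2 : ((X.erase b) \ B) = X \ B := by
        rw [Finset.erase_sdiff_comm, Finset.erase_eq_of_notMem]
        simp [hbB]
      refine dn_two hD hB F hcard ?_
      intro C hC
      by_contra hcon
      push Not at hcon
      have h3 : (X \ C).card ≤ n := by
        have h4 : X \ C ⊆ insert b ((X.erase b) \ C) := by
          intro y hy
          simp only [Finset.mem_sdiff, Finset.mem_insert, Finset.mem_erase] at hy ⊢
          by_cases hyb : y = b
          · exact Or.inl hyb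
          · exact Or.inr ⟨⟨hyb, hy.1⟩, hy.2⟩
        have h5 := (Finset.card_le_card h4).trans (Finset.card_insert_le _ _)
        omega
      have h4 := beta_unique hB hX hC hBs h3 h1
      rw [h4, h2] at hcon
      omega
    · have h2 : ((X.erase b) \ B).card = l - 1 := by
        rw [Finset.erase_sdiff_comm, Finset.card_erase_of_mem]
        simp [hbB, hb]
      have hpos : 0 < l := by
        rw [hl, Finset.card_pos]
        exact ⟨b, by simp [hbB, hb]⟩
      rw [dn_one hD hB F hcard hBs (by rw [h2]; omega), h2]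
  unfold up
  rw [Finset.sum_congr rfl hval, Finset.sum_ite, Finset.sum_const, Finset.sum_const,
    nsmul_eq_mul, nsmul_eq_mul]
  have c1 : ((X.filter (fun c => ¬ c ∈ B)).card : ℝ) = l := by
    rw [hl, Finset.sdiff_eq_filter]
  have c2 : ((X.filter (fun c => c ∈ B)).card : ℝ) = ((d + 2 * n + 1 : ℕ) : ℝ) - l := by
    have e1 := Finset.card_filter_add_card_filter_not (s := X) (fun c => c ∈ B)
    rw [hX] at e1
    have e2 : ((X.filter (fun c => c ∈ B)).card : ℝ) + (X.filter (fun c => ¬ c ∈ B)).card =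
        ((d + 2 * n + 1 : ℕ) : ℝ) := by exact_mod_cast e1
    linarith
  rw [c1, c2]
  ring

/-- Lloyd-type theorem -/
theorem lloyd {Bs : Finset (Finset Ω)} {v k d n : ℕ} (hD : IsDesign Bs v k d)
    (hB : IsBeta Bs v d (n + 1)) (hk : d + 2 * n + 1 ≤ k) (F : ℕ → ℝ) (lam : ℝ) (hF0 : F 0 ≠ 0)
    (hint : ∀ l < n, (l : ℝ) * Ev v k (d + 2 * n + 1) F (l - 1) +
        (((d + 2 * n + 1 : ℕ) : ℝ) - l) * Ev v k (d + 2 * n + 1) F l = lam * F l)
    (hlast : (n : ℝ) * Ev v k (d + 2 * n + 1) F (n - 1) +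
        (((d + 2 * n + 1 : ℕ) : ℝ) - n) * (((v : ℝ) - (d + 2 * n + 1 : ℕ) + 1) * F n) =
          lam * F n) :
    ∃ t : ℕ, t ≤ d + 2 * n + 1 ∧
      lam = t * ((v : ℝ) - 2 * (d + 2 * n + 1 : ℕ) + 1 + t) := by
  have h := up_dn_eigen (d + 2 * n + 1) (lev Bs n F) lam ?_ ?_
  · rw [hD.card_points] at h
    exact h
  · intro X hX
    obtain ⟨B, hBs, hBn⟩ := beta_exists hB hX
    rw [up_dn_lev hD hB F hX hBs hBn, lev_eq hB F hX hBs hBn]
    rcases lt_or_eq_of_le hBn with h1 | h1
    · rw [if_pos h1]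
      exact hint _ h1
    · rw [h1, if_neg (lt_irrefl n)]
      exact hlast
  · obtain ⟨B, hBs, -⟩ := hD.inter_eq
    obtain ⟨X, hXB, hXc⟩ := Finset.exists_subset_card_eq (s := B) (n := d + 2 * n + 1)
      (by rw [hD.card_block B hBs]; exact hk)
    refine ⟨X, hXc, ?_⟩
    have h0 : X \ B = ∅ := Finset.sdiff_eq_empty_iff_subset.mpr hXB
    rw [lev_eq hB F hXc hBs (by rw [h0]; simp), h0, Finset.card_empty]
    exact hF0

end Pool.Agent.BetaL
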