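import Mathlib
import Pool.Agent.MP_1e96f1_co.Compl
import Pool.Agent.BetaL.Cells

namespace Pool.Agent.BetaL

open Finset Pool.Agent.MP_1e96f1_co

variable {Ω : Type*} [Fintype Ω] [DecidableEq Ω]

omit [Fintype Ω] in
lemma inter_ge {Y B C : Finset Ω} {b c : ℕ} (h1 : (Y \ B).card ≤ b) (h2 : (Y \ C).card ≤ c) :
    Y.card ≤ (B ∩ C).card + b + c := by
  have h3 : Y ⊆ (B ∩ C) ∪ ((Y \ B) ∪ (Y \ C)) := by
    intro y hy
    simp only [Finset.mem_union, Finset.mem_inter, Finset.mem_sdiff]
    tauto
  have h4 := Finset.card_le_card h3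
  have h5 := Finset.card_union_le (B ∩ C) ((Y \ B) ∪ (Y \ C))
  have h6 := Finset.card_union_le (Y \ B) (Y \ C)
  omega

/-- counting for sets of the second kind -/
lemma case_two_count {Bs : Finset (Finset Ω)} {v k d n : ℕ} (hD : IsDesign Bs v k d)
    (hB : IsBeta Bs v d (n + 1)) (hk : d + n ≤ k) {Y : Finset Ω} (hY : Y.card = d + 2 * n)
    (h2 : ∀ B ∈ Bs, n ≤ (Y \ B).card) :
    (v - (d + 2 * n)) = (Bs.filter (fun B => (Y \ B).card = n)).card * (k - (d + n)) ∧
    (∀ y ∈ Y, ((Bs.filter (fun B => (Y \ B).card = n)).filter (fun B => y ∉ B)).card ≤ 1) ∧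
    ∑ y ∈ Y, ((Bs.filter (fun B => (Y \ B).card = n)).filter (fun B => y ∉ B)).card =
      n * (Bs.filter (fun B => (Y \ B).card = n)).card := by
  set S := Bs.filter (fun B => (Y \ B).card = n) with hS
  have hSm : ∀ B, B ∈ S ↔ B ∈ Bs ∧ (Y \ B).card = n := by
    intro B; rw [hS, Finset.mem_filter]
  refine ⟨?_, ?_, ?_⟩
  · have e1 : ∑ c ∈ Yᶜ, (S.filter (fun B => c ∈ B)).card = Yᶜ.card := by
      rw [Finset.card_eq_sum_ones]
      refine Finset.sum_congr rfl fun c hc => ?_
      have hc' : c ∉ Y := Finset.mem_compl.mp hc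
      have hcard : (insert c Y).card = d + 2 * n + 1 := by
        rw [Finset.card_insert_of_notMem hc', hY]
      rw [Finset.card_eq_one]
      obtain ⟨B, hBs, hBn⟩ := beta_exists hB hcard
      have h3 : Y \ B ⊆ insert c Y \ B :=
        Finset.sdiff_subset_sdiff (Finset.subset_insert _ _) le_rfl
      have h4 := Finset.card_le_card h3
      have h5 := h2 B hBs
      have h6 : (Y \ B).card = n := by omega
      have h7 : c ∈ B := by
        by_contra hcB
        have : ((insert c Y) \ B).card = (Y \ B).card + 1 := by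
          rw [Finset.insert_sdiff_of_notMem _ hcB, Finset.card_insert_of_notMem]
          simp [hc']
        omega
      refine ⟨B, ?_⟩
      ext C
      simp only [Finset.mem_filter, Finset.mem_singleton, hSm]
      constructor
      · rintro ⟨⟨hC, hCn⟩, hcC⟩
        refine beta_unique hB hcard hC hBs ?_ hBn
        rw [Finset.insert_sdiff_of_mem _ hcC, hCn]
      · rintro rfl
        exact ⟨⟨hBs, h6⟩, h7⟩
    have e2 : ∑ c ∈ Yᶜ, (S.filter (fun B => c ∈ B)).card =
        ∑ B ∈ S, (Yᶜ.filter (fun c => c ∈ B)).card :=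
      swap_sum Yᶜ S (fun c B => c ∈ B)
    have e3 : ∑ B ∈ S, (Yᶜ.filter (fun c => c ∈ B)).card = ∑ B ∈ S, (k - (d + n)) := by
      refine Finset.sum_congr rfl fun B hB' => ?_
      rw [hSm] at hB'
      have f1 : Yᶜ.filter (fun c => c ∈ B) = B \ Y := by
        ext c
        simp only [Finset.mem_filter, Finset.mem_compl, Finset.mem_sdiff]
        tauto
      have f2 := Finset.card_sdiff_add_card_inter B Y
      have f3 := Finset.card_sdiff_add_card_inter Y B
      rw [Finset.inter_comm] at f3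
      have f4 := hD.card_block B hB'.1
      rw [f1]
      omega
    have e4 := Finset.card_compl_add_card Y
    rw [hD.card_points, hY] at e4
    have e5 := e1.symm.trans (e2.trans e3)
    rw [Finset.sum_const, smul_eq_mul] at e5
    omega
  · intro y hy
    rw [Finset.card_le_one]
    intro B hB1 C hC1
    rw [Finset.mem_filter, hSm] at hB1 hC1
    by_contra hne
    have h3 := hD.inter_le B hB1.1.1 C hC1.1.1 hne
    have h4 : Y ⊆ (B ∩ C) ∪ ((Y \ B) ∪ ((Y \ C).erase y)) := by
      intro z hz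
      simp only [Finset.mem_union, Finset.mem_inter, Finset.mem_sdiff, Finset.mem_erase]
      by_cases hzy : z = y
      · subst hzy; tauto
      · tauto
    have h5 := Finset.card_le_card h4
    have h6 := Finset.card_union_le (B ∩ C) ((Y \ B) ∪ ((Y \ C).erase y))
    have h7 := Finset.card_union_le (Y \ B) ((Y \ C).erase y)
    have h8 : ((Y \ C).erase y).card = (Y \ C).card - 1 :=
      Finset.card_erase_of_mem (by simp [hy, hC1.2])
    have h9 : 0 < (Y \ C).card := Finset.card_pos.mpr ⟨y, by simp [hy, hC1.2]⟩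
    omega
  · have e2 : ∑ y ∈ Y, (S.filter (fun B => y ∉ B)).card =
        ∑ B ∈ S, (Y.filter (fun y => y ∉ B)).card :=
      swap_sum Y S (fun y B => y ∉ B)
    have e3 : ∑ B ∈ S, (Y.filter (fun y => y ∉ B)).card = ∑ B ∈ S, n := by
      refine Finset.sum_congr rfl fun B hB' => ?_
      rw [hSm] at hB'
      rw [← Finset.sdiff_eq_filter]
      exact hB'.2
    rw [e2, e3, Finset.sum_const, smul_eq_mul, mul_comm]

/-- existence of a set of the second kind -/
lemma exists_case_two {Bs : Finset (Finset Ω)} {v k d n : ℕ} (hD : IsDesign Bs v k d)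
    (hk : d + n ≤ k) (hw : n ≤ v - k) :
    ∃ Y : Finset Ω, Y.card = d + 2 * n ∧ ∀ B ∈ Bs, n ≤ (Y \ B).card := by
  obtain ⟨B, hBs, -⟩ := hD.inter_eq
  have hBk := hD.card_block B hBs
  obtain ⟨Y1, hY1, hc1⟩ := Finset.exists_subset_card_eq (s := B) (n := d + n) (by omega)
  have hcompl := Finset.card_compl_add_card B
  rw [hD.card_points] at hcompl
  obtain ⟨Y2, hY2, hc2⟩ := Finset.exists_subset_card_eq (s := Bᶜ) (n := n) (by omega)
  have hdisj : Disjoint Y1 Y2 := by
    rw [Finset.disjoint_left]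
    intro y hy1 hy2
    exact (Finset.mem_compl.mp (hY2 hy2)) (hY1 hy1)
  have hY : (Y1 ∪ Y2).card = d + 2 * n := by
    rw [Finset.card_union_of_disjoint hdisj]; omega
  have hYB : ((Y1 ∪ Y2) \ B).card = n := by
    have : (Y1 ∪ Y2) \ B = Y2 := by
      ext y
      simp only [Finset.mem_sdiff, Finset.mem_union]
      constructor
      · rintro ⟨h | h, h'⟩
        · exact absurd (hY1 h) h'
        · exact h
      · intro h
        exact ⟨Or.inr h, Finset.mem_compl.mp (hY2 h)⟩
    rw [this, hc2]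
  refine ⟨Y1 ∪ Y2, hY, fun C hC => ?_⟩
  by_cases hBC : B = C
  · rw [← hBC, hYB]
  · by_contra hcon
    push Not at hcon
    have h1 := inter_ge (Y := Y1 ∪ Y2) (B := B) (C := C) hYB.le (Nat.le_sub_one_of_lt hcon)
    have h2 := hD.inter_le B hBs C hC hBC
    omega

/-- Noda's upper bound -/
theorem noda_upper {Bs : Finset (Finset Ω)} {v k d n : ℕ} (hD : IsDesign Bs v k d)
    (hB : IsBeta Bs v d (n + 1)) (hk : d + n ≤ k) (hw : n ≤ v - k) :
    n * v ≤ (d + 2 * n) * (k - d) := by
  obtain ⟨Y, hY, h2⟩ := exists_case_two hD hk hw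
  obtain ⟨c1, c2, c3⟩ := case_two_count hD hB hk hY h2
  set s := (Bs.filter (fun B => (Y \ B).card = n)).card
  have h3 := Finset.sum_le_sum c2
  rw [c3, Finset.sum_const, smul_eq_mul, mul_one, hY] at h3
  have hv : d + 2 * n ≤ v := by
    have := Finset.card_le_univ Y
    rw [hD.card_points, hY] at this
    exact this
  obtain ⟨r, hr⟩ : ∃ r, v = d + 2 * n + r := ⟨v - (d + 2 * n), by omega⟩
  obtain ⟨q, hq⟩ : ∃ q, k = d + n + q := ⟨k - (d + n), by omega⟩
  have e1 : v - (d + 2 * n) = r := by omega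
  have e2 : k - (d + n) = q := by omega
  have e3 : k - d = n + q := by omega
  rw [e1, e2] at c1
  rw [e3, hr, c1]
  nlinarith

/-- equality in Noda's upper bound -/
theorem beta_pred_of_eq {Bs : Finset (Finset Ω)} {v k d n : ℕ} (hD : IsDesign Bs v k d)
    (hB : IsBeta Bs v d (n + 1)) (hn : 1 ≤ n) (hk : d + n ≤ k)
    (heq : n * v = (d + 2 * n) * (k - d)) : IsBeta Bs v d n := by
  refine ⟨hn, by have := hB.2.1; omega, fun Z hZ => ?_⟩
  have key : ∀ B : Finset Ω, d + n ≤ (Z ∩ B).card ↔ (Z \ B).card ≤ n - 1 := by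
    intro B
    have := Finset.card_sdiff_add_card_inter Z B
    omega
  have huniq : ∀ B ∈ Bs, ∀ C ∈ Bs, (Z \ B).card ≤ n - 1 → (Z \ C).card ≤ n - 1 → B = C := by
    intro B hB' C hC' h1 h2
    by_contra hne
    have h3 := inter_ge h1 h2
    have h4 := hD.inter_le B hB' C hC' hne
    omega
  have hex : ∃ B ∈ Bs, (Z \ B).card ≤ n - 1 := by
    have hZv : Z.card < Fintype.card Ω := by
      rw [hD.card_points]; have := hB.2.1; omega
    obtain ⟨y, hy⟩ : ∃ y, y ∉ Z := by
      by_contra hcon
      push Not at hcon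
      have : Z = univ := Finset.eq_univ_iff_forall.mpr hcon
      rw [this, Finset.card_univ] at hZv
      exact lt_irrefl _ hZv
    set Y := insert y Z with hYdef
    have hY : Y.card = d + 2 * n := by
      rw [hYdef, Finset.card_insert_of_notMem hy]; omega
    by_cases h2 : ∀ B ∈ Bs, n ≤ (Y \ B).card
    · obtain ⟨c1, c2, c3⟩ := case_two_count hD hB hk hY h2
      set S := Bs.filter (fun B => (Y \ B).card = n) with hS
      have hv : d + 2 * n ≤ v := by
        have := Finset.card_le_univ Y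
        rw [hD.card_points, hY] at this
        exact this
      have hkk : d + n < k := by
        by_contra hcon
        have e2 : k - (d + n) = 0 := by omega
        rw [e2, mul_zero] at c1
        have := hB.2.1
        omega
      have h3 : n * S.card = d + 2 * n := by
        obtain ⟨r, hr⟩ : ∃ r, v = d + 2 * n + r := ⟨v - (d + 2 * n), by omega⟩
        obtain ⟨q, hq⟩ : ∃ q, k = d + n + q := ⟨k - (d + n), by omega⟩
        have e1 : v - (d + 2 * n) = r := by omega
        have e2 : k - (d + n) = q := by omega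
        have e3 : k - d = n + q := by omega
        rw [e1, e2] at c1
        rw [e3, hr, c1] at heq
        have hq0 : 0 < q := by omega
        have : q * (n * S.card) = q * (d + 2 * n) := by nlinarith
        exact Nat.eq_of_mul_eq_mul_left hq0 this
      have h4 : ∀ z ∈ Y, (S.filter (fun B => z ∉ B)).card = 1 := by
        by_contra hcon
        push Not at hcon
        obtain ⟨z, hz, hz1⟩ := hcon
        have h5 : ∑ y ∈ Y, (S.filter (fun B => y ∉ B)).card < ∑ y ∈ Y, 1 :=
          Finset.sum_lt_sum c2 ⟨z, hz, lt_of_le_of_ne (c2 z hz) hz1⟩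
        rw [c3, h3, Finset.sum_const, smul_eq_mul, mul_one, hY] at h5
        exact lt_irrefl _ h5
      have h5 := h4 y (Finset.mem_insert_self _ _)
      obtain ⟨B, hB1⟩ := Finset.card_pos.mp (by rw [h5]; exact Nat.one_pos)
      rw [Finset.mem_filter, hS, Finset.mem_filter] at hB1
      refine ⟨B, hB1.1.1, ?_⟩
      have h6 : (Y \ B).card = (Z \ B).card + 1 := by
        rw [hYdef, Finset.insert_sdiff_of_notMem _ hB1.2, Finset.card_insert_of_notMem]
        simp [hy]
      omega
    · push Not at h2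
      obtain ⟨B, hB1, hB2⟩ := h2
      refine ⟨B, hB1, ?_⟩
      have h3 : Z \ B ⊆ Y \ B := Finset.sdiff_subset_sdiff (Finset.subset_insert _ _) le_rfl
      have := Finset.card_le_card h3
      omega
  obtain ⟨B, hB1, hB2⟩ := hex
  refine ⟨B, ⟨hB1, (key B).mpr hB2⟩, ?_⟩
  rintro C ⟨hC1, hC2⟩
  exact huniq C hC1 B hB1 ((key C).mp hC2) hB2

/-- the design is `β(n+1)` and `β(n)`: equality in Noda's upper bound -/
theorem eq_of_beta_pred {Bs : Finset (Finset Ω)} {v k d n : ℕ} (hD : IsDesign Bs v k d)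
    (hB : IsBeta Bs v d (n + 1)) (hB' : IsBeta Bs v d n) (hk : d + n ≤ k) (hw : n ≤ v - k) :
    n * v = (d + 2 * n) * (k - d) := by
  obtain ⟨Y, hY, h2⟩ := exists_case_two hD hk hw
  obtain ⟨c1, c2, c3⟩ := case_two_count hD hB hk hY h2
  have hn := hB'.1
  set S := Bs.filter (fun B => (Y \ B).card = n) with hS
  have h4 : ∀ z ∈ Y, (S.filter (fun B => z ∉ B)).card = 1 := by
    intro z hz
    refine le_antisymm (c2 z hz) ?_
    rw [Nat.one_le_iff_ne_zero, ← Nat.pos_iff_ne_zero, Finset.card_pos]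
    have hcard : (Y.erase z).card = d + 2 * n - 1 := by
      rw [Finset.card_erase_of_mem hz, hY]
    obtain ⟨B, ⟨hB1, hB2⟩, -⟩ := hB'.2.2 (Y.erase z) hcard
    have h5 := Finset.card_sdiff_add_card_inter (Y.erase z) B
    have h6 : ((Y.erase z) \ B).card ≤ n - 1 := by omega
    have h7 := h2 B hB1
    have hzB : z ∉ B := by
      intro hzB
      have : Y \ B = Y.erase z \ B := by
        ext u
        simp only [Finset.mem_sdiff, Finset.mem_erase]
        constructor
        · rintro ⟨h1, h2⟩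
          exact ⟨⟨fun h => h2 (h ▸ hzB), h1⟩, h2⟩
        · rintro ⟨⟨-, h1⟩, h2⟩
          exact ⟨h1, h2⟩
      rw [← this] at h6
      omega
    refine ⟨B, ?_⟩
    rw [Finset.mem_filter, hS, Finset.mem_filter]
    refine ⟨⟨hB1, ?_⟩, hzB⟩
    have h8 : Y \ B ⊆ insert z (Y.erase z \ B) := by
      intro u hu
      simp only [Finset.mem_sdiff, Finset.mem_insert, Finset.mem_erase] at hu ⊢
      tauto
    have h9 := (Finset.card_le_card h8).trans (Finset.card_insert_le _ _)
    omega
  have h5 : n * S.card = d + 2 * n := by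
    rw [← c3, Finset.sum_congr rfl h4, Finset.sum_const, smul_eq_mul, mul_one, hY]
  have hv : d + 2 * n ≤ v := by
    have := Finset.card_le_univ Y
    rw [hD.card_points, hY] at this
    exact this
  obtain ⟨r, hr⟩ : ∃ r, v = d + 2 * n + r := ⟨v - (d + 2 * n), by omega⟩
  obtain ⟨q, hq⟩ : ∃ q, k = d + n + q := ⟨k - (d + n), by omega⟩
  have e1 : v - (d + 2 * n) = r := by omega
  have e2 : k - (d + n) = q := by omega
  have e3 : k - d = n + q := by omega
  rw [e1, e2] at c1
  rw [e3, hr, c1]
  nlinarith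

/-- Noda's lower bound -/
theorem noda_lower {Bs : Finset (Finset Ω)} {v k d n : ℕ} (hD : IsDesign Bs v k d)
    (hB : IsBeta Bs v d (n + 1)) (hk : d + n + 1 ≤ k) :
    (d + 2 * n + 2) * (k - d) ≤ (n + 1) * v := by
  obtain ⟨hdk, hkv⟩ := design_facts hD
  have hB' := beta_co hD (by omega) hB
  have hkv' : k < v := by
    by_contra hcon
    have : v < 2 * k - d := by omega
    omega
  have h := noda_upper (n := k - d - n - 1) (design_co hD)
    (by rw [show k - d - n - 1 + 1 = k - d - (n + 1) + 1 by omega]; exact hB') (by omega)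
    (by omega)
  rw [show v - k - (v + d - 2 * k) = k - d by omega] at h
  obtain ⟨q, hq⟩ : ∃ q, k = d + n + 1 + q := ⟨k - (d + n + 1), by omega⟩
  obtain ⟨w, hw⟩ : ∃ w, v + d = 2 * k + w := ⟨v + d - 2 * k, by omega⟩
  rw [show k - d - n - 1 = q by omega, show v + d - 2 * k = w by omega,
    show k - d = n + 1 + q by omega] at h
  rw [show k - d = n + 1 + q by omega]
  have hv : v = d + 2 * n + 2 + 2 * q + w := by omega
  rw [hv] at h ⊢
  nlinarith

end Pool.Agent.BetaL
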