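import Mathlib
import Pool.Agent.BetaL.Noda

namespace Pool.Agent.BetaL

open Finset Pool.Agent.MP_1e96f1_co

/-- the recursion for the pair `(p, e)` -/
noncomputable def pe (x w a lam : ℝ) : ℕ → ℝ × ℝ
  | 0 => (1, lam / x)
  | (l + 1) =>
    ((pe x w a lam l).1 - (pe x w a lam l).2 / (a + 1 + l),
      (lam * ((pe x w a lam l).1 - (pe x w a lam l).2 / (a + 1 + l)) +
        (l + 1) * (w - l) / (a + 1 + l) * (pe x w a lam l).2) / (x - l - 1))

/-- the end function -/
noncomputable def G (x w a : ℝ) (n : ℕ) (lam : ℝ) : ℝ :=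
  (w + a + 1) * (pe x w a lam n).1 - (pe x w a lam n).2

lemma pe_cont (x w a : ℝ) (l : ℕ) :
    Continuous (fun lam => (pe x w a lam l).1) ∧ Continuous (fun lam => (pe x w a lam l).2) := by
  induction l with
  | zero =>
    simp only [pe]
    exact ⟨continuous_const, continuous_id.div_const _⟩
  | succ l ih =>
    obtain ⟨h1, h2⟩ := ih
    simp only [pe]
    constructor
    · exact h1.sub (h2.div_const _)
    · exact ((continuous_id.mul (h1.sub (h2.div_const _))).add (continuous_const.mul h2)).div_const _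

lemma G_cont (x w a : ℝ) (n : ℕ) : Continuous (G x w a n) := by
  obtain ⟨h1, h2⟩ := pe_cont x w a n
  exact (continuous_const.mul h1).sub h2

/-- the weights -/
noncomputable def hh (w a : ℝ) : ℕ → ℝ
  | 0 => 1
  | (l + 1) => -(hh w a l * ((a + 1 + l) / (w - l)))

/-- the level function -/
noncomputable def FF (x w a lam : ℝ) (l : ℕ) : ℝ := hh w a l * (pe x w a lam l).1

lemma Ev_FF (x w a lam : ℝ) (v k X : ℕ) (hX : (X : ℝ) = x) (hk : (k : ℝ) = x + a)
    (hv : (v : ℝ) = x + a + w) (l : ℕ) (ha : a + 1 + l ≠ 0) (hw : w - l ≠ 0) :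
    Ev v k X (FF x w a lam) l = hh w a l * (pe x w a lam l).2 := by
  unfold Ev FF
  simp only [pe, hh]
  rw [hk, hX, hv]
  field_simp
  ring

variable {Ω : Type*} [Fintype Ω] [DecidableEq Ω]

/-- A zero of the end function comes from an integer. -/
theorem zero_int {Bs : Finset (Finset Ω)} {v k d n : ℕ} (hD : IsDesign Bs v k d)
    (hB : IsBeta Bs v d (n + 1)) (hn : 1 ≤ n) (hk : d + 2 * n + 1 ≤ k) {x a w : ℝ}
    (hx : x = ((d + 2 * n + 1 : ℕ) : ℝ)) (ha : a = k - x) (hw : w = v - k) {lam : ℝ}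
    (hG : G x w a n lam = 0) :
    ∃ t : ℕ, lam = t * (v - 2 * x + 1 + t) := by
  obtain ⟨hdk, hkv⟩ := design_facts hD
  have ha0 : 0 ≤ a := by
    have : ((d + 2 * n + 1 : ℕ) : ℝ) ≤ k := by exact_mod_cast hk
    rw [ha, hx]; linarith
  have hwn : (n : ℝ) ≤ w := by
    have : n + k ≤ v := by omega
    have : (n : ℝ) + k ≤ v := by exact_mod_cast this
    rw [hw]; linarith
  have hxn : (n : ℝ) + 1 ≤ x := by
    rw [hx]
    have : n + 1 ≤ d + 2 * n + 1 := by omega
    exact_mod_cast this
  have hkx : (k : ℝ) = x + a := by rw [ha]; ring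
  have hvx : (v : ℝ) = x + a + w := by rw [ha, hw]; ring
  have hane : ∀ l : ℕ, a + 1 + l ≠ 0 := fun l => by positivity
  have hwne : ∀ l : ℕ, l < n → w - l ≠ 0 := by
    intro l hl
    have : (l : ℝ) < n := by exact_mod_cast hl
    have : 0 < w - l := by linarith
    exact this.ne'
  have hev : ∀ l : ℕ, l < n → Ev v k (d + 2 * n + 1) (FF x w a lam) l =
      hh w a l * (pe x w a lam l).2 := fun l hl =>
    Ev_FF x w a lam v k (d + 2 * n + 1) hx.symm hkx hvx l (hane l) (hwne l hl)
  have hstep : ∀ l : ℕ, l < n → ((l + 1 : ℕ) : ℝ) * (hh w a l * (pe x w a lam l).2) +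
      (x - (l + 1 : ℕ)) * (hh w a (l + 1) * (pe x w a lam (l + 1)).2) =
      lam * FF x w a lam (l + 1) := by
    intro l hl
    have h1 : (x - l - 1) ≠ 0 := by
      have : (l : ℝ) < n := by exact_mod_cast hl
      have : 0 < x - l - 1 := by linarith
      exact this.ne'
    have h2 := hane l
    have h3 := hwne l hl
    unfold FF
    simp only [pe, hh]
    push_cast
    have h4 : x - ((l : ℝ) + 1) = x - l - 1 := by ring
    rw [h4]
    field_simp
    ring
  have hmain := lloyd hD hB hk (FF x w a lam) lam (by simp [FF, hh, pe]) ?_ ?_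
  · obtain ⟨t, -, ht⟩ := hmain
    refine ⟨t, ?_⟩
    rw [ht, hx]
  · intro l hl
    rw [← hx]
    rcases Nat.eq_zero_or_pos l with h0 | h0
    · subst h0
      rw [hev 0 hl]
      have : x ≠ 0 := by linarith
      simp only [FF, hh, pe]
      push_cast
      field_simp
      ring
    · obtain ⟨j, rfl⟩ : ∃ j, l = j + 1 := ⟨l - 1, by omega⟩
      rw [hev _ hl, show j + 1 - 1 = j by omega, hev j (by omega)]
      exact hstep j (by omega)
  · rw [← hx]
    obtain ⟨j, rfl⟩ : ∃ j, n = j + 1 := ⟨n - 1, by omega⟩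
    rw [show j + 1 - 1 = j by omega, hev j (by omega), ← hstep j (by omega)]
    have h5 : (pe x w a lam (j + 1)).2 = (w + a + 1) * (pe x w a lam (j + 1)).1 := by
      unfold G at hG; linarith
    rw [h5, FF, hvx]
    ring

/-- no sign change between consecutive integers -/
theorem no_sign_change {Bs : Finset (Finset Ω)} {v k d n : ℕ} (hD : IsDesign Bs v k d)
    (hB : IsBeta Bs v d (n + 1)) (hn : 1 ≤ n) (hk : d + 2 * n + 1 ≤ k) {x a w : ℝ}
    (hx : x = ((d + 2 * n + 1 : ℕ) : ℝ)) (ha : a = k - x) (hw : w = v - k)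
    (hv : 2 * x ≤ v + 1) (T : ℕ)
    (hsign : G x w a n (T * (v - 2 * x + 1 + T)) *
      G x w a n (((T + 1 : ℕ) : ℝ) * (v - 2 * x + 1 + (T + 1 : ℕ))) < 0) : False := by
  set L : ℝ := v - 2 * x + 1 with hL
  have hL0 : 0 ≤ L := by rw [hL]; linarith
  have hlt : (T : ℝ) * (L + T) < ((T + 1 : ℕ) : ℝ) * (L + (T + 1 : ℕ)) := by
    push_cast
    have : (0 : ℝ) ≤ T := by positivity
    nlinarith
  have hcont := G_cont x w a n
  obtain ⟨lam, hlam, hG⟩ : ∃ lam ∈ Set.Ioo ((T : ℝ) * (L + T))
      (((T + 1 : ℕ) : ℝ) * (L + (T + 1 : ℕ))), G x w a n lam = 0 := by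
    rcases lt_or_ge (G x w a n ((T : ℝ) * (L + T))) 0 with h0 | h0
    · have h1 : 0 < G x w a n (((T + 1 : ℕ) : ℝ) * (L + (T + 1 : ℕ))) := by
        by_contra hcon
        push Not at hcon
        nlinarith
      obtain ⟨lam, hl, hl'⟩ := intermediate_value_Ioo hlt.le hcont.continuousOn ⟨h0, h1⟩
      exact ⟨lam, hl, hl'⟩
    · have h0' : 0 < G x w a n ((T : ℝ) * (L + T)) := by
        rcases h0.lt_or_eq with h | h
        · exact h
        · rw [← h, zero_mul] at hsign
          exact absurd hsign (lt_irrefl _)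
      have h1 : G x w a n (((T + 1 : ℕ) : ℝ) * (L + (T + 1 : ℕ))) < 0 := by
        by_contra hcon
        push Not at hcon
        nlinarith
      obtain ⟨lam, hl, hl'⟩ := intermediate_value_Ioo' hlt.le hcont.continuousOn ⟨h1, h0'⟩
      exact ⟨lam, hl, hl'⟩
  obtain ⟨t, ht⟩ := zero_int hD hB hn hk hx ha hw hG
  rw [← hL] at ht
  rw [Set.mem_Ioo, ht] at hlam
  obtain ⟨h1, h2⟩ := hlam
  have ht0 : (0 : ℝ) ≤ t := by positivity
  have hT0 : (0 : ℝ) ≤ T := by positivity
  have h3 : T < t := by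
    by_contra hcon
    push Not at hcon
    have : (t : ℝ) ≤ T := by exact_mod_cast hcon
    have : (t : ℝ) * (L + t) ≤ T * (L + T) := by
      apply mul_le_mul this (by linarith) (by positivity) hT0
    linarith
  have h4 : t < T + 1 := by
    by_contra hcon
    push Not at hcon
    have : ((T + 1 : ℕ) : ℝ) ≤ t := by exact_mod_cast hcon
    have : ((T + 1 : ℕ) : ℝ) * (L + (T + 1 : ℕ)) ≤ t * (L + t) := by
      apply mul_le_mul this (by linarith) (by positivity) ht0
    linarith
  omega

/-- closed form at the first point -/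
lemma pe_one {x w a : ℝ} (ha : 0 ≤ a) (l : ℕ) (hl : (l : ℝ) < x) :
    (pe x w a (w + a + 2 - x) l).1 = 1 - (w + a + 2 - x) * l / (x * (a + 1)) ∧
    (pe x w a (w + a + 2 - x) l).2 = (a + 1 + l) * (w + a + 2 - x) / (x * (a + 1)) := by
  induction l with
  | zero =>
    have hx : x ≠ 0 := by
      push_cast at hl; exact hl.ne'
    simp only [pe]
    constructor
    · simp
    · field_simp
      push_cast; ring
  | succ l ih =>
    push_cast at hl
    obtain ⟨h1, h2⟩ := ih (by linarith)
    have hl0 : (0 : ℝ) ≤ l := by positivity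
    have hx : x ≠ 0 := by
      have : 0 < x := by linarith
      exact this.ne'
    have hx1 : x - l - 1 ≠ 0 := by
      have : 0 < x - l - 1 := by linarith
      exact this.ne'
    have ha1 : a + 1 ≠ 0 := by positivity
    have ha2 : a + 1 + l ≠ 0 := by positivity
    simp only [pe]
    rw [h1, h2]
    push_cast
    constructor
    · field_simp
      ring
    · field_simp
      ring

/-- closed form at the second point -/
lemma pe_two {x w a : ℝ} (ha : 0 ≤ a) (hx2 : 1 < x) (l : ℕ) (hl : (l : ℝ) < x) :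
    (pe x w a (2 * (w + a + 3 - x)) l).1 = 1 - 2 * (w + a + 3 - x) * l / (x * (a + 1)) +
      (w + a + 3 - x) * (w + a + 4 - x) * l * (l - 1) / ((a + 1) * (a + 2) * x * (x - 1)) ∧
    (pe x w a (2 * (w + a + 3 - x)) l).2 = (a + 1 + l) * (2 * (w + a + 3 - x) / (x * (a + 1)) -
      2 * (w + a + 3 - x) * (w + a + 4 - x) * l / ((a + 1) * (a + 2) * x * (x - 1))) := by
  induction l with
  | zero =>
    have hx : x ≠ 0 := by linarith
    simp only [pe]
    constructor
    · simp
    · push_cast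
      field_simp
      ring
  | succ l ih =>
    push_cast at hl
    obtain ⟨h1, h2⟩ := ih (by linarith)
    have hl0 : (0 : ℝ) ≤ l := by positivity
    have hx : x ≠ 0 := by linarith
    have hx0 : x - 1 ≠ 0 := by
      have : 0 < x - 1 := by linarith
      exact this.ne'
    have hx1 : x - l - 1 ≠ 0 := by
      have : 0 < x - l - 1 := by linarith
      exact this.ne'
    have ha1 : a + 1 ≠ 0 := by positivity
    have ha3 : a + 2 ≠ 0 := by positivity
    have ha2 : a + 1 + l ≠ 0 := by positivity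
    simp only [pe]
    rw [h1, h2]
    push_cast
    constructor
    · field_simp
      ring
    · field_simp
      ring

lemma G_one {x w a : ℝ} (ha : 0 ≤ a) (n : ℕ) (hn : (n : ℝ) < x) :
    G x w a n (w + a + 2 - x) * (x * (a + 1)) =
      (w + a + 2) * (x * (a + 1 + n) - n * (w + a + 2) - (a + 1)) := by
  obtain ⟨h1, h2⟩ := pe_one (w := w) ha n hn
  have hn0 : (0 : ℝ) ≤ n := by positivity
  have hx : x ≠ 0 := by
    have : 0 < x := by linarith
    exact this.ne'
  have ha1 : a + 1 ≠ 0 := by positivity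
  rw [G, h1, h2]
  field_simp
  ring

lemma G_two {x w a : ℝ} (ha : 0 ≤ a) (hx2 : 1 < x) (n : ℕ) (hn : (n : ℝ) < x) :
    G x w a n (2 * (w + a + 3 - x)) * ((a + 1) * (a + 2) * x * (x - 1)) =
      (w + a + 3) * ((a + 1) * (a + 2) * (x - 1) * (x - 2) -
        2 * n * (a + 2) * (w + a + 3 - x) * (x - 2) +
        n * (n - 1) * (w + a + 3 - x) * (w + a + 4 - x)) := by
  obtain ⟨h1, h2⟩ := pe_two (w := w) ha hx2 n hn
  have hx : x ≠ 0 := by linarith
  have hx0 : x - 1 ≠ 0 := by
    have : 0 < x - 1 := by linarith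
    exact this.ne'
  have ha1 : a + 1 ≠ 0 := by positivity
  have ha3 : a + 2 ≠ 0 := by positivity
  rw [G, h1, h2]
  field_simp
  ring

end Pool.Agent.BetaL
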