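import Mathlib
import Pool.Agent.BetaL.Recur

namespace Pool.Agent.BetaL

open Finset Pool.Agent.MP_1e96f1_co Matrix

/-- trace of the square of a real symmetric matrix -/
theorem trace_mul_self {N : ℕ} {A : Matrix (Fin N) (Fin N) ℝ} (hA : A.IsHermitian) :
    (A * A).trace = ∑ i, hA.eigenvalues i ^ 2 := by
  have h := hA.spectral_theorem
  conv_lhs => rw [h]
  rw [← map_mul, Unitary.conjStarAlgAut_apply, Matrix.trace_mul_comm, ← mul_assoc]
  simp [Matrix.diagonal_mul_diagonal, Matrix.trace_diagonal, sq]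

/-- diagonal entries -/
noncomputable def dg (x w a : ℝ) (n l : ℕ) : ℝ :=
  if l < n then l * (w - l + 1) + (x - l) * (a + 1 + l) else
    n * (w - n + 1) + (x - n) * (a + w + 1)

/-- products of the off-diagonal entries -/
noncomputable def od (x w a : ℝ) (l : ℕ) : ℝ := (x - l) * (w - l) * ((l + 1) * (a + l + 1))

/-- the symmetric quotient matrix -/
noncomputable def HM (x w a : ℝ) (n : ℕ) : Matrix (Fin (n + 1)) (Fin (n + 1)) ℝ := fun i j =>
  (if (i : ℕ) = j then dg x w a n i else 0) + (if (i : ℕ) + 1 = j then √(od x w a i) else 0) +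
    (if (j : ℕ) + 1 = i then √(od x w a j) else 0)

theorem HM_herm (x w a : ℝ) (n : ℕ) : (HM x w a n).IsHermitian := by
  ext i j
  simp only [HM, Matrix.conjTranspose_apply, star_trivial]
  by_cases h1 : (i : ℕ) = j
  · have : i = j := Fin.ext h1
    subst this
    simp
  · rw [if_neg h1, if_neg (fun h => h1 h.symm)]
    ring

/-- extension by zero -/
def xt {N : ℕ} (f : Fin N → ℝ) (l : ℕ) : ℝ := if h : l < N then f ⟨l, h⟩ else 0

lemma xt_coe {N : ℕ} (f : Fin N → ℝ) (i : Fin N) : xt f i = f i := by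
  simp [xt]

lemma sum_ite_fin {N : ℕ} (f : Fin N → ℝ) (c : ℝ) (m : ℕ) (hm : m < N) :
    ∑ j : Fin N, (if m = (j : ℕ) then c else 0) * f j = c * xt f m := by
  rw [Finset.sum_eq_single (⟨m, hm⟩ : Fin N)]
  · simp [xt, hm]
  · intro b _ hb
    rw [if_neg, zero_mul]
    intro h
    exact hb (Fin.ext h.symm)
  · intro h
    exact absurd (Finset.mem_univ _) h

lemma HM_mulVec (x w a : ℝ) (n : ℕ) (f : Fin (n + 1) → ℝ) (l : ℕ) (hl : l < n + 1) :
    (HM x w a n *ᵥ f) ⟨l, hl⟩ = dg x w a n l * xt f l +
      (if l < n then √(od x w a l) * xt f (l + 1) else 0) +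
      (if 0 < l then √(od x w a (l - 1)) * xt f (l - 1) else 0) := by
  simp only [Matrix.mulVec, dotProduct, HM, add_mul, Finset.sum_add_distrib]
  congr 1
  · congr 1
    · rw [sum_ite_fin _ _ _ hl]
    · split_ifs with h
      · rw [sum_ite_fin _ _ _ (by omega : l + 1 < n + 1)]
      · refine Finset.sum_eq_zero fun j _ => ?_
        rw [if_neg (by have := j.2; omega), zero_mul]
  · split_ifs with h
    · have : ∀ j : Fin (n + 1), (if (j : ℕ) + 1 = l then √(od x w a j) else 0) * f j =
          (if l - 1 = (j : ℕ) then √(od x w a (l - 1)) else 0) * f j := by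
        intro j
        by_cases h1 : (j : ℕ) + 1 = l
        · have h2 : l - 1 = j := by omega
          rw [if_pos h1, if_pos h2, h2]
        · have h2 : ¬ l - 1 = j := by omega
          rw [if_neg h1, if_neg h2]
      rw [Finset.sum_congr rfl fun j _ => this j, sum_ite_fin _ _ _ (by omega : l - 1 < n + 1)]
    · refine Finset.sum_eq_zero fun j _ => ?_
      rw [if_neg (by omega), zero_mul]

/-- an eigenvector with vanishing first coordinate vanishes -/
lemma eig_zero {x w a : ℝ} {n : ℕ} (hod : ∀ l < n, 0 < od x w a l) {f : Fin (n + 1) → ℝ} {lam : ℝ}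
    (hf : HM x w a n *ᵥ f = lam • f) (h0 : f 0 = 0) : f = 0 := by
  have hrow : ∀ l (hl : l < n + 1), lam * xt f l = dg x w a n l * xt f l +
      (if l < n then √(od x w a l) * xt f (l + 1) else 0) +
      (if 0 < l then √(od x w a (l - 1)) * xt f (l - 1) else 0) := by
    intro l hl
    rw [← HM_mulVec x w a n f l hl, hf, xt, dif_pos hl]
    rfl
  have key : ∀ l, l ≤ n → xt f l = 0 := by
    intro l
    induction l using Nat.strong_induction_on with
    | _ l ih =>
      intro hl
      rcases Nat.eq_zero_or_pos l with h | h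
      · subst h
        simp only [xt, Nat.zero_lt_succ, dif_pos]
        exact h0
      · obtain ⟨m, rfl⟩ : ∃ m, l = m + 1 := ⟨l - 1, by omega⟩
        have h1 := hrow m (by omega)
        rw [if_pos (by omega : m < n), ih m (by omega) (by omega)] at h1
        have h2 : (if 0 < m then √(od x w a (m - 1)) * xt f (m - 1) else 0) = 0 := by
          split_ifs with h3
          · rw [ih (m - 1) (by omega) (by omega), mul_zero]
          · rfl
        rw [h2] at h1
        have h3 : √(od x w a m) ≠ 0 := (Real.sqrt_pos.mpr (hod m (by omega))).ne'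
        have h4 : √(od x w a m) * xt f (m + 1) = 0 := by linarith
        rcases mul_eq_zero.mp h4 with h5 | h5
        · exact absurd h5 h3
        · exact h5
  funext i
  rw [← xt_coe f i]
  exact key i (by have := i.2; omega)

lemma eig_ne {x w a : ℝ} {n : ℕ} (hod : ∀ l < n, 0 < od x w a l) {f : Fin (n + 1) → ℝ} {lam : ℝ}
    (hf : HM x w a n *ᵥ f = lam • f) (hne : f ≠ 0) : f 0 ≠ 0 := fun h => hne (eig_zero hod hf h)

/-- the eigenvalues are distinct -/
theorem eig_inj {x w a : ℝ} {n : ℕ} (hod : ∀ l < n, 0 < od x w a l) :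
    Function.Injective (HM_herm x w a n).eigenvalues := by
  intro i j hij
  by_contra hne
  set hH := HM_herm x w a n
  set vi : Fin (n + 1) → ℝ := ⇑(hH.eigenvectorBasis i) with hvi
  set vj : Fin (n + 1) → ℝ := ⇑(hH.eigenvectorBasis j) with hvj
  have h1 : HM x w a n *ᵥ vi = hH.eigenvalues i • vi := hH.mulVec_eigenvectorBasis i
  have h2 : HM x w a n *ᵥ vj = hH.eigenvalues j • vj := hH.mulVec_eigenvectorBasis j
  have hli := hH.eigenvectorBasis.orthonormal.linearIndependent
  have h3 : HM x w a n *ᵥ (vj 0 • vi - vi 0 • vj) =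
      hH.eigenvalues i • (vj 0 • vi - vi 0 • vj) := by
    rw [Matrix.mulVec_sub, Matrix.mulVec_smul, Matrix.mulVec_smul, h1, h2, ← hij]
    module
  have h4 := eig_zero hod h3 (by simp; ring)
  have hvj0 : vj ≠ 0 := by
    intro h
    have h5 : hH.eigenvectorBasis j = 0 := by
      ext l
      exact congrFun h l
    exact hli.ne_zero j h5
  have hj0 := eig_ne hod h2 hvj0
  have h6 : vj 0 • hH.eigenvectorBasis i - vi 0 • hH.eigenvectorBasis j = 0 := by
    ext l
    exact congrFun h4 l
  have h7 := congrArg (fun z => inner ℝ (hH.eigenvectorBasis i) z) h6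
  simp only [inner_sub_right, inner_smul_right, inner_zero_right,
    hH.eigenvectorBasis.orthonormal.2 hne, mul_zero, sub_zero, real_inner_self_eq_norm_sq,
    hH.eigenvectorBasis.orthonormal.1 i] at h7
  exact hj0 (by linarith)

/-- scaling factors -/
noncomputable def sc (x w a : ℝ) : ℕ → ℝ
  | 0 => 1
  | (l + 1) => sc x w a l * √(od x w a l) / ((x - l) * (w - l))

lemma sc_one {x w a : ℝ} (l : ℕ) (h : (x - l) * (w - l) ≠ 0) :
    sc x w a (l + 1) * ((x - l) * (w - l)) = sc x w a l * √(od x w a l) := by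
  rw [sc, div_mul_cancel₀ _ h]

lemma sc_two {x w a : ℝ} (l : ℕ) (h : (x - l) * (w - l) ≠ 0) (h0 : 0 ≤ od x w a l) :
    sc x w a (l + 1) * √(od x w a l) = sc x w a l * ((l + 1) * (a + l + 1)) := by
  rw [sc, div_mul_eq_mul_div, mul_assoc, Real.mul_self_sqrt h0, od, div_eq_iff h]
  ring

lemma sc_pos {x w a : ℝ} {n : ℕ} (hod : ∀ l < n, 0 < od x w a l)
    (hp : ∀ l < n, 0 < (x - l) * (w - l)) : ∀ l ≤ n, 0 < sc x w a l := by
  intro l
  induction l with
  | zero => intro _; simp [sc]
  | succ l ih =>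
    intro hl
    rw [sc]
    exact div_pos (mul_pos (ih (by omega)) (Real.sqrt_pos.mpr (hod l (by omega))))
      (hp l (by omega))

/-- transfer of an eigenvector to a level function -/
lemma toF {x w a : ℝ} {n : ℕ} (hn : 1 ≤ n) (hod : ∀ l < n, 0 < od x w a l)
    (hp : ∀ l < n, 0 < (x - l) * (w - l)) {f : Fin (n + 1) → ℝ} {lam : ℝ}
    (hf : HM x w a n *ᵥ f = lam • f) (hne : f ≠ 0) :
    ∃ F : ℕ → ℝ, F 0 ≠ 0 ∧
      (∀ l < n, (l : ℝ) * ((a + l) * F (l - 1) + (w - l + 1) * F l) +
        (x - l) * ((a + 1 + l) * F l + (w - l) * F (l + 1)) = lam * F l) ∧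
      (n : ℝ) * ((a + n) * F (n - 1) + (w - n + 1) * F n) +
        (x - n) * ((a + w + 1) * F n) = lam * F n := by
  have hrow : ∀ l (hl : l < n + 1), lam * xt f l = dg x w a n l * xt f l +
      (if l < n then √(od x w a l) * xt f (l + 1) else 0) +
      (if 0 < l then √(od x w a (l - 1)) * xt f (l - 1) else 0) := by
    intro l hl
    rw [← HM_mulVec x w a n f l hl, hf, xt, dif_pos hl]
    rfl
  refine ⟨fun l => sc x w a l * xt f l, ?_, ?_, ?_⟩
  · have h := eig_ne hod hf hne
    simp only [sc, one_mul]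
    simpa [xt] using h
  · intro l hl
    have h1 := hrow l (by omega)
    rw [if_pos hl, dg, if_pos hl] at h1
    have h2 := sc_one (a := a) l (hp l hl).ne'
    rcases Nat.eq_zero_or_pos l with h | h
    · subst h
      simp only [lt_irrefl, if_false, add_zero] at h1
      simp only [sc, one_mul] at h2 ⊢
      push_cast at h1 h2 ⊢
      rw [h1]
      linear_combination (xt f 1) * h2
    · obtain ⟨m, rfl⟩ : ∃ m, l = m + 1 := ⟨l - 1, by omega⟩
      rw [if_pos h] at h1
      simp only [Nat.add_sub_cancel] at h1 ⊢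
      have h3 := sc_two (a := a) m (hp m (by omega)).ne' (hod m (by omega)).le
      push_cast at h1 h2 ⊢
      linear_combination (-sc x w a (m + 1)) * h1 + (xt f (m + 1 + 1)) * h2 - (xt f m) * h3
  · have h1 := hrow n (by omega)
    obtain ⟨m, rfl⟩ : ∃ m, n = m + 1 := ⟨n - 1, by omega⟩
    rw [if_neg (lt_irrefl _), if_pos (by omega : 0 < m + 1), dg, if_neg (lt_irrefl _)] at h1
    simp only [Nat.add_sub_cancel] at h1 ⊢
    have h3 := sc_two (a := a) m (hp m (by omega)).ne' (hod m (by omega)).le
    push_cast at h1 ⊢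
    linear_combination (-sc x w a (m + 1)) * h1 - (xt f m) * h3

/-- the trivial eigenvalue -/
lemma triv_mem {x w a : ℝ} {n : ℕ} (hn : 1 ≤ n) (hod : ∀ l < n, 0 < od x w a l)
    (hp : ∀ l < n, 0 < (x - l) * (w - l)) :
    ∃ j, (HM_herm x w a n).eigenvalues j = x * (a + w + 1) := by
  have hsc := sc_pos hod hp
  set u : Fin (n + 1) → ℝ := fun i => (sc x w a i)⁻¹ with hu
  have hxt : ∀ l, l ≤ n → xt u l = (sc x w a l)⁻¹ := by
    intro l hl
    rw [xt, dif_pos (by omega)]
  have hHu : HM x w a n *ᵥ u = (x * (a + w + 1)) • u := by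
    funext i
    obtain ⟨l, hl⟩ := i
    rw [HM_mulVec, hxt l (by omega)]
    have hs := (hsc l (by omega)).ne'
    have e1 : (if l < n then √(od x w a l) * xt u (l + 1) else 0) =
        (if l < n then (x - l) * (w - l) else 0) * (sc x w a l)⁻¹ := by
      split_ifs with h
      · rw [hxt (l + 1) (by omega)]
        have h2 := sc_one (a := a) l (hp l h).ne'
        have h3 := (hsc (l + 1) (by omega)).ne'
        field_simp
        linear_combination -h2
      · simp
    have e2 : (if 0 < l then √(od x w a (l - 1)) * xt u (l - 1) else 0) =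
        (l * (a + l)) * (sc x w a l)⁻¹ := by
      split_ifs with h
      · obtain ⟨m, rfl⟩ : ∃ m, l = m + 1 := ⟨l - 1, by omega⟩
        simp only [Nat.add_sub_cancel]
        rw [hxt m (by omega)]
        have h3 := sc_two (a := a) m (hp m (by omega)).ne' (hod m (by omega)).le
        have h4 := (hsc m (by omega)).ne'
        push_cast
        field_simp
        linear_combination h3
      · have : l = 0 := by omega
        subst this
        simp
    rw [e1, e2]
    show _ = (x * (a + w + 1)) * (sc x w a l)⁻¹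
    rw [← add_mul, ← add_mul]
    congr 1
    unfold dg
    by_cases h : l < n
    · rw [if_pos h, if_pos h]
      ring
    · have : l = n := by omega
      subst this
      rw [if_neg h, if_neg h]
      ring
  have hu0 : u ≠ 0 := by
    intro h
    have := congrFun h 0
    simp [hu, sc] at this
  have hmem : x * (a + w + 1) ∈ spectrum ℝ (HM x w a n) := by
    rw [← Matrix.spectrum_toLin']
    refine Module.End.HasEigenvalue.mem_spectrum ?_
    refine Module.End.hasEigenvalue_of_hasEigenvector (x := u) ⟨?_, hu0⟩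
    rw [Module.End.mem_eigenspace_iff, Matrix.toLin'_apply]
    exact hHu
  rw [(HM_herm x w a n).spectrum_real_eq_range_eigenvalues] at hmem
  exact hmem

lemma HM_self (x w a : ℝ) (n : ℕ) (i : Fin (n + 1)) : HM x w a n i i = dg x w a n i := by
  simp [HM]

lemma HM_trace (x w a : ℝ) (n : ℕ) :
    (HM x w a n).trace = ∑ l ∈ range (n + 1), dg x w a n l := by
  rw [Finset.sum_range]
  exact Finset.sum_congr rfl fun i _ => HM_self x w a n i

lemma HM_sq (x w a : ℝ) (n : ℕ) (hod : ∀ l < n, 0 ≤ od x w a l) (l : ℕ) (hl : l < n + 1) :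
    (HM x w a n * HM x w a n) ⟨l, hl⟩ ⟨l, hl⟩ = dg x w a n l ^ 2 +
      (if l < n then od x w a l else 0) + (if 0 < l then od x w a (l - 1) else 0) := by
  have h1 : (HM x w a n * HM x w a n) ⟨l, hl⟩ ⟨l, hl⟩ =
      (HM x w a n *ᵥ fun j => HM x w a n j ⟨l, hl⟩) ⟨l, hl⟩ := rfl
  rw [h1, HM_mulVec]
  congr 1
  · congr 1
    · rw [xt, dif_pos hl, HM_self]
      simp only
      ring
    · split_ifs with h
      · rw [xt, dif_pos (by omega : l + 1 < n + 1)]
        have : HM x w a n ⟨l + 1, by omega⟩ ⟨l, hl⟩ = √(od x w a l) := by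
          simp only [HM]
          rw [if_neg (by omega), if_neg (by omega)]
          simp
        rw [this, Real.mul_self_sqrt (hod l h)]
      · rfl
  · split_ifs with h
    · rw [xt, dif_pos (by omega : l - 1 < n + 1)]
      have : HM x w a n ⟨l - 1, by omega⟩ ⟨l, hl⟩ = √(od x w a (l - 1)) := by
        simp only [HM]
        rw [if_neg (by omega), if_pos (by omega), if_neg (by omega)]
        ring
      rw [this, Real.mul_self_sqrt (hod (l - 1) (by omega))]
    · rfl

lemma HM_trace_sq (x w a : ℝ) (n : ℕ) (hod : ∀ l < n, 0 ≤ od x w a l) :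
    (HM x w a n * HM x w a n).trace = (∑ l ∈ range (n + 1), dg x w a n l ^ 2) +
      2 * ∑ l ∈ range n, od x w a l := by
  have h1 : (HM x w a n * HM x w a n).trace = ∑ l ∈ range (n + 1), (dg x w a n l ^ 2 +
      (if l < n then od x w a l else 0) + (if 0 < l then od x w a (l - 1) else 0)) := by
    rw [Finset.sum_range]
    exact Finset.sum_congr rfl fun i _ => HM_sq x w a n hod i i.2
  rw [h1, Finset.sum_add_distrib, Finset.sum_add_distrib]
  have h2 : ∑ l ∈ range (n + 1), (if l < n then od x w a l else 0) = ∑ l ∈ range n, od x w a l := by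
    rw [Finset.sum_range_succ, if_neg (lt_irrefl n), add_zero]
    exact Finset.sum_congr rfl fun l hl => if_pos (Finset.mem_range.mp hl)
  have h3 : ∑ l ∈ range (n + 1), (if 0 < l then od x w a (l - 1) else 0) =
      ∑ l ∈ range n, od x w a l := by
    rw [Finset.sum_range_succ']
    simp
  rw [h2, h3]
  ring

lemma dg_sum (x w a L : ℝ) (hL : w = L + x - a - 1) (n : ℕ) :
    ∑ l ∈ range (n + 1), dg x w a n l = (∑ r ∈ range n, (r : ℝ) * (L + r)) +
      n * (a + n) * (x - n) + x * (L + x) := by
  have h1 : ∀ m : ℕ, ∑ l ∈ range m, ((l : ℝ) * (w - l + 1) + (x - l) * (a + 1 + l)) =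
      (∑ r ∈ range m, (r : ℝ) * (L + r)) + m * (a + m) * (x - m) + x * (L + x) -
        (m * (w - m + 1) + (x - m) * (a + w + 1)) := by
    intro m
    induction m with
    | zero => rw [hL]; simp; ring
    | succ m ih =>
      rw [Finset.sum_range_succ, ih, Finset.sum_range_succ, hL]
      push_cast
      ring
  rw [Finset.sum_range_succ]
  have h2 : ∑ l ∈ range n, dg x w a n l =
      ∑ l ∈ range n, ((l : ℝ) * (w - l + 1) + (x - l) * (a + 1 + l)) :=
    Finset.sum_congr rfl fun l hl => by rw [dg, if_pos (Finset.mem_range.mp hl)]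
  rw [h2, h1, dg, if_neg (lt_irrefl n)]
  ring

lemma dg_sq_sum (x w a L : ℝ) (hL : w = L + x - a - 1) (n : ℕ) :
    (∑ l ∈ range (n + 1), dg x w a n l ^ 2) + 2 * ∑ l ∈ range n, od x w a l =
      (∑ r ∈ range n, ((r : ℝ) * (L + r)) ^ 2) +
      n * (n - 1) * (a + n) * (x - n) * (2 * (L + n - 1) - (a + n - 1)) +
      n * (a + n) * (2 * n + a - 1) * (x - n) ^ 2 + (x * (L + x)) ^ 2 := by
  have h1 : ∀ m : ℕ, ∑ l ∈ range m, (((l : ℝ) * (w - l + 1) + (x - l) * (a + 1 + l)) ^ 2 +
      2 * od x w a l) =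
      (∑ r ∈ range m, ((r : ℝ) * (L + r)) ^ 2) +
      m * (m - 1) * (a + m) * (x - m) * (2 * (L + m - 1) - (a + m - 1)) +
      m * (a + m) * (2 * m + a - 1) * (x - m) ^ 2 + (x * (L + x)) ^ 2 -
        (m * (w - m + 1) + (x - m) * (a + w + 1)) ^ 2 := by
    intro m
    induction m with
    | zero => rw [hL]; simp; ring
    | succ m ih =>
      rw [Finset.sum_range_succ, ih, Finset.sum_range_succ, hL, od]
      push_cast
      ring
  rw [Finset.sum_range_succ, Finset.mul_sum]
  have h2 : ∑ l ∈ range n, dg x w a n l ^ 2 =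
      ∑ l ∈ range n, ((l : ℝ) * (w - l + 1) + (x - l) * (a + 1 + l)) ^ 2 :=
    Finset.sum_congr rfl fun l hl => by rw [dg, if_pos (Finset.mem_range.mp hl)]
  have h3 := h1 n
  rw [Finset.sum_add_distrib, ← Finset.mul_sum] at h3
  rw [h2, dg, if_neg (lt_irrefl n), ← Finset.mul_sum]
  linarith

variable {Ω : Type*} [Fintype Ω] [DecidableEq Ω]

/-- All zeros of the Lloyd polynomial are distinct positive integers; their first two power sums. -/
theorem int_zeros {Bs : Finset (Finset Ω)} {v k d n : ℕ} (hD : IsDesign Bs v k d)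
    (hB : IsBeta Bs v d (n + 1)) (hn : 1 ≤ n) (hk : d + 2 * n + 1 ≤ k) {x a L : ℝ}
    (hx : x = ((d + 2 * n + 1 : ℕ) : ℝ)) (ha : a = k - x) (hL : L = v - 2 * x + 1)
    (hL0 : 0 ≤ L) :
    ∃ t : Fin n → ℕ, StrictMono t ∧ (∀ j, 1 ≤ t j) ∧
      ∑ j, (t j : ℝ) * (L + t j) = (∑ r : Fin n, (r : ℝ) * (L + r)) +
        n * (a + n) * (x - n) ∧
      ∑ j, ((t j : ℝ) * (L + t j)) ^ 2 = (∑ r : Fin n, ((r : ℝ) * (L + r)) ^ 2) +
        n * (n - 1) * (a + n) * (x - n) * (2 * (L + n - 1) - (a + n - 1)) +
        n * (a + n) * (2 * n + a - 1) * (x - n) ^ 2 := by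
  obtain ⟨hdk, hkv⟩ := design_facts hD
  set w : ℝ := v - k with hw
  have ha0 : 0 ≤ a := by
    have : ((d + 2 * n + 1 : ℕ) : ℝ) ≤ k := by exact_mod_cast hk
    rw [ha, hx]; linarith
  have hwn : (n : ℝ) ≤ w := by
    have : n + k ≤ v := by omega
    have : (n : ℝ) + k ≤ v := by exact_mod_cast this
    rw [hw]; linarith
  have hxn : (n : ℝ) + 1 ≤ x := by
    rw [hx]
    have : n + 1 ≤ d + 2 * n + 1 := by omega
    exact_mod_cast this
  have hkx : (k : ℝ) = x + a := by rw [ha]; ring
  have hvx : (v : ℝ) = x + a + w := by rw [ha, hw]; ring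
  have hLw : w = L + x - a - 1 := by rw [hL, hvx]; ring
  have hp : ∀ l < n, 0 < (x - (l : ℝ)) * (w - l) := by
    intro l hl
    have : (l : ℝ) < n := by exact_mod_cast hl
    exact mul_pos (by linarith) (by linarith)
  have hod : ∀ l < n, 0 < od x w a l := by
    intro l hl
    rw [od]
    exact mul_pos (hp l hl) (by positivity)
  set hH := HM_herm x w a n with hHdef
  have hvec : ∀ j, ∃ F : ℕ → ℝ, F 0 ≠ 0 ∧
      (∀ l < n, (l : ℝ) * ((a + l) * F (l - 1) + (w - l + 1) * F l) +
        (x - l) * ((a + 1 + l) * F l + (w - l) * F (l + 1)) = hH.eigenvalues j * F l) ∧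
      (n : ℝ) * ((a + n) * F (n - 1) + (w - n + 1) * F n) +
        (x - n) * ((a + w + 1) * F n) = hH.eigenvalues j * F n := by
    intro j
    refine toF hn hod hp (hH.mulVec_eigenvectorBasis j) ?_
    intro h
    have h5 : hH.eigenvectorBasis j = 0 := by
      ext l
      exact congrFun h l
    exact hH.eigenvectorBasis.orthonormal.ne_zero j h5
  have hpos : ∀ j, hH.eigenvalues j ≠ 0 := by
    intro j hj
    obtain ⟨F, hF0, hF1, hF2⟩ := hvec j
    rw [hj] at hF1 hF2
    have hE : ∀ l < n, (a + 1 + l) * F l + (w - l) * F (l + 1) = 0 := by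
      intro l
      induction l with
      | zero =>
        intro hl
        have := hF1 0 hl
        simp only [Nat.cast_zero, zero_mul, zero_add, sub_zero, add_zero] at this ⊢
        rcases mul_eq_zero.mp this with h | h
        · linarith
        · exact h
      | succ l ih =>
        intro hl
        have h1 := hF1 (l + 1) hl
        have h2 := ih (by omega)
        simp only [Nat.add_sub_cancel] at h1
        push_cast at h1 ⊢
        have h3 : (x - (l + 1)) * ((a + 1 + (l + 1)) * F (l + 1) +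
            (w - (l + 1)) * F (l + 1 + 1)) = 0 := by
          linear_combination h1 - (l + 1 : ℝ) * h2
        have h4 : (l : ℝ) + 1 < n := by exact_mod_cast hl
        rcases mul_eq_zero.mp h3 with h | h
        · linarith
        · exact h
    have hFne : ∀ l ≤ n, F l ≠ 0 := by
      intro l
      induction l with
      | zero => intro _; exact hF0
      | succ l ih =>
        intro hl h0
        have h1 := hE l (by omega)
        rw [h0, mul_zero, add_zero] at h1
        rcases mul_eq_zero.mp h1 with h | h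
        · have : 0 < a + 1 + l := by positivity
          linarith
        · exact ih (by omega) h
    obtain ⟨m, rfl⟩ : ∃ m, n = m + 1 := ⟨n - 1, by omega⟩
    have h1 := hE m (by omega)
    simp only [Nat.add_sub_cancel] at hF2
    push_cast at hF2 hxn
    have h2 : (x - (m + 1)) * ((a + w + 1) * F (m + 1)) = 0 := by
      linear_combination hF2 - (m + 1 : ℝ) * h1
    rcases mul_eq_zero.mp h2 with h | h
    · linarith
    · rcases mul_eq_zero.mp h with h | h
      · have : (0 : ℝ) ≤ (m + 1 : ℕ) := by positivity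
        linarith
      · exact hFne _ le_rfl h
  have hT : ∀ j, ∃ t : ℕ, hH.eigenvalues j = t * (L + t) := by
    intro j
    obtain ⟨F, hF0, hF1, hF2⟩ := hvec j
    have hmain := lloyd hD hB hk F (hH.eigenvalues j) hF0 ?_ ?_
    · obtain ⟨t, -, ht⟩ := hmain
      refine ⟨t, ?_⟩
      rw [ht, hL, ← hx]
    · intro l hl
      rw [← hF1 l hl, ← hx]
      unfold Ev
      rw [hkx, hvx, ← hx]
      rcases Nat.eq_zero_or_pos l with h | h
      · subst h; push_cast; ring
      · obtain ⟨m, rfl⟩ : ∃ m, l = m + 1 := ⟨l - 1, by omega⟩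
        simp only [Nat.add_sub_cancel]
        push_cast
        ring
    · rw [← hF2, ← hx]
      unfold Ev
      rw [hkx, hvx, ← hx]
      obtain ⟨m, rfl⟩ : ∃ m, n = m + 1 := ⟨n - 1, by omega⟩
      simp only [Nat.add_sub_cancel]
      push_cast
      ring
  choose T hT using hT
  have hTinj : Function.Injective T := by
    intro i j hij
    apply eig_inj hod
    show hH.eigenvalues i = hH.eigenvalues j
    rw [hT, hT, hij]
  obtain ⟨j0, hj0⟩ := triv_mem hn hod hp
  have hTj0 : (T j0 : ℝ) * (L + T j0) = x * (L + x) := by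
    rw [← hT, hj0, hLw]
    ring
  set S : Finset ℕ := (Finset.univ.erase j0).image T with hS
  have hSc : S.card = n := by
    rw [hS, Finset.card_image_of_injective _ hTinj, Finset.card_erase_of_mem (Finset.mem_univ _)]
    simp
  have hsum : ∀ g : ℕ → ℝ, ∑ j : Fin n, g (S.orderEmbOfFin hSc j) = ∑ i, g (T i) - g (T j0) := by
    intro g
    have e1 : ∑ j : Fin n, g (S.orderEmbOfFin hSc j) = ∑ s ∈ S, g s := by
      have e2 : ∑ s ∈ Finset.univ.image (S.orderEmbOfFin hSc), g s =
          ∑ j : Fin n, g (S.orderEmbOfFin hSc j) :=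
        Finset.sum_image fun i _ j _ hij => (S.orderEmbOfFin hSc).injective hij
      rw [← e2, Finset.image_orderEmbOfFin_univ]
    rw [e1, hS, Finset.sum_image (fun i _ j _ hij => hTinj hij),
      ← Finset.add_sum_erase Finset.univ (fun i => g (T i)) (Finset.mem_univ j0)]
    ring
  refine ⟨fun j => S.orderEmbOfFin hSc j, (S.orderEmbOfFin hSc).strictMono, ?_, ?_, ?_⟩
  · intro j
    have hmem : S.orderEmbOfFin hSc j ∈ (Finset.univ.erase j0).image T :=
      Finset.orderEmbOfFin_mem S hSc j
    obtain ⟨i, -, hi⟩ := Finset.mem_image.mp hmem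
    by_contra hcon
    have h0 : T i = 0 := by
      rw [hi]
      simp only at hcon
      omega
    exact hpos i (by rw [hT, h0]; simp)
  · rw [hsum (fun t => (t : ℝ) * (L + t)), hTj0]
    have h1 : ∑ i, (T i : ℝ) * (L + T i) = (HM x w a n).trace := by
      rw [hH.trace_eq_sum_eigenvalues]
      exact Finset.sum_congr rfl fun i _ => (hT i).symm
    rw [h1, HM_trace, dg_sum x w a L hLw, Finset.sum_range]
    ring
  · rw [hsum (fun t => ((t : ℝ) * (L + t)) ^ 2), hTj0]
    have h1 : ∑ i, ((T i : ℝ) * (L + T i)) ^ 2 = (HM x w a n * HM x w a n).trace := by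
      rw [trace_mul_self hH]
      exact Finset.sum_congr rfl fun i _ => by rw [hT i]
    rw [h1, HM_trace_sq x w a n (fun l hl => (hod l hl).le), dg_sq_sum x w a L hLw,
      Finset.sum_range]
    ring

end Pool.Agent.BetaL
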