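import Mathlib
import Pool.Agent.BetaL.Recur

namespace Pool.Agent.BetaL

open Finset

/-- coefficients -/
noncomputable def cc (x a L lam : ℝ) : ℕ → ℝ
  | 0 => 1
  | (j + 1) => -(cc x a L lam j * (lam - j * (j + L)) / ((a + 1 + j) * (x - j)))

lemma choose_cast (l j : ℕ) (hj : j ≤ l + 1) :
    ((l : ℝ) + 1) * (l.choose j : ℝ) = ((l : ℝ) + 1 - j) * ((l + 1).choose j : ℝ) := by
  have h := Nat.choose_mul_succ_eq l j
  have h2 : ((l.choose j * (l + 1) : ℕ) : ℝ) = (((l + 1).choose j * (l + 1 - j) : ℕ) : ℝ) := by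
    rw [h]
  push_cast [Nat.cast_sub hj] at h2
  linarith

/-- the linear identity behind the recursion -/
lemma lin_id (x w a : ℝ) (l : ℕ) (d : ℕ → ℝ) :
    (x - l - 1) * (a + 2 + l) * ∑ j ∈ range (l + 2), ((l + 1).choose j : ℝ) * d j =
      ∑ j ∈ range (l + 2), ((l + 1).choose j : ℝ) * ((a + 1 + j) * (x - j) * d j) -
      (l + 1) * ∑ j ∈ range (l + 2), (l.choose j : ℝ) * ((j + 1 + (w + a + 1 - x)) * d j) +
      (l + 1) * (w - l) * ∑ j ∈ range (l + 2), (l.choose j : ℝ) * d j := by
  rw [Finset.mul_sum, Finset.mul_sum, Finset.mul_sum, ← Finset.sum_sub_distrib,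
    ← Finset.sum_add_distrib]
  refine Finset.sum_congr rfl fun j hj => ?_
  have h := choose_cast l j (by have := Finset.mem_range.mp hj; omega)
  linear_combination (-(d j * ((w - l) - (j + 1 + (w + a + 1 - x))))) * h

lemma sum_range_succ_choose (l : ℕ) (u : ℕ → ℝ) :
    ∑ j ∈ range (l + 2), (l.choose j : ℝ) * u j = ∑ j ∈ range (l + 1), (l.choose j : ℝ) * u j := by
  rw [Finset.sum_range_succ, Nat.choose_eq_zero_of_lt (Nat.lt_succ_self l)]
  simp

/-- Pascal -/
lemma pascal_sum (l : ℕ) (u : ℕ → ℝ) :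
    ∑ j ∈ range (l + 2), ((l + 1).choose j : ℝ) * u j =
      ∑ j ∈ range (l + 1), (l.choose j : ℝ) * u j +
        ∑ j ∈ range (l + 1), (l.choose j : ℝ) * u (j + 1) := by
  rw [Finset.sum_range_succ']
  have h1 : ∑ k ∈ range (l + 1), ((l + 1).choose (k + 1) : ℝ) * u (k + 1) =
      ∑ k ∈ range (l + 1), (l.choose k : ℝ) * u (k + 1) +
        ∑ k ∈ range (l + 1), (l.choose (k + 1) : ℝ) * u (k + 1) := by
    rw [← Finset.sum_add_distrib]
    refine Finset.sum_congr rfl fun k _ => ?_
    rw [Nat.choose_succ_succ]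
    push_cast
    ring
  have h2 : ∑ j ∈ range (l + 1), (l.choose j : ℝ) * u j =
      ∑ k ∈ range (l + 1), (l.choose (k + 1) : ℝ) * u (k + 1) + (l.choose 0 : ℝ) * u 0 := by
    rw [← sum_range_succ_choose, Finset.sum_range_succ']
  rw [h1, h2]
  simp
  ring

/-- absorption -/
lemma absorb_sum (l : ℕ) (u : ℕ → ℝ) :
    ∑ j ∈ range (l + 2), ((l + 1).choose j : ℝ) * (j * u j) =
      (l + 1) * ∑ j ∈ range (l + 1), (l.choose j : ℝ) * u (j + 1) := by
  rw [Finset.sum_range_succ', Finset.mul_sum]
  simp only [Nat.cast_zero, zero_mul, mul_zero, add_zero]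
  refine Finset.sum_congr rfl fun k _ => ?_
  have h := Nat.add_one_mul_choose_eq l k
  have h2 : ((l : ℝ) + 1) * (l.choose k : ℝ) = ((l + 1).choose (k + 1) : ℝ) * (k + 1) := by
    exact_mod_cast h
  push_cast
  linear_combination (-(u (k + 1))) * h2

lemma cc_rel (x a L lam : ℝ) (j : ℕ) (ha : a + 1 + j ≠ 0) (hx : x - j ≠ 0) :
    lam * cc x a L lam j = -((a + 1 + j) * (x - j) * cc x a L lam (j + 1)) +
      j * ((j + L) * cc x a L lam j) := by
  simp only [cc]
  field_simp
  ring

theorem pe_closed {x w a : ℝ} (ha : 0 ≤ a) (lam : ℝ) (l : ℕ) (hl : (l : ℝ) < x) :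
    (pe x w a lam l).1 =
      ∑ j ∈ range (l + 1), (l.choose j : ℝ) * cc x a (w + a + 1 - x) lam j ∧
    (pe x w a lam l).2 =
      -((a + 1 + l) * ∑ j ∈ range (l + 1), (l.choose j : ℝ) *
        cc x a (w + a + 1 - x) lam (j + 1)) := by
  set L := w + a + 1 - x with hL
  induction l with
  | zero =>
    have hx : x ≠ 0 := by
      push_cast at hl; exact hl.ne'
    have ha1 : a + 1 ≠ 0 := by positivity
    simp only [pe, zero_add, Finset.sum_range_one, Nat.choose_self, cc]
    constructor
    · simp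
    · push_cast
      field_simp
      ring
  | succ l ih =>
    push_cast at hl
    obtain ⟨h1, h2⟩ := ih (by linarith)
    have hl0 : (0 : ℝ) ≤ l := by positivity
    have hx1 : x - l - 1 ≠ 0 := by
      have : 0 < x - l - 1 := by linarith
      exact this.ne'
    have ha2 : a + 1 + l ≠ 0 := by positivity
    have hp : (pe x w a lam (l + 1)).1 =
        ∑ j ∈ range (l + 2), ((l + 1).choose j : ℝ) * cc x a L lam j := by
      have e1 : (pe x w a lam (l + 1)).1 =
        (pe x w a lam l).1 - (pe x w a lam l).2 / (a + 1 + l) := by simp only [pe]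
      rw [e1, h1, h2, pascal_sum]
      field_simp
      ring
    refine ⟨hp, ?_⟩
    have e2 : (x - l - 1) * (pe x w a lam (l + 1)).2 = lam * (pe x w a lam (l + 1)).1 +
        (l + 1) * (w - l) / (a + 1 + l) * (pe x w a lam l).2 := by
      simp only [pe]
      field_simp
    have e3 : (l + 1) * (w - l) / (a + 1 + l) * (pe x w a lam l).2 =
        -((l + 1) * (w - l) * ∑ j ∈ range (l + 2), (l.choose j : ℝ) * cc x a L lam (j + 1)) := by
      rw [h2, sum_range_succ_choose]
      field_simp
    have e4 : lam * (pe x w a lam (l + 1)).1 =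
        -(∑ j ∈ range (l + 2), ((l + 1).choose j : ℝ) *
          ((a + 1 + j) * (x - j) * cc x a L lam (j + 1))) +
        (l + 1) * ∑ j ∈ range (l + 2), (l.choose j : ℝ) *
          ((j + 1 + L) * cc x a L lam (j + 1)) := by
      have f1 : (l + 1) * ∑ j ∈ range (l + 2), (l.choose j : ℝ) *
          ((j + 1 + L) * cc x a L lam (j + 1)) =
          ∑ j ∈ range (l + 2), ((l + 1).choose j : ℝ) * (j * ((j + L) * cc x a L lam j)) := by
        rw [absorb_sum l (fun j => (j + L) * cc x a L lam j), sum_range_succ_choose]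
        push_cast
        rfl
      rw [f1, hp, Finset.mul_sum, ← Finset.sum_neg_distrib, ← Finset.sum_add_distrib]
      refine Finset.sum_congr rfl fun j hj => ?_
      have hjl : (j : ℝ) ≤ l + 1 := by
        have := Finset.mem_range.mp hj
        exact_mod_cast (by omega : j ≤ l + 1)
      have hj0 : (0 : ℝ) ≤ j := by positivity
      have hxj : x - j ≠ 0 := by
        have : 0 < x - j := by linarith
        exact this.ne'
      have := cc_rel x a L lam j (by positivity) hxj
      linear_combination ((l + 1).choose j : ℝ) * this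
    have e5 := lin_id x w a l (fun j => cc x a L lam (j + 1))
    rw [← hL] at e5
    have e6 : (x - l - 1) * (pe x w a lam (l + 1)).2 = (x - l - 1) *
        (-((a + 2 + l) * ∑ j ∈ range (l + 2), ((l + 1).choose j : ℝ) *
          cc x a L lam (j + 1))) := by
      rw [e2, e3, e4]
      linarith
    have e7 := mul_left_cancel₀ hx1 e6
    rw [e7]
    push_cast
    ring

/-- second coefficients -/
noncomputable def dd (x a L lam : ℝ) : ℕ → ℝ
  | 0 => 1
  | (j + 1) => -(dd x a L lam j * (lam - j * (j + L)) / ((a + 1 + j) * (x - 1 - j)))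

lemma cc_dd (x a L lam : ℝ) (ha : 0 ≤ a) (j : ℕ) (hj : (j : ℝ) < x) :
    x * cc x a L lam j = (x - j) * dd x a L lam j := by
  induction j with
  | zero => simp [cc, dd]
  | succ j ih =>
    push_cast at hj
    have h1 := ih (by linarith)
    have hj0 : (0 : ℝ) ≤ j := by positivity
    have hx1 : x - 1 - j ≠ 0 := by
      have : 0 < x - 1 - j := by linarith
      exact this.ne'
    have hx2 : x - j ≠ 0 := by
      have : 0 < x - j := by linarith
      exact this.ne'
    have ha2 : a + 1 + j ≠ 0 := by positivity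
    simp only [cc, dd]
    push_cast
    field_simp
    linear_combination (-(lam - j * (j + L)) * (x - 1 - j)) * h1

/-- the Lloyd polynomial -/
noncomputable def Ps (n : ℕ) (x a L lam : ℝ) : ℝ :=
  ∑ j ∈ range (n + 1), (n.choose j : ℝ) * dd x a L lam j

theorem G_eq_Ps {x w a : ℝ} (ha : 0 ≤ a) (lam : ℝ) (n : ℕ) (hn : (n : ℝ) + 1 < x) :
    x * G x w a n lam = (x * (w + a + 1) - lam) * Ps n x a (w + a + 1 - x) lam := by
  obtain ⟨h1, h2⟩ := pe_closed (w := w) ha lam n (by linarith)
  set L := w + a + 1 - x with hL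
  rw [G, h1, h2, Ps]
  have e1 : (x * (w + a + 1) - lam) * ∑ j ∈ range (n + 1), (n.choose j : ℝ) * dd x a L lam j =
      ∑ j ∈ range (n + 1), (n.choose j : ℝ) *
        (x * ((w + a + 1 + j) * cc x a L lam j + (a + 1 + j) * cc x a L lam (j + 1))) := by
    rw [Finset.mul_sum]
    refine Finset.sum_congr rfl fun j hj => ?_
    have hjn : (j : ℝ) ≤ n := by
      have := Finset.mem_range.mp hj
      exact_mod_cast (by omega : j ≤ n)
    have hj0 : (0 : ℝ) ≤ j := by positivity
    have c1 := cc_dd x a L lam ha j (by linarith)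
    have c2 := cc_dd x a L lam ha (j + 1) (by push_cast; linarith)
    have hx1 : x - 1 - j ≠ 0 := by
      have : 0 < x - 1 - j := by linarith
      exact this.ne'
    have ha2 : a + 1 + j ≠ 0 := by positivity
    have c3 : (a + 1 + j) * (x - 1 - j) * dd x a L lam (j + 1) =
        -(dd x a L lam j * (lam - j * (j + L))) := by
      simp only [dd]
      field_simp
    push_cast at c2
    have c4 : (x - (j + 1)) = x - 1 - j := by ring
    rw [c4] at c2
    have c5 : x * ((w + a + 1 + j) * cc x a L lam j + (a + 1 + j) * cc x a L lam (j + 1)) =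
        (w + a + 1 + j) * ((x - j) * dd x a L lam j) +
          (a + 1 + j) * ((x - 1 - j) * dd x a L lam (j + 1)) := by
      rw [← c1, ← c2]; ring
    rw [c5]
    have c6 : (a + 1 + j) * ((x - 1 - j) * dd x a L lam (j + 1)) =
        -(dd x a L lam j * (lam - j * (j + L))) := by
      rw [← c3]; ring
    rw [c6, hL]
    ring
  rw [e1]
  have e2 : ∑ j ∈ range (n + 1), (n.choose j : ℝ) * ((n - j) * cc x a L lam (j + 1)) =
      ∑ j ∈ range (n + 1), (n.choose j : ℝ) * (j * cc x a L lam j) := by
    rcases Nat.eq_zero_or_pos n with h0 | h0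
    · subst h0; simp
    · obtain ⟨m, rfl⟩ : ∃ m, n = m + 1 := ⟨n - 1, by omega⟩
      rw [absorb_sum m, Finset.mul_sum, Finset.sum_range_succ]
      push_cast
      simp only [sub_self, zero_mul, mul_zero, add_zero]
      refine Finset.sum_congr rfl fun j hj => ?_
      have h := choose_cast m j (by have := Finset.mem_range.mp hj; omega)
      linear_combination (-(cc x a L lam (j + 1))) * h
  have e3 : x * ((w + a + 1) * ∑ j ∈ range (n + 1), (n.choose j : ℝ) * cc x a L lam j -
      -((a + 1 + n) * ∑ j ∈ range (n + 1), (n.choose j : ℝ) * cc x a L lam (j + 1))) -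
      ∑ j ∈ range (n + 1), (n.choose j : ℝ) *
        (x * ((w + a + 1 + j) * cc x a L lam j + (a + 1 + j) * cc x a L lam (j + 1))) =
      x * (∑ j ∈ range (n + 1), (n.choose j : ℝ) * ((n - j) * cc x a L lam (j + 1)) -
        ∑ j ∈ range (n + 1), (n.choose j : ℝ) * (j * cc x a L lam j)) := by
    rw [Finset.mul_sum, Finset.mul_sum, sub_neg_eq_add, ← Finset.sum_add_distrib, Finset.mul_sum,
      ← Finset.sum_sub_distrib, ← Finset.sum_sub_distrib, Finset.mul_sum]
    refine Finset.sum_congr rfl fun j _ => ?_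
    ring
  rw [e2, sub_self, mul_zero] at e3
  linarith

/-- explicit form at an integer point -/
lemma Ps_int (n T : ℕ) (x a L : ℝ) :
    Ps n x a L (T * (L + T)) = ∑ j ∈ range (n + 1), (-1) ^ j * (T.choose j : ℝ) *
      ∏ r ∈ range j, ((n - r) * (T + L + r) / ((a + 1 + r) * (x - 1 - r))) := by
  unfold Ps
  refine Finset.sum_congr rfl fun j hj' => ?_
  clear hj'
  have key : dd x a L (T * (L + T)) j * (j.factorial : ℝ) = (-1) ^ j * (T.choose j : ℝ) *
      (j.factorial : ℝ) * (j.factorial : ℝ) *
      ∏ r ∈ range j, ((T + L + r) / ((a + 1 + r) * (x - 1 - r))) := by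
    induction j with
    | zero => simp [dd]
    | succ j ih =>
      rw [Finset.prod_range_succ, Nat.factorial_succ]
      have h1 : ((T.choose (j + 1) : ℝ)) * (j + 1) = (T.choose j : ℝ) * (T - j) := by
        rcases le_or_gt j T with h | h
        · have := Nat.choose_succ_right_eq T j
          have h2 : ((T.choose (j + 1) * (j + 1) : ℕ) : ℝ) = ((T.choose j * (T - j) : ℕ) : ℝ) := by
            rw [this]
          push_cast [Nat.cast_sub h] at h2
          exact h2
        · rw [Nat.choose_eq_zero_of_lt h, Nat.choose_eq_zero_of_lt (by omega)]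
          simp
      simp only [dd]
      push_cast
      have h3 : (T : ℝ) * (L + T) - j * (j + L) = (T - j) * (T + L + j) := by ring
      rw [h3]
      have e1 : -(dd x a L (T * (L + T)) j * ((T - j) * (T + L + j)) /
          ((a + 1 + j) * (x - 1 - j))) * ((j + 1) * (j.factorial : ℝ)) =
          -((dd x a L (T * (L + T)) j * (j.factorial : ℝ)) * (T - j) * (j + 1) *
            ((T + L + j) / ((a + 1 + j) * (x - 1 - j)))) := by ring
      rw [e1, ih]
      have e2 : (-1) ^ (j + 1) * (T.choose (j + 1) : ℝ) * ((j + 1) * (j.factorial : ℝ)) *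
          ((j + 1) * (j.factorial : ℝ)) *
          ((∏ r ∈ range j, ((T + L + r) / ((a + 1 + r) * (x - 1 - r)))) *
            ((T + L + j) / ((a + 1 + j) * (x - 1 - j)))) =
          (-1) ^ (j + 1) * ((T.choose (j + 1) : ℝ) * (j + 1)) * (j.factorial : ℝ) *
          ((j + 1) * (j.factorial : ℝ)) *
          ((∏ r ∈ range j, ((T + L + r) / ((a + 1 + r) * (x - 1 - r)))) *
            ((T + L + j) / ((a + 1 + j) * (x - 1 - j)))) := by ring
      rw [e2, h1]
      ring
  have hf : (j.factorial : ℝ) ≠ 0 := by exact_mod_cast Nat.factorial_ne_zero j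
  have h4 : dd x a L (T * (L + T)) j = (-1) ^ j * (T.choose j : ℝ) *
      (j.factorial : ℝ) * ∏ r ∈ range j, ((T + L + r) / ((a + 1 + r) * (x - 1 - r))) := by
    apply mul_right_cancel₀ hf
    rw [key]; ring
  have h5 : (n.choose j : ℝ) * (j.factorial : ℝ) = ∏ r ∈ range j, ((n : ℝ) - r) := by
    clear key h4 hf
    induction j with
    | zero => simp
    | succ j ih =>
      rw [Finset.prod_range_succ, ← ih, Nat.factorial_succ]
      have h1 : ((n.choose (j + 1) : ℝ)) * (j + 1) = (n.choose j : ℝ) * (n - j) := by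
        rcases le_or_gt j n with h | h
        · have := Nat.choose_succ_right_eq n j
          have h2 : ((n.choose (j + 1) * (j + 1) : ℕ) : ℝ) = ((n.choose j * (n - j) : ℕ) : ℝ) := by
            rw [this]
          push_cast [Nat.cast_sub h] at h2
          exact h2
        · rw [Nat.choose_eq_zero_of_lt h, Nat.choose_eq_zero_of_lt (by omega)]
          simp
      push_cast
      linear_combination (j.factorial : ℝ) * h1
  rw [h4]
  have h6 : ∏ r ∈ range j, (((n : ℝ) - r) * (T + L + r) / ((a + 1 + r) * (x - 1 - r))) =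
      (∏ r ∈ range j, ((n : ℝ) - r)) *
        ∏ r ∈ range j, ((T + L + r) / ((a + 1 + r) * (x - 1 - r))) := by
    rw [← Finset.prod_mul_distrib]
    refine Finset.prod_congr rfl fun r _ => ?_
    ring
  rw [h6, ← h5]
  ring

end Pool.Agent.BetaL
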