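import Mathlib
import Pool.Agent.BetaL.Closed

namespace Pool.Agent.BetaL

open Finset Pool.Agent.MP_1e96f1_co

variable {Ω : Type*} [Fintype Ω] [DecidableEq Ω]

/-- The quadratic bound. -/
theorem quad_bound {Bs : Finset (Finset Ω)} {v d n A : ℕ}
    (hD : IsDesign Bs v (d + 2 * n + 1 + A) d) (hB : IsBeta Bs v d (n + 1)) (hn : 1 ≤ n)
    (hv : 2 * (d + 2 * n + 1) ≤ v + 1) :
    (n * v = (d + 2 * n) * (2 * n + 1 + A) ∧ IsBeta Bs v d n) ∨
    0 ≤ ((A : ℝ) + 1) * (A + 2) * (d + 2 * n) * (d + 2 * n - 1) -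
      2 * n * (A + 2) * (d + 2 * n - 1) * (v - 2 * (d + 2 * n) + 1) +
      n * (n - 1) * (v - 2 * (d + 2 * n) + 1) * (v - 2 * (d + 2 * n) + 2) := by
  obtain ⟨k, hkdef⟩ : ∃ k, k = d + 2 * n + 1 + A := ⟨_, rfl⟩
  rw [← hkdef] at hD
  obtain ⟨hdk, hkv⟩ := design_facts hD
  have hup := noda_upper hD hB (by omega) (by omega)
  have hkd : k - d = 2 * n + 1 + A := by omega
  rw [hkd] at hup
  by_cases heq : n * v = (d + 2 * n) * (2 * n + 1 + A)
  · left
    exact ⟨heq, beta_pred_of_eq hD hB (by omega) (by omega) (by rw [hkd]; exact heq)⟩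
  right
  by_contra hQ
  push Not at hQ
  have hlt : n * v < (d + 2 * n) * (2 * n + 1 + A) := lt_of_le_of_ne hup heq
  set x : ℝ := ((d + 2 * n + 1 : ℕ) : ℝ) with hx
  set a : ℝ := (k : ℝ) - x with ha
  set w : ℝ := (v : ℝ) - k with hw
  have haA : a = A := by
    rw [ha, hx, hkdef]; push_cast; ring
  have ha0 : 0 ≤ a := by rw [haA]; positivity
  have hxd : x = d + 2 * n + 1 := by rw [hx]; push_cast; ring
  have hn1 : (1 : ℝ) ≤ n := by exact_mod_cast hn
  have hd0 : (0 : ℝ) ≤ d := by positivity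
  have hvw : (v : ℝ) = x + a + w := by rw [ha, hw]; ring
  have hlt' : (n : ℝ) * v < (d + 2 * n) * (2 * n + 1 + a) := by
    rw [haA]
    exact_mod_cast hlt
  have hv2 : 2 * x ≤ v + 1 := by
    rw [hx]; exact_mod_cast hv
  have hwx : w + a + 2 - x = v - 2 * x + 2 := by rw [hvw]; ring
  have e2 : n * (w + a + 2) < x * (a + 1 + n) - (a + 1) := by
    have hd' : (d : ℝ) = x - 2 * n - 1 := by rw [hxd]; ring
    rw [hvw, hd'] at hlt'
    linarith
  have hxn : (n : ℝ) < x := by rw [hxd]; linarith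
  have hw0 : 0 ≤ w := by
    have : k ≤ v := by omega
    have : (k : ℝ) ≤ v := by exact_mod_cast this
    rw [hw]; linarith
  have hx1 : 1 < x := by rw [hxd]; linarith
  have g1 := G_one (w := w) ha0 n hxn
  have g2 := G_two (w := w) ha0 hx1 n hxn
  have hG1 : 0 < G x w a n (w + a + 2 - x) := by
    have : 0 < G x w a n (w + a + 2 - x) * (x * (a + 1)) := by
      rw [g1]
      apply mul_pos (by linarith)
      linarith
    exact pos_of_mul_pos_left this (by positivity)
  have hG2 : G x w a n (2 * (w + a + 3 - x)) < 0 := by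
    have hd' : (d : ℝ) = x - 2 * n - 1 := by rw [hxd]; ring
    have : G x w a n (2 * (w + a + 3 - x)) * ((a + 1) * (a + 2) * x * (x - 1)) < 0 := by
      rw [g2]
      apply mul_neg_of_pos_of_neg (by linarith)
      refine lt_of_eq_of_lt ?_ hQ
      rw [← haA, hvw, hd']
      ring
    by_contra hcon
    push Not at hcon
    have h3 : 0 ≤ (a + 1) * (a + 2) * x * (x - 1) := by
      apply mul_nonneg (by positivity); linarith
    have := mul_nonneg hcon h3
    linarith
  refine no_sign_change hD hB hn (by omega) (x := x) (a := a) (w := w) hx ha hw hv2 1 ?_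
  have h1 : ((1 : ℕ) : ℝ) * ((v : ℝ) - 2 * x + 1 + (1 : ℕ)) = w + a + 2 - x := by
    rw [hvw]; push_cast; ring
  have h2 : ((1 + 1 : ℕ) : ℝ) * ((v : ℝ) - 2 * x + 1 + (1 + 1 : ℕ)) = 2 * (w + a + 3 - x) := by
    rw [hvw]; push_cast; ring
  rw [h1, h2]
  exact mul_neg_of_pos_of_neg hG1 hG2

/-- product form of the coefficients -/
lemma dd_prod (x a L t : ℝ) (n j : ℕ) :
    (n.choose j : ℝ) * dd x a L (t * (L + t)) j = (-1) ^ j *
      ∏ r ∈ range j, (((n : ℝ) - r) * (t - r) * (t + L + r) /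
        ((r + 1) * (a + 1 + r) * (x - 1 - r))) := by
  induction j with
  | zero => simp [dd]
  | succ j ih =>
    rw [Finset.prod_range_succ]
    have h1 : (n.choose (j + 1) : ℝ) = (n.choose j : ℝ) * (n - j) / (j + 1) := by
      have hj : ((j : ℝ) + 1) ≠ 0 := by positivity
      rw [eq_div_iff hj]
      rcases le_or_gt j n with h | h
      · have := Nat.choose_succ_right_eq n j
        have h2 : ((n.choose (j + 1) * (j + 1) : ℕ) : ℝ) = ((n.choose j * (n - j) : ℕ) : ℝ) := by
          rw [this]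
        push_cast [Nat.cast_sub h] at h2
        exact h2
      · rw [Nat.choose_eq_zero_of_lt h, Nat.choose_eq_zero_of_lt (by omega)]
        simp
    simp only [dd]
    rw [h1]
    have h3 : t * (L + t) - j * (j + L) = (t - j) * (t + L + j) := by ring
    rw [h3]
    have e1 : (n.choose j : ℝ) * (n - j) / (j + 1) *
        -(dd x a L (t * (L + t)) j * ((t - j) * (t + L + j)) / ((a + 1 + j) * (x - 1 - j))) =
        -(((n.choose j : ℝ) * dd x a L (t * (L + t)) j) *
          (((n : ℝ) - j) * (t - j) * (t + L + j) / ((j + 1) * (a + 1 + j) * (x - 1 - j)))) := by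
      simp only [div_eq_mul_inv, mul_inv]
      ring
    rw [e1, ih]
    ring

/-- Lloyd's theorem -/
theorem lloyd_zero {Bs : Finset (Finset Ω)} {v d n A : ℕ}
    (hD : IsDesign Bs v (d + 2 * n + 1 + A) d) (hB : IsBeta Bs v d (n + 1)) (hn : 1 ≤ n)
    (hv : 2 * (d + 2 * n + 1) ≤ v + 1) {t : ℝ} (ht : 0 ≤ t)
    (hz : ∑ j ∈ range (n + 1), (-1) ^ j * ∏ r ∈ range j,
      (((n : ℝ) - r) * (t - r) * (t + (v - 2 * (d + 2 * n) - 1) + r) /
        ((r + 1) * (A + 1 + r) * (d + 2 * n - r))) = 0) :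
    ∃ m : ℕ, t = m := by
  set x : ℝ := ((d + 2 * n + 1 : ℕ) : ℝ) with hx
  set L : ℝ := (v : ℝ) - 2 * x + 1 with hL
  have hxd : x = d + 2 * n + 1 := by rw [hx]; push_cast; ring
  have hn1 : (1 : ℝ) ≤ n := by exact_mod_cast hn
  have hd0 : (0 : ℝ) ≤ d := by positivity
  have hL0 : 0 ≤ L := by
    have : 2 * x ≤ v + 1 := by rw [hx]; exact_mod_cast hv
    rw [hL]; linarith
  set w : ℝ := (v : ℝ) - (d + 2 * n + 1 + A : ℕ) with hw
  have hLw : w + A + 1 - x = L := by
    rw [hL, hw, hxd]; push_cast; ring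
  have hP : Ps n x A L (t * (L + t)) = 0 := by
    rw [← hz]
    unfold Ps
    refine Finset.sum_congr rfl fun j _ => ?_
    rw [dd_prod]
    congr 1
    refine Finset.prod_congr rfl fun r _ => ?_
    have e1 : (v : ℝ) - 2 * (d + 2 * n) - 1 = L := by rw [hL, hxd]; ring
    have e2 : (d : ℝ) + 2 * n - r = x - 1 - r := by rw [hxd]; ring
    rw [e1, e2]
  have hG := G_eq_Ps (x := x) (w := w) (a := (A : ℝ)) (by positivity) (t * (L + t)) n
    (by rw [hxd]; linarith)
  rw [hLw, hP, mul_zero] at hG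
  have hG0 : G x w A n (t * (L + t)) = 0 := by
    rcases mul_eq_zero.mp hG with h | h
    · exfalso
      have : 0 < x := by rw [hxd]; positivity
      linarith
    · exact h
  obtain ⟨m, hm⟩ := zero_int hD hB hn (by omega) (x := x) (a := (A : ℝ)) (w := w) hx
    (by rw [hxd]; push_cast; ring) hw hG0
  refine ⟨m, ?_⟩
  rw [← hL] at hm
  have hm0 : (0 : ℝ) ≤ m := by positivity
  have h1 : (t - m) * (t + m + L) = 0 := by linarith
  rcases mul_eq_zero.mp h1 with h | h
  · linarith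
  · linarith

end Pool.Agent.BetaL
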