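import Mathlib

namespace Pool.Agent.BetaL

lemma convex_neg {c b e y yl yh : ℝ} (hc : 0 ≤ c) (h1 : yl ≤ y) (h2 : y ≤ yh)
    (hl : c * yl ^ 2 + b * yl + e < 0) (hh : c * yh ^ 2 + b * yh + e < 0) :
    c * y ^ 2 + b * y + e < 0 := by
  rcases eq_or_lt_of_le (h1.trans h2) with h | h
  · have : y = yl := le_antisymm (by rw [h]; exact h2) h1
    rw [this]; exact hl
  · by_contra hcon
    push Not at hcon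
    have key : (yh - yl) * (c * y ^ 2 + b * y + e) = (yh - y) * (c * yl ^ 2 + b * yl + e) +
        (y - yl) * (c * yh ^ 2 + b * yh + e) - c * ((y - yl) * (yh - y) * (yh - yl)) := by ring
    have k1 : 0 ≤ (yh - yl) * (c * y ^ 2 + b * y + e) := mul_nonneg (by linarith) hcon
    have k2 : 0 ≤ c * ((y - yl) * (yh - y) * (yh - yl)) :=
      mul_nonneg hc (mul_nonneg (mul_nonneg (by linarith) (by linarith)) (by linarith))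
    have k3 : (yh - y) * (c * yl ^ 2 + b * yl + e) ≤ 0 :=
      mul_nonpos_of_nonneg_of_nonpos (by linarith) hl.le
    have k4 : (y - yl) * (c * yh ^ 2 + b * yh + e) ≤ 0 :=
      mul_nonpos_of_nonneg_of_nonpos (by linarith) hh.le
    rcases eq_or_lt_of_le h1 with h5 | h5
    · rw [h5] at hl; linarith
    · have k5 : (y - yl) * (c * yh ^ 2 + b * yh + e) < 0 :=
        mul_neg_of_pos_of_neg (by linarith) hh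
      linarith


lemma lo_16_3 {A s Z : ℝ} (hA : 16 ≤ A) (hs : 3 ≤ s) (hZ : 2 * s - 1 ≤ Z) :
    s * s * A * (A + 1) * Z * (Z - 1) - 2 * (s - 1) * (A + 1) * (Z - 1) * s *
      (5 * s + (Z + 2) * (A - 2)) + (s - 1) * (s - 2) * (5 * s + (Z + 2) * (A - 2)) *
      (6 * s + (Z + 2) * (A - 2)) < 0 := by
  obtain ⟨α, hα, rfl⟩ : ∃ α : ℝ, 0 ≤ α ∧ A = α + 16 := ⟨A - 16, by linarith, by ring⟩
  obtain ⟨σ, hσ, rfl⟩ : ∃ σ : ℝ, 0 ≤ σ ∧ s = σ + 3 := ⟨s - 3, by linarith, by ring⟩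
  obtain ⟨ζ, hζ, rfl⟩ : ∃ ζ : ℝ, 0 ≤ ζ ∧ Z = 2 * (σ + 3) - 1 + ζ :=
    ⟨Z - (2 * (σ + 3) - 1), by linarith, by ring⟩
  rw [← neg_pos]
  have : 0 < 2*α^2*σ^3 + 3*α^2*σ^2*ζ + 19*α^2*σ^2 + 1*α^2*σ*ζ^2 + 18*α^2*σ*ζ + 59*α^2*σ + 1*α^2*ζ^2 +
      23*α^2*ζ + 58*α^2 + 2*α*σ^4 + 3*α*σ^3*ζ + 89*α*σ^3 + 1*α*σ^2*ζ^2 + 119*α*σ^2*ζ + 720*α*σ^2
      + 28*α*σ*ζ^2 + 617*α*σ*ζ + 2095*α*σ + 19*α*ζ^2 + 749*α*ζ + 1990*α + 34*σ^4 + 48*σ^3*ζ +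
      932*σ^3 + 8*σ^2*ζ^2 + 1120*σ^2*ζ + 6722*σ^2 + 160*σ*ζ^2 + 5200*σ*ζ + 18504*σ + 16*ζ^2 +
      6032*ζ + 17032 := by positivity
  refine lt_of_lt_of_eq this ?_
  ring


lemma lo_12_4 {A s Z : ℝ} (hA : 12 ≤ A) (hs : 4 ≤ s) (hZ : 2 * s - 1 ≤ Z) :
    s * s * A * (A + 1) * Z * (Z - 1) - 2 * (s - 1) * (A + 1) * (Z - 1) * s *
      (5 * s + (Z + 2) * (A - 2)) + (s - 1) * (s - 2) * (5 * s + (Z + 2) * (A - 2)) *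
      (6 * s + (Z + 2) * (A - 2)) < 0 := by
  obtain ⟨α, hα, rfl⟩ : ∃ α : ℝ, 0 ≤ α ∧ A = α + 12 := ⟨A - 12, by linarith, by ring⟩
  obtain ⟨σ, hσ, rfl⟩ : ∃ σ : ℝ, 0 ≤ σ ∧ s = σ + 4 := ⟨s - 4, by linarith, by ring⟩
  obtain ⟨ζ, hζ, rfl⟩ : ∃ ζ : ℝ, 0 ≤ ζ ∧ Z = 2 * (σ + 4) - 1 + ζ :=
    ⟨Z - (2 * (σ + 4) - 1), by linarith, by ring⟩
  rw [← neg_pos]
  have : 0 < 2*α^2*σ^3 + 3*α^2*σ^2*ζ + 25*α^2*σ^2 + 1*α^2*σ*ζ^2 + 24*α^2*σ*ζ + 103*α^2*σ + 2*α^2*ζ^2 +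
      44*α^2*ζ + 138*α^2 + 2*α*σ^4 + 3*α*σ^3*ζ + 81*α*σ^3 + 1*α*σ^2*ζ^2 + 104*α*σ^2*ζ +
      799*α*σ^2 + 22*α*σ*ζ^2 + 672*α*σ*ζ + 2986*α*σ + 32*α*ζ^2 + 1136*α*ζ + 3792*α + 26*σ^4 +
      36*σ^3*ζ + 712*σ^3 + 4*σ^2*ζ^2 + 800*σ^2*ζ + 6126*σ^2 + 72*σ*ζ^2 + 4512*σ*ζ + 21288*σ +
      24*ζ^2 + 7152*ζ + 25848 := by positivity
  refine lt_of_lt_of_eq this ?_
  ring


lemma lo_10_5 {A s Z : ℝ} (hA : 10 ≤ A) (hs : 5 ≤ s) (hZ : 2 * s - 1 ≤ Z) :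
    s * s * A * (A + 1) * Z * (Z - 1) - 2 * (s - 1) * (A + 1) * (Z - 1) * s *
      (5 * s + (Z + 2) * (A - 2)) + (s - 1) * (s - 2) * (5 * s + (Z + 2) * (A - 2)) *
      (6 * s + (Z + 2) * (A - 2)) < 0 := by
  obtain ⟨α, hα, rfl⟩ : ∃ α : ℝ, 0 ≤ α ∧ A = α + 10 := ⟨A - 10, by linarith, by ring⟩
  obtain ⟨σ, hσ, rfl⟩ : ∃ σ : ℝ, 0 ≤ σ ∧ s = σ + 5 := ⟨s - 5, by linarith, by ring⟩
  obtain ⟨ζ, hζ, rfl⟩ : ∃ ζ : ℝ, 0 ≤ ζ ∧ Z = 2 * (σ + 5) - 1 + ζ :=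
    ⟨Z - (2 * (σ + 5) - 1), by linarith, by ring⟩
  rw [← neg_pos]
  have : 0 < 2*α^2*σ^3 + 3*α^2*σ^2*ζ + 31*α^2*σ^2 + 1*α^2*σ*ζ^2 + 30*α^2*σ*ζ + 159*α^2*σ + 3*α^2*ζ^2 +
      71*α^2*ζ + 268*α^2 + 2*α*σ^4 + 3*α*σ^3*ζ + 81*α*σ^3 + 1*α*σ^2*ζ^2 + 101*α*σ^2*ζ +
      930*α*σ^2 + 20*α*σ*ζ^2 + 769*α*σ*ζ + 4199*α*σ + 43*α*ζ^2 + 1631*α*ζ + 6588*α + 22*σ^4 +
      30*σ^3*ζ + 646*σ^3 + 2*σ^2*ζ^2 + 694*σ^2*ζ + 6434*σ^2 + 36*σ*ζ^2 + 4562*σ*ζ + 26746*σ +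
      2*ζ^2 + 8954*ζ + 39752 := by positivity
  refine lt_of_lt_of_eq this ?_
  ring


lemma lo_9_7 {A s Z : ℝ} (hA : 9 ≤ A) (hs : 7 ≤ s) (hZ : 2 * s - 1 ≤ Z) :
    s * s * A * (A + 1) * Z * (Z - 1) - 2 * (s - 1) * (A + 1) * (Z - 1) * s *
      (5 * s + (Z + 2) * (A - 2)) + (s - 1) * (s - 2) * (5 * s + (Z + 2) * (A - 2)) *
      (6 * s + (Z + 2) * (A - 2)) < 0 := by
  obtain ⟨α, hα, rfl⟩ : ∃ α : ℝ, 0 ≤ α ∧ A = α + 9 := ⟨A - 9, by linarith, by ring⟩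
  obtain ⟨σ, hσ, rfl⟩ : ∃ σ : ℝ, 0 ≤ σ ∧ s = σ + 7 := ⟨s - 7, by linarith, by ring⟩
  obtain ⟨ζ, hζ, rfl⟩ : ∃ ζ : ℝ, 0 ≤ ζ ∧ Z = 2 * (σ + 7) - 1 + ζ :=
    ⟨Z - (2 * (σ + 7) - 1), by linarith, by ring⟩
  rw [← neg_pos]
  have : 0 < 2*α^2*σ^3 + 3*α^2*σ^2*ζ + 43*α^2*σ^2 + 1*α^2*σ*ζ^2 + 42*α^2*σ*ζ + 307*α^2*σ + 5*α^2*ζ^2 +
      143*α^2*ζ + 726*α^2 + 2*α*σ^4 + 3*α*σ^3*ζ + 93*α*σ^3 + 1*α*σ^2*ζ^2 + 113*α*σ^2*ζ +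
      1378*α*σ^2 + 22*α*σ*ζ^2 + 1125*α*σ*ζ + 8341*α*σ + 77*α*ζ^2 + 3311*α*ζ + 17934*α + 20*σ^4 +
      27*σ^3*ζ + 727*σ^3 + 1*σ^2*ζ^2 + 758*σ^2*ζ + 9417*σ^2 + 21*σ*ζ^2 + 6531*σ*ζ + 52290*σ +
      17640*ζ + 105840 := by positivity
  refine lt_of_lt_of_eq this ?_
  ring


lemma hi_neg {A n Z : ℝ} (hA : 1 ≤ A) (hn : 1 ≤ n) (hZ : 2 * n + 1 ≤ Z) :
    n * A * (A + 1) * Z * (Z - 1) - 2 * n * (A + 1) * (n + A * Z) * (Z - 1) +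
      (n - 1) * (n + A * Z) * (2 * n + A * Z) < 0 := by
  obtain ⟨α, hα, rfl⟩ : ∃ α : ℝ, 0 ≤ α ∧ A = α + 1 := ⟨A - 1, by linarith, by ring⟩
  obtain ⟨σ, hσ, rfl⟩ : ∃ σ : ℝ, 0 ≤ σ ∧ n = σ + 1 := ⟨n - 1, by linarith, by ring⟩
  obtain ⟨ζ, hζ, rfl⟩ : ∃ ζ : ℝ, 0 ≤ ζ ∧ Z = 2 * (σ + 1) + 1 + ζ :=
    ⟨Z - (2 * (σ + 1) + 1), by linarith, by ring⟩
  rw [← neg_pos]
  have : 0 < 2*α^2*σ^2 + 3*α^2*σ*ζ + 7*α^2*σ + 1*α^2*ζ^2 + 5*α^2*ζ + 6*α^2 + 2*α*σ^3 + 3*α*σ^2*ζ +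
      15*α*σ^2 + 1*α*σ*ζ^2 + 16*α*σ*ζ + 33*α*σ + 3*α*ζ^2 + 17*α*ζ + 22*α + 4*σ^3 + 5*σ^2*ζ +
      21*σ^2 + 1*σ*ζ^2 + 17*σ*ζ + 36*σ + 2*ζ^2 + 14*ζ + 20 := by positivity
  refine lt_of_lt_of_eq this ?_
  ring


/-- the threshold region -/
def Thr (n a : ℝ) : Prop :=
  (2 ≤ n ∧ 15 ≤ a) ∨ (3 ≤ n ∧ 11 ≤ a) ∨ (4 ≤ n ∧ 9 ≤ a) ∨ (6 ≤ n ∧ 8 ≤ a)

lemma Q2_neg {n a x y : ℝ} (ht : Thr n a) (hx : 2 * n + 2 ≤ x)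
    (hlo : (x + 1) * (a - 1) ≤ (n + 1) * (y - 5)) (hhi : n * (y - 1) ≤ (x - 1) * (a + 1)) :
    (a + 1) * (a + 2) * (x - 1) * (x - 2) - 2 * n * (a + 2) * y * (x - 2) +
      n * (n - 1) * y * (y + 1) < 0 := by
  have hn2 : 2 ≤ n := by
    rcases ht with h | h | h | h <;> linarith [h.1]
  have ha8 : 8 ≤ a := by
    rcases ht with h | h | h | h <;> linarith [h.2]
  set yl : ℝ := 5 + (x + 1) * (a - 1) / (n + 1) with hyl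
  set yh : ℝ := 1 + (x - 1) * (a + 1) / n with hyh
  have hn0 : n ≠ 0 := by positivity
  have hn1 : n + 1 ≠ 0 := by positivity
  have h1 : yl ≤ y := by
    have : (x + 1) * (a - 1) / (n + 1) ≤ y - 5 := by
      rw [div_le_iff₀ (by positivity)]; linarith
    rw [hyl]; linarith
  have h2 : y ≤ yh := by
    have : y - 1 ≤ (x - 1) * (a + 1) / n := by
      rw [le_div_iff₀ (by positivity)]; linarith
    rw [hyh]; linarith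
  have key := convex_neg (c := n * (n - 1)) (b := n * (n - 1) - 2 * n * (a + 2) * (x - 2))
    (e := (a + 1) * (a + 2) * (x - 1) * (x - 2)) (y := y) (yl := yl) (yh := yh)
    (by nlinarith) h1 h2 ?_ ?_
  · refine lt_of_eq_of_lt ?_ key
    ring
  · have hlow : (n + 1) * (n + 1) * (a + 1) * (a + 1 + 1) * (x - 1) * (x - 1 - 1) -
        2 * (n + 1 - 1) * (a + 1 + 1) * (x - 1 - 1) * (n + 1) *
        (5 * (n + 1) + (x - 1 + 2) * (a + 1 - 2)) + (n + 1 - 1) * (n + 1 - 2) *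
        (5 * (n + 1) + (x - 1 + 2) * (a + 1 - 2)) *
        (6 * (n + 1) + (x - 1 + 2) * (a + 1 - 2)) < 0 := by
      rcases ht with h | h | h | h
      · exact lo_16_3 (by linarith [h.2]) (by linarith [h.1]) (by linarith)
      · exact lo_12_4 (by linarith [h.2]) (by linarith [h.1]) (by linarith)
      · exact lo_10_5 (by linarith [h.2]) (by linarith [h.1]) (by linarith)
      · exact lo_9_7 (by linarith [h.2]) (by linarith [h.1]) (by linarith)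
    have hpos : 0 < (n + 1) ^ 2 := by positivity
    by_contra hcon
    push Not at hcon
    have h3 := mul_nonneg hpos.le hcon
    have h4 : (n + 1) ^ 2 * (n * (n - 1) * yl ^ 2 + (n * (n - 1) - 2 * n * (a + 2) * (x - 2)) * yl +
        (a + 1) * (a + 2) * (x - 1) * (x - 2)) =
        (n + 1) * (n + 1) * (a + 1) * (a + 1 + 1) * (x - 1) * (x - 1 - 1) -
        2 * (n + 1 - 1) * (a + 1 + 1) * (x - 1 - 1) * (n + 1) *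
        (5 * (n + 1) + (x - 1 + 2) * (a + 1 - 2)) + (n + 1 - 1) * (n + 1 - 2) *
        (5 * (n + 1) + (x - 1 + 2) * (a + 1 - 2)) *
        (6 * (n + 1) + (x - 1 + 2) * (a + 1 - 2)) := by
      rw [hyl]
      field_simp
      ring
    rw [h4] at h3
    linarith
  · have hhigh := hi_neg (A := a + 1) (n := n) (Z := x - 1) (by linarith) (by linarith)
      (by linarith)
    have hpos : 0 < n := by positivity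
    by_contra hcon
    push Not at hcon
    have h3 := mul_nonneg hpos.le hcon
    have h4 : n * (n * (n - 1) * yh ^ 2 + (n * (n - 1) - 2 * n * (a + 2) * (x - 2)) * yh +
        (a + 1) * (a + 2) * (x - 1) * (x - 2)) =
        n * (a + 1) * (a + 1 + 1) * (x - 1) * (x - 1 - 1) -
        2 * n * (a + 1 + 1) * (n + (a + 1) * (x - 1)) * (x - 1 - 1) +
        (n - 1) * (n + (a + 1) * (x - 1)) * (2 * n + (a + 1) * (x - 1)) := by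
      rw [hyh]
      field_simp
      ring
    rw [h4] at h3
    linarith

end Pool.Agent.BetaL
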