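import Mathlib
import Pool.Agent.BetaL.Recur
import Pool.Agent.BetaL.Ineq

namespace Pool.Agent.BetaL

open Finset Pool.Agent.MP_1e96f1_co

variable {Ω : Type*} [Fintype Ω] [DecidableEq Ω]

/-- In the threshold region a `β(n+1)` design is a `β(n)` design. -/
theorem beta_pred {Bs : Finset (Finset Ω)} {v k d n : ℕ} (hD : IsDesign Bs v k d)
    (hd : 0 < d) (hk : d + 2 * n + 1 ≤ k)
    (ht : Thr n ((k : ℝ) - (d + 2 * n + 1 : ℕ))) (hB : IsBeta Bs v d (n + 1)) :
    n * v = (d + 2 * n) * (k - d) ∧ IsBeta Bs v d n := by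
  obtain ⟨hdk, hkv⟩ := design_facts hD
  have hn2 : 2 ≤ n := by
    have : (2 : ℝ) ≤ n := by
      rcases ht with h | h | h | h <;> linarith [h.1]
    exact_mod_cast this
  have hup := noda_upper hD hB (by omega) (by omega)
  have hlow := noda_lower hD hB (by omega)
  suffices heq : n * v = (d + 2 * n) * (k - d) from
    ⟨heq, beta_pred_of_eq hD hB (by omega) (by omega) heq⟩
  by_contra hne
  have hlt : n * v < (d + 2 * n) * (k - d) := lt_of_le_of_ne hup hne
  obtain ⟨A, hA⟩ : ∃ A, k = d + 2 * n + 1 + A := ⟨k - (d + 2 * n + 1), by omega⟩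
  set x : ℝ := ((d + 2 * n + 1 : ℕ) : ℝ) with hx
  set a : ℝ := (k : ℝ) - x with ha
  set w : ℝ := (v : ℝ) - k with hw
  have haA : a = A := by
    rw [ha, hx, hA]; push_cast; ring
  have ha0 : 0 ≤ a := by rw [haA]; positivity
  have hkd : k - d = 2 * n + 1 + A := by omega
  have hxd : x = d + 2 * n + 1 := by rw [hx]; push_cast; ring
  have hd1 : (1 : ℝ) ≤ d := by exact_mod_cast hd
  have hn2' : (2 : ℝ) ≤ n := by exact_mod_cast hn2
  have hvw : (v : ℝ) = x + a + w := by rw [ha, hw]; ring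
  have hlow' : ((d : ℝ) + 2 * n + 2) * (2 * n + 1 + a) ≤ (n + 1) * v := by
    rw [hkd] at hlow
    rw [haA]
    exact_mod_cast hlow
  have hlt' : (n : ℝ) * v < (d + 2 * n) * (2 * n + 1 + a) := by
    rw [hkd] at hlt
    rw [haA]
    exact_mod_cast hlt
  have e1 : (x + 1) * (a - 1) ≤ (n + 1) * ((w + a + 3 - x) - 5) := by
    rw [hvw] at hlow'
    have : (d : ℝ) = x - 2 * n - 1 := by rw [hxd]; ring
    rw [this] at hlow'
    linarith
  have e2 : n * ((w + a + 3 - x) - 1) < (x - 1) * (a + 1) := by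
    rw [hvw] at hlt'
    have : (d : ℝ) = x - 2 * n - 1 := by rw [hxd]; ring
    rw [this] at hlt'
    linarith
  have hx2n : 2 * (n : ℝ) + 2 ≤ x := by rw [hxd]; linarith
  have ha8 : 8 ≤ a := by
    rcases ht with h | h | h | h <;> linarith [h.2]
  have hQ := Q2_neg (n := n) (a := a) (x := x) (y := w + a + 3 - x) ht hx2n e1 e2.le
  have hxn : (n : ℝ) < x := by linarith
  have hw0 : 0 ≤ w := by
    have : k ≤ v := by omega
    have : (k : ℝ) ≤ v := by exact_mod_cast this
    rw [hw]; linarith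
  have g1 := G_one (w := w) ha0 n hxn
  have g2 := G_two (w := w) ha0 (by linarith) n hxn
  have hG1 : 0 < G x w a n (w + a + 2 - x) := by
    have : 0 < G x w a n (w + a + 2 - x) * (x * (a + 1)) := by
      rw [g1]
      apply mul_pos (by linarith)
      linarith
    exact pos_of_mul_pos_left this (by positivity)
  have hG2 : G x w a n (2 * (w + a + 3 - x)) < 0 := by
    have : G x w a n (2 * (w + a + 3 - x)) * ((a + 1) * (a + 2) * x * (x - 1)) < 0 := by
      rw [g2]
      apply mul_neg_of_pos_of_neg (by linarith)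
      refine lt_of_eq_of_lt ?_ hQ
      ring
    by_contra hcon
    push Not at hcon
    have h3 : 0 ≤ (a + 1) * (a + 2) * x * (x - 1) := by
      apply mul_nonneg (by positivity); linarith
    have := mul_nonneg hcon h3
    linarith
  have hv2 : 2 * x ≤ v + 1 := by
    have h1 : 0 ≤ (x + 1) * (a - 1) := mul_nonneg (by linarith) (by linarith)
    have h2 : 0 ≤ (n + 1) * ((w + a + 3 - x) - 5) := h1.trans e1
    have h3 : 0 ≤ (w + a + 3 - x) - 5 := by
      by_contra hcon
      push Not at hcon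
      have : ((n : ℝ) + 1) * ((w + a + 3 - x) - 5) < 0 :=
        mul_neg_of_pos_of_neg (by positivity) hcon
      linarith
    rw [hvw]; linarith
  refine no_sign_change hD hB (by omega) hk (x := x) (a := a) (w := w) hx ha hw hv2 1 ?_
  have h1 : ((1 : ℕ) : ℝ) * ((v : ℝ) - 2 * x + 1 + (1 : ℕ)) = w + a + 2 - x := by
    rw [hvw]; push_cast; ring
  have h2 : ((1 + 1 : ℕ) : ℝ) * ((v : ℝ) - 2 * x + 1 + (1 + 1 : ℕ)) = 2 * (w + a + 3 - x) := by
    rw [hvw]; push_cast; ring
  rw [h1, h2]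
  exact mul_neg_of_pos_of_neg hG1 hG2

/-- the threshold region for the index `i` -/
def Far (i m : ℕ) : Prop :=
  (3 ≤ i ∧ 2 * i + 14 ≤ m) ∨ (4 ≤ i ∧ 2 * i + 12 ≤ m) ∨ (5 ≤ i ∧ 2 * i + 8 ≤ m) ∨
    (7 ≤ i ∧ 2 * i + 7 ≤ m)

theorem no_beta {Bs : Finset (Finset Ω)} {v k d i : ℕ} (hD : IsDesign Bs v k d)
    (hd : 0 < d) (hF : Far i (k - d)) : ¬ IsBeta Bs v d i := by
  intro hB
  obtain ⟨hdk, hkv⟩ := design_facts hD
  unfold Far at hF
  obtain ⟨n, rfl⟩ : ∃ n, i = n + 2 := ⟨i - 2, by omega⟩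
  obtain ⟨A, hA⟩ : ∃ A, k = d + 2 * n + 3 + A := ⟨k - (d + 2 * n + 3), by omega⟩
  have hkd : k - d = 2 * n + 3 + A := by omega
  rw [hkd] at hF
  have thr1 : Thr ((n + 1 : ℕ) : ℝ) ((k : ℝ) - (d + 2 * (n + 1) + 1 : ℕ)) := by
    have e1 : ((k : ℝ) - (d + 2 * (n + 1) + 1 : ℕ)) = (A : ℝ) := by
      rw [hA]; push_cast; ring
    rw [e1]
    unfold Thr
    rcases hF with h | h | h | h
    · left
      exact ⟨by exact_mod_cast (by omega : 2 ≤ n + 1), by exact_mod_cast (by omega : 15 ≤ A)⟩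
    · right; left
      exact ⟨by exact_mod_cast (by omega : 3 ≤ n + 1), by exact_mod_cast (by omega : 11 ≤ A)⟩
    · right; right; left
      exact ⟨by exact_mod_cast (by omega : 4 ≤ n + 1), by exact_mod_cast (by omega : 9 ≤ A)⟩
    · right; right; right
      exact ⟨by exact_mod_cast (by omega : 6 ≤ n + 1), by exact_mod_cast (by omega : 8 ≤ A)⟩
  obtain ⟨q1, hB1⟩ := beta_pred (n := n + 1) hD hd (by omega) thr1 hB
  have q2 : n * v = (d + 2 * n) * (k - d) := by
    rcases Nat.eq_or_lt_of_le (by omega : 1 ≤ n) with h | h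
    · subst h
      exact eq_of_beta_pred hD hB1 (beta_two_imp_one hD (by omega) hB1) (by omega) (by omega)
    · have thr2 : Thr (n : ℝ) ((k : ℝ) - (d + 2 * n + 1 : ℕ)) := by
        have e1 : ((k : ℝ) - (d + 2 * n + 1 : ℕ)) = ((A + 2 : ℕ) : ℝ) := by
          rw [hA]; push_cast; ring
        rw [e1]
        unfold Thr
        have : (2 ≤ n ∧ 15 ≤ A + 2) ∨ (3 ≤ n ∧ 11 ≤ A + 2) ∨ (4 ≤ n ∧ 9 ≤ A + 2) ∨
            (6 ≤ n ∧ 8 ≤ A + 2) := by omega
        rcases this with h | h | h | h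
        · left; exact ⟨by exact_mod_cast h.1, by exact_mod_cast h.2⟩
        · right; left; exact ⟨by exact_mod_cast h.1, by exact_mod_cast h.2⟩
        · right; right; left; exact ⟨by exact_mod_cast h.1, by exact_mod_cast h.2⟩
        · right; right; right; exact ⟨by exact_mod_cast h.1, by exact_mod_cast h.2⟩
      exact (beta_pred (n := n) hD hd (by omega) thr2 hB1).1
  -- the two equalities force `d = 0`
  have q3 : (n * v) * (n + 1) = ((n + 1) * v) * n := by ring
  rw [q1, q2] at q3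
  have hm : 0 < k - d := by omega
  have q4 : (k - d) * ((d + 2 * n) * (n + 1)) = (k - d) * ((d + 2 * (n + 1)) * n) := by
    nlinarith
  have q5 := Nat.eq_of_mul_eq_mul_left hm q4
  nlinarith

/-- complementary version -/
theorem no_beta_co {Bs : Finset (Finset Ω)} {v k d i : ℕ} (hD : IsDesign Bs v k d)
    (hd : 0 < d) (hi : i ≤ k - d) (hF : Far (k - d + 1 - i) (k - d)) : ¬ IsBeta Bs v d i := by
  intro hB
  obtain ⟨hdk, hkv⟩ := design_facts hD
  have h1 := beta_co hD hi hB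
  have hi1 : 1 ≤ i := hB.1
  unfold Far at hF
  rcases Nat.eq_zero_or_pos (v + d - 2 * k) with h0 | h0
  · -- then `v = 2k - d`, against the lower bound
    obtain ⟨n, rfl⟩ : ∃ n, i = n + 1 := ⟨i - 1, by omega⟩
    have hlow := noda_lower hD hB (by omega)
    obtain ⟨q, hq⟩ : ∃ q, k = d + q := ⟨k - d, by omega⟩
    have e1 : k - d = q := by omega
    have e2 : v = d + 2 * q := by omega
    rw [e1] at hF hlow
    rw [e2] at hlow
    have hnq : n + 1 < q := by omega
    obtain ⟨r, hr⟩ : ∃ r, q = n + 2 + r := ⟨q - (n + 2), by omega⟩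
    rw [hr] at hlow
    nlinarith
  · refine no_beta (design_co hD) h0 ?_ h1
    rw [show v - k - (v + d - 2 * k) = k - d by omega]
    unfold Far
    omega

end Pool.Agent.BetaL
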