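import Mathlib

namespace Pool.Agent.BetaL

open Finset

section sums

variable {n : ℕ} {t : Fin n → ℕ}

lemma t_ge (ht : StrictMono t) (h1 : ∀ j, 1 ≤ t j) : ∀ j : Fin n, (j : ℕ) + 1 ≤ t j := by
  have key : ∀ m (hm : m < n), m + 1 ≤ t ⟨m, hm⟩ := by
    intro m
    induction m with
    | zero => intro hm; exact h1 _
    | succ m ih =>
      intro hm
      have h2 := ih (by omega)
      have h3 : t ⟨m, by omega⟩ < t ⟨m + 1, hm⟩ := ht (by simp [Fin.lt_def])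
      omega
  intro j
  exact key j j.2

/-- the four moments -/
noncomputable def DD (t : Fin n → ℕ) : ℝ := ∑ j, ((t j : ℝ) - (j : ℕ))
noncomputable def EE (t : Fin n → ℕ) : ℝ := ∑ j, ((t j : ℝ) ^ 2 - ((j : ℕ) : ℝ) ^ 2)
noncomputable def F3 (t : Fin n → ℕ) : ℝ := ∑ j, ((t j : ℝ) ^ 3 - ((j : ℕ) : ℝ) ^ 3)
noncomputable def G4 (t : Fin n → ℕ) : ℝ := ∑ j, ((t j : ℝ) ^ 4 - ((j : ℕ) : ℝ) ^ 4)

lemma t_geR (ht : StrictMono t) (h1 : ∀ j, 1 ≤ t j) (j : Fin n) :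
    ((j : ℕ) : ℝ) + 1 ≤ t j := by exact_mod_cast t_ge ht h1 j

lemma j_le (j : Fin n) : ((j : ℕ) : ℝ) ≤ n - 1 := by
  have := j.2
  have : (j : ℕ) + 1 ≤ n := by omega
  have : ((j : ℕ) : ℝ) + 1 ≤ n := by exact_mod_cast this
  linarith

lemma DD_ge (ht : StrictMono t) (h1 : ∀ j, 1 ≤ t j) (j : Fin n) :
    (t j : ℝ) - (j : ℕ) + (n - 1) ≤ DD t := by
  unfold DD
  rw [← Finset.add_sum_erase Finset.univ _ (Finset.mem_univ j)]
  have h2 : ∑ i ∈ Finset.univ.erase j, (1 : ℝ) ≤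
      ∑ i ∈ Finset.univ.erase j, ((t i : ℝ) - (i : ℕ)) := by
    refine Finset.sum_le_sum fun i _ => ?_
    have := t_geR ht h1 i
    linarith
  rw [Finset.sum_const, Finset.card_erase_of_mem (Finset.mem_univ j), nsmul_eq_mul, mul_one,
    Finset.card_univ, Fintype.card_fin] at h2
  have hn : 1 ≤ n := by have := j.2; omega
  rw [Nat.cast_sub hn] at h2
  push_cast at h2
  linarith

lemma DD_n (ht : StrictMono t) (h1 : ∀ j, 1 ≤ t j) : (n : ℝ) ≤ DD t := by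
  unfold DD
  have h2 : ∑ i : Fin n, (1 : ℝ) ≤ ∑ i : Fin n, ((t i : ℝ) - (i : ℕ)) := by
    refine Finset.sum_le_sum fun i _ => ?_
    have := t_geR ht h1 i
    linarith
  simpa using h2

lemma EE_nonneg (ht : StrictMono t) (h1 : ∀ j, 1 ≤ t j) : 0 ≤ EE t := by
  unfold EE
  refine Finset.sum_nonneg fun j _ => ?_
  have h2 := t_geR ht h1 j
  have h3 : (0 : ℝ) ≤ (j : ℕ) := by positivity
  nlinarith

lemma EE_le (ht : StrictMono t) (h1 : ∀ j, 1 ≤ t j) : EE t ≤ 2 * DD t ^ 2 := by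
  have hn := DD_n ht h1
  have h0 : ∀ j : Fin n, ((t j : ℝ) ^ 2 - ((j : ℕ) : ℝ) ^ 2) ≤
      ((t j : ℝ) - (j : ℕ)) * (2 * DD t) := by
    intro j
    have h2 := t_geR ht h1 j
    have h3 := DD_ge ht h1 j
    have h4 := j_le j
    have h5 : (t j : ℝ) + (j : ℕ) ≤ 2 * DD t := by linarith
    have h6 : (0 : ℝ) ≤ (t j : ℝ) - (j : ℕ) := by linarith
    nlinarith
  calc EE t ≤ ∑ j, ((t j : ℝ) - (j : ℕ)) * (2 * DD t) := Finset.sum_le_sum fun j _ => h0 j
    _ = DD t * (2 * DD t) := by rw [← Finset.sum_mul]; rfl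
    _ = _ := by ring

lemma G4_nonneg (ht : StrictMono t) (h1 : ∀ j, 1 ≤ t j) : 0 ≤ G4 t := by
  unfold G4
  refine Finset.sum_nonneg fun j _ => ?_
  have h2 := t_geR ht h1 j
  have h3 : (0 : ℝ) ≤ (j : ℕ) := by positivity
  have := pow_le_pow_left₀ h3 (by linarith : ((j : ℕ) : ℝ) ≤ t j) 4
  linarith

lemma G4_le (ht : StrictMono t) (h1 : ∀ j, 1 ≤ t j) : G4 t ≤ 4 * DD t ^ 4 := by
  have hn := DD_n ht h1
  have h0 : ∀ j : Fin n, ((t j : ℝ) ^ 4 - ((j : ℕ) : ℝ) ^ 4) ≤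
      ((t j : ℝ) - (j : ℕ)) * (4 * DD t ^ 3) := by
    intro j
    have h2 := t_geR ht h1 j
    have h3 := DD_ge ht h1 j
    have h4 := j_le j
    have h7 : (0 : ℝ) ≤ (j : ℕ) := by positivity
    have h5 : (t j : ℝ) + (j : ℕ) ≤ 2 * DD t := by linarith
    have h6 : (0 : ℝ) ≤ (t j : ℝ) - (j : ℕ) := by linarith
    have h8 : (t j : ℝ) ≤ DD t := by linarith
    have h9 : ((j : ℕ) : ℝ) ≤ DD t := by linarith
    have h10 : (t j : ℝ) ^ 2 + ((j : ℕ) : ℝ) ^ 2 ≤ 2 * DD t ^ 2 := by nlinarith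
    have h11 : ((t j : ℝ) + (j : ℕ)) * ((t j : ℝ) ^ 2 + ((j : ℕ) : ℝ) ^ 2) ≤
        (2 * DD t) * (2 * DD t ^ 2) := mul_le_mul h5 h10 (by positivity) (by linarith)
    calc ((t j : ℝ) ^ 4 - ((j : ℕ) : ℝ) ^ 4) = ((t j : ℝ) - (j : ℕ)) *
          (((t j : ℝ) + (j : ℕ)) * ((t j : ℝ) ^ 2 + ((j : ℕ) : ℝ) ^ 2)) := by ring
      _ ≤ ((t j : ℝ) - (j : ℕ)) * ((2 * DD t) * (2 * DD t ^ 2)) :=
          mul_le_mul_of_nonneg_left h11 h6
      _ = _ := by ring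
  calc G4 t ≤ ∑ j, ((t j : ℝ) - (j : ℕ)) * (4 * DD t ^ 3) := Finset.sum_le_sum fun j _ => h0 j
    _ = DD t * (4 * DD t ^ 3) := by rw [← Finset.sum_mul]; rfl
    _ = _ := by ring

/-- shifted moments -/
lemma E_shift : ∑ j : Fin n, (((t j : ℝ) - (n - 1)) ^ 2 - (((j : ℕ) : ℝ) - (n - 1)) ^ 2) =
    EE t - 2 * (n - 1) * DD t := by
  unfold EE DD
  rw [Finset.mul_sum, ← Finset.sum_sub_distrib]
  exact Finset.sum_congr rfl fun j _ => by ring

lemma F_shift : ∑ j : Fin n, (((t j : ℝ) - (n - 1)) ^ 3 - (((j : ℕ) : ℝ) - (n - 1)) ^ 3) =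
    F3 t - 3 * (n - 1) * EE t + 3 * (n - 1) ^ 2 * DD t := by
  unfold F3 EE DD
  rw [Finset.mul_sum, Finset.mul_sum, ← Finset.sum_sub_distrib, ← Finset.sum_add_distrib]
  exact Finset.sum_congr rfl fun j _ => by ring

lemma F_le (ht : StrictMono t) (h1 : ∀ j, 1 ≤ t j) :
    F3 t - 3 * (n - 1) * EE t + 3 * (n - 1) ^ 2 * DD t ≤ 3 * DD t ^ 3 := by
  have hn := DD_n ht h1
  rw [← F_shift]
  have h0 : ∀ j : Fin n, (((t j : ℝ) - (n - 1)) ^ 3 - (((j : ℕ) : ℝ) - (n - 1)) ^ 3) ≤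
      ((t j : ℝ) - (j : ℕ)) * (3 * DD t ^ 2) := by
    intro j
    have h2 := t_geR ht h1 j
    have h3 := DD_ge ht h1 j
    have h4 := j_le j
    have h7 : (0 : ℝ) ≤ (j : ℕ) := by positivity
    have h6 : (0 : ℝ) ≤ (t j : ℝ) - (j : ℕ) := by linarith
    set β : ℝ := (t j : ℝ) - (n - 1) with hβ
    set α : ℝ := ((j : ℕ) : ℝ) - (n - 1) with hα
    have hb1 : β ≤ DD t := by linarith
    have hb2 : -DD t ≤ β := by linarith
    have ha1 : α ≤ DD t := by linarith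
    have ha2 : -DD t ≤ α := by linarith
    have hb3 : β ^ 2 ≤ DD t ^ 2 := sq_le_sq' hb2 hb1
    have ha3 : α ^ 2 ≤ DD t ^ 2 := sq_le_sq' ha2 ha1
    have hab : β ^ 2 + β * α + α ^ 2 ≤ 3 * DD t ^ 2 := by nlinarith [sq_nonneg (α - β)]
    calc β ^ 3 - α ^ 3 = ((t j : ℝ) - (j : ℕ)) * (β ^ 2 + β * α + α ^ 2) := by
          rw [hβ, hα]; ring
      _ ≤ _ := mul_le_mul_of_nonneg_left hab h6
  calc ∑ j : Fin n, (((t j : ℝ) - (n - 1)) ^ 3 - (((j : ℕ) : ℝ) - (n - 1)) ^ 3)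
      ≤ ∑ j, ((t j : ℝ) - (j : ℕ)) * (3 * DD t ^ 2) := Finset.sum_le_sum fun j _ => h0 j
    _ = DD t * (3 * DD t ^ 2) := by rw [← Finset.sum_mul]; rfl
    _ = _ := by ring

/-- the Cauchy-Schwarz inequality for the shifted moments -/
lemma CS (ht : StrictMono t) (h1 : ∀ j, 1 ≤ t j) (hE : 0 ≤ EE t - 2 * (n - 1) * DD t) :
    (EE t - 2 * (n - 1) * DD t) ^ 2 ≤
      (F3 t - 3 * (n - 1) * EE t + 3 * (n - 1) ^ 2 * DD t) * DD t := by
  set p : Fin n → ℝ := fun j => max ((t j : ℝ) - (n - 1)) 0 with hp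
  have hp0 : ∀ j, 0 ≤ p j := fun j => le_max_right _ _
  have hfacts : ∀ j : Fin n, p j ≤ (t j : ℝ) - (j : ℕ) ∧
      p j ^ 3 ≤ ((t j : ℝ) - (n - 1)) ^ 3 - (((j : ℕ) : ℝ) - (n - 1)) ^ 3 ∧
      ((t j : ℝ) - (n - 1)) ^ 2 - (((j : ℕ) : ℝ) - (n - 1)) ^ 2 ≤ p j ^ 2 := by
    intro j
    have h2 := t_geR ht h1 j
    have h4 := j_le j
    set β : ℝ := (t j : ℝ) - (n - 1) with hβ
    set α : ℝ := ((j : ℕ) : ℝ) - (n - 1) with hα
    have hα0 : α ≤ 0 := by linarith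
    have hαβ : α ≤ β := by linarith
    have hd : (t j : ℝ) - (j : ℕ) = β - α := by rw [hβ, hα]; ring
    rw [hd]
    rcases le_total 0 β with h | h
    · have hpj : p j = β := by simp only [hp]; exact max_eq_left h
      rw [hpj]
      refine ⟨by linarith, ?_, ?_⟩
      · have : α ^ 3 ≤ 0 := by
          have : α ^ 3 = α * α ^ 2 := by ring
          rw [this]
          exact mul_nonpos_of_nonpos_of_nonneg hα0 (sq_nonneg _)
        linarith
      · have := sq_nonneg α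
        linarith
    · have hpj : p j = 0 := by simp only [hp]; exact max_eq_right h
      rw [hpj]
      refine ⟨by linarith, ?_, ?_⟩
      · have : β ^ 3 - α ^ 3 = (β - α) * (β ^ 2 + β * α + α ^ 2) := by ring
        rw [this]
        have h5 : 0 ≤ β ^ 2 + β * α + α ^ 2 := by nlinarith [sq_nonneg (α + β)]
        have := mul_nonneg (by linarith : 0 ≤ β - α) h5
        linarith
      · nlinarith
  have hS1 : ∑ j, p j ≤ DD t := Finset.sum_le_sum fun j _ => (hfacts j).1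
  have hS3 : ∑ j, p j ^ 3 ≤ F3 t - 3 * (n - 1) * EE t + 3 * (n - 1) ^ 2 * DD t := by
    rw [← F_shift]
    exact Finset.sum_le_sum fun j _ => (hfacts j).2.1
  have hS2 : EE t - 2 * (n - 1) * DD t ≤ ∑ j, p j ^ 2 := by
    rw [← E_shift]
    exact Finset.sum_le_sum fun j _ => (hfacts j).2.2
  have hCS : (∑ j, p j ^ 2) ^ 2 ≤ (∑ j, p j) * ∑ j, p j ^ 3 := by
    refine Finset.sum_sq_le_sum_mul_sum_of_sq_le_mul _ (fun j _ => hp0 j)
      (fun j _ => pow_nonneg (hp0 j) 3) (fun j _ => le_of_eq (by ring))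
  have h5 : 0 ≤ ∑ j, p j := Finset.sum_nonneg fun j _ => hp0 j
  have h6 : 0 ≤ ∑ j, p j ^ 3 := Finset.sum_nonneg fun j _ => pow_nonneg (hp0 j) 3
  calc (EE t - 2 * (n - 1) * DD t) ^ 2 ≤ (∑ j, p j ^ 2) ^ 2 := pow_le_pow_left₀ hE hS2 2
    _ ≤ (∑ j, p j) * ∑ j, p j ^ 3 := hCS
    _ ≤ DD t * (F3 t - 3 * (n - 1) * EE t + 3 * (n - 1) ^ 2 * DD t) :=
        mul_le_mul hS1 hS3 h6 (h5.trans hS1)
    _ = _ := by ring

end sums

/-- case of a nonnegative leading coefficient -/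
lemma case_pos {N b D E F G L Δ1 Δ0 Z : ℝ} (hN2 : 2 ≤ N) (hbN : N ≤ b) (hD2 : 2 ≤ D)
    (hE0 : 0 ≤ E) (hE1 : E ≤ 2 * D ^ 2) (hG0 : 0 ≤ G) (hL : 0 ≤ L) (hZ0 : 0 ≤ Z)
    (hCS : (E - 2 * (N - 1) * D) ^ 2 ≤ (F - 3 * (N - 1) * E + 3 * (N - 1) ^ 2 * D) * D)
    (hI : D * Δ1 = 2 * E * Z +
      2 * N * b * ((F - 3 * (N - 1) * E + 3 * (N - 1) ^ 2 * D) * D -
        (E - 2 * (N - 1) * D) ^ 2) + N * b * (N - 1) * (b - 1) * D ^ 2)
    (hΔ0 : Δ0 = N * b * G - N * (N - 1) * b * E * (2 * N - 1 - b) - (N + b - 1) * E ^ 2)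
    (hQ : Z * L ^ 2 + Δ1 * L + Δ0 = 0) :
    L ≤ 16 * (N * b) * D ^ 3 := by
  have hN0 : 0 < N := by linarith
  have hb0 : 0 < b := by linarith
  have hnb : 0 < N * b := mul_pos hN0 hb0
  have hD0 : 0 < D := by linarith
  have hN1 : 0 < N - 1 := by linarith
  have hb1 : 0 < b - 1 := by linarith
  have h3 : N * b * (N - 1) * (b - 1) * D ^ 2 ≤ D * Δ1 := by
    rw [hI]
    have h4 : 0 ≤ 2 * E * Z := mul_nonneg (mul_nonneg (by norm_num) hE0) hZ0
    have h5 : 0 ≤ 2 * N * b * ((F - 3 * (N - 1) * E + 3 * (N - 1) ^ 2 * D) * D -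
      (E - 2 * (N - 1) * D) ^ 2) := mul_nonneg (by positivity) (by linarith)
    linarith
  have h4 : N * b * (N - 1) * (b - 1) * D ≤ Δ1 := by
    have : D * (N * b * (N - 1) * (b - 1) * D) ≤ D * Δ1 := by
      have h : D * (N * b * (N - 1) * (b - 1) * D) = N * b * (N - 1) * (b - 1) * D ^ 2 := by ring
      rw [h]; exact h3
    exact le_of_mul_le_mul_left this hD0
  have h5 : N * b * (N - 1) * (b - 1) * D * L ≤ -Δ0 := by
    have h6 : 0 ≤ Z * L ^ 2 := mul_nonneg hZ0 (sq_nonneg _)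
    have h7 := mul_le_mul_of_nonneg_right h4 hL
    linarith
  have h6 : -Δ0 ≤ 2 * (N * b * (N - 1) ^ 2) * D ^ 2 + 4 * (N + b - 1) * D ^ 4 := by
    rw [hΔ0]
    have h7 : 0 ≤ N * b * G := by positivity
    have h8 : N * (N - 1) * b * E * (2 * N - 1 - b) ≤
        N * (N - 1) * b * (2 * D ^ 2) * (N - 1) := by
      have h9 : 0 ≤ N * (N - 1) * b := by positivity
      have h10 : N * (N - 1) * b * E * (2 * N - 1 - b) ≤ N * (N - 1) * b * E * (N - 1) :=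
        mul_le_mul_of_nonneg_left (by linarith) (mul_nonneg h9 hE0)
      have h11 : N * (N - 1) * b * E * (N - 1) ≤ N * (N - 1) * b * (2 * D ^ 2) * (N - 1) :=
        mul_le_mul_of_nonneg_right (mul_le_mul_of_nonneg_left hE1 h9) (by linarith)
      exact h10.trans h11
    have h9 : (N + b - 1) * E ^ 2 ≤ (N + b - 1) * (2 * D ^ 2) ^ 2 :=
      mul_le_mul_of_nonneg_left (pow_le_pow_left₀ hE0 hE1 2) (by linarith)
    have h10 : N * (N - 1) * b * (2 * D ^ 2) * (N - 1) = 2 * (N * b * (N - 1) ^ 2) * D ^ 2 := by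
      ring
    have h11 : (N + b - 1) * (2 * D ^ 2) ^ 2 = 4 * (N + b - 1) * D ^ 4 := by ring
    rw [h10] at h8
    rw [h11] at h9
    linarith
  have h7 : 0 < N * b * (N - 1) * (b - 1) * D := by positivity
  have h8 : N * b * (N - 1) * (b - 1) * D * L ≤
      N * b * (N - 1) * (b - 1) * D * (2 * D + 4 * D ^ 3) := by
    have h9 : 2 * (N * b * (N - 1) ^ 2) * D ^ 2 ≤ 2 * (N * b * ((N - 1) * (b - 1))) * D ^ 2 := by
      apply mul_le_mul_of_nonneg_right _ (sq_nonneg _)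
      apply mul_le_mul_of_nonneg_left _ (by norm_num)
      apply mul_le_mul_of_nonneg_left _ hnb.le
      rw [sq]
      exact mul_le_mul_of_nonneg_left (by linarith) hN1.le
    have h10 : 4 * (N + b - 1) * D ^ 4 ≤ 4 * (N * b * ((N - 1) * (b - 1))) * D ^ 4 := by
      apply mul_le_mul_of_nonneg_right _ (by positivity)
      apply mul_le_mul_of_nonneg_left _ (by norm_num)
      have h12 : 1 ≤ (N - 1) * (b - 1) := by
        have := mul_le_mul (by linarith : (1 : ℝ) ≤ N - 1) (by linarith : (1 : ℝ) ≤ b - 1)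
          (by norm_num) hN1.le
        linarith
      have h11 : N + b - 1 ≤ N * b := by
        have : N * b = (N - 1) * (b - 1) + (N + b - 1) := by ring
        linarith
      calc N + b - 1 ≤ N * b * 1 := by linarith
        _ ≤ _ := mul_le_mul_of_nonneg_left h12 hnb.le
    have h11 : N * b * (N - 1) * (b - 1) * D * (2 * D + 4 * D ^ 3) =
      2 * (N * b * ((N - 1) * (b - 1))) * D ^ 2 + 4 * (N * b * ((N - 1) * (b - 1))) * D ^ 4 := by
      ring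
    rw [h11]
    linarith
  have h9 : L ≤ 2 * D + 4 * D ^ 3 := le_of_mul_le_mul_left h8 h7
  have h10 : D ≤ D ^ 3 := by
    have : D * 1 ≤ D * D ^ 2 := mul_le_mul_of_nonneg_left (by nlinarith) hD0.le
    calc D = D * 1 := by ring
      _ ≤ D * D ^ 2 := this
      _ = D ^ 3 := by ring
  have h11 : 1 ≤ N * b := by nlinarith
  have h12 : 0 < D ^ 3 := by positivity
  have h13 : D ^ 3 ≤ N * b * D ^ 3 := by
    have := mul_le_mul_of_nonneg_right h11 h12.le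
    linarith
  linarith

/-- case of a negative (integral) leading coefficient -/
lemma case_neg {N b D E F G L Δ1 Δ0 Z : ℝ} (hN2 : 2 ≤ N) (hbN : N ≤ b) (hb14 : b ≤ N + 14)
    (hD2 : 2 ≤ D) (hDn : N ≤ D)
    (hE0 : 0 ≤ E) (hE1 : E ≤ 2 * D ^ 2) (hG1 : G ≤ 4 * D ^ 4) (hL : 0 ≤ L) (hZ1 : Z ≤ -1)
    (hF1 : F - 3 * (N - 1) * E + 3 * (N - 1) ^ 2 * D ≤ 3 * D ^ 3)
    (hI : D * Δ1 = 2 * E * Z +
      2 * N * b * ((F - 3 * (N - 1) * E + 3 * (N - 1) ^ 2 * D) * D -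
        (E - 2 * (N - 1) * D) ^ 2) + N * b * (N - 1) * (b - 1) * D ^ 2)
    (hΔ0 : Δ0 = N * b * G - N * (N - 1) * b * E * (2 * N - 1 - b) - (N + b - 1) * E ^ 2)
    (hQ : Z * L ^ 2 + Δ1 * L + Δ0 = 0) :
    L ≤ 16 * (N * b) * D ^ 3 := by
  have hN0 : 0 < N := by linarith
  have hb0 : 0 < b := by linarith
  have hnb : 0 < N * b := mul_pos hN0 hb0
  have hD0 : 0 < D := by linarith
  have hN1 : 0 < N - 1 := by linarith
  have hb1 : 0 < b - 1 := by linarith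
  have h3 : L ^ 2 ≤ Δ1 * L + Δ0 := by
    have := mul_nonneg (by linarith : (0 : ℝ) ≤ -1 - Z) (sq_nonneg L)
    have h : (-1 - Z) * L ^ 2 = - L ^ 2 - Z * L ^ 2 := by ring
    rw [h] at this
    linarith
  have h4 : (N - 1) * (b - 1) ≤ 7 * D ^ 2 := by
    have h5 : (N - 1) * (b - 1) ≤ (D - 1) * (D + 13) :=
      mul_le_mul (by linarith) (by linarith) (by linarith) (by linarith)
    nlinarith [sq_nonneg (D - 1)]
  have h5 : D * Δ1 ≤ D * (13 * (N * b) * D ^ 3) := by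
    rw [hI]
    have h6 : 2 * E * Z ≤ 0 :=
      mul_nonpos_of_nonneg_of_nonpos (mul_nonneg (by norm_num) hE0) (by linarith)
    have h7 : 2 * N * b * ((F - 3 * (N - 1) * E + 3 * (N - 1) ^ 2 * D) * D -
      (E - 2 * (N - 1) * D) ^ 2) ≤ 2 * N * b * (3 * D ^ 3 * D) := by
      apply mul_le_mul_of_nonneg_left _ (by positivity)
      have h8 := mul_le_mul_of_nonneg_right hF1 hD0.le
      have h9 := sq_nonneg (E - 2 * (N - 1) * D)
      linarith
    have h8 : N * b * (N - 1) * (b - 1) * D ^ 2 ≤ N * b * (7 * D ^ 2) * D ^ 2 := by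
      apply mul_le_mul_of_nonneg_right _ (sq_nonneg _)
      have h9 := mul_le_mul_of_nonneg_left h4 hnb.le
      linarith
    have h9 : D * (13 * (N * b) * D ^ 3) = 2 * N * b * (3 * D ^ 3 * D) +
      N * b * (7 * D ^ 2) * D ^ 2 := by ring
    rw [h9]
    linarith
  have h6 : Δ1 ≤ 13 * (N * b) * D ^ 3 := le_of_mul_le_mul_left h5 hD0
  have h7 : Δ0 ≤ 17 * (N * b) * D ^ 4 := by
    rw [hΔ0]
    have h8 : N * b * G ≤ N * b * (4 * D ^ 4) := mul_le_mul_of_nonneg_left hG1 hnb.le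
    have h9 : 0 ≤ (N + b - 1) * E ^ 2 := mul_nonneg (by linarith) (sq_nonneg _)
    have h10 : 0 ≤ N * (N - 1) * b := by positivity
    have h11 : -(N * (N - 1) * b * E * (2 * N - 1 - b)) ≤ N * (N - 1) * b * (2 * D ^ 2) * 13 := by
      have h12 : N * (N - 1) * b * E * (-(2 * N - 1 - b)) ≤ N * (N - 1) * b * E * 13 :=
        mul_le_mul_of_nonneg_left (by linarith) (mul_nonneg h10 hE0)
      have h13 : N * (N - 1) * b * E * 13 ≤ N * (N - 1) * b * (2 * D ^ 2) * 13 :=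
        mul_le_mul_of_nonneg_right (mul_le_mul_of_nonneg_left hE1 h10) (by norm_num)
      linarith
    have h12 : N * (N - 1) * b * (2 * D ^ 2) * 13 ≤ 13 * (N * b) * D ^ 4 := by
      have h13 : (N - 1) * (2 * D ^ 2) ≤ D ^ 4 := by
        have h14 : (N - 1) * (2 * D ^ 2) ≤ D * (2 * D ^ 2) :=
          mul_le_mul_of_nonneg_right (by linarith) (by positivity)
        have h15 : D * (2 * D ^ 2) ≤ D ^ 4 := by
          have := mul_le_mul_of_nonneg_right hD2 (pow_pos hD0 3).le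
          have h : D * D ^ 3 = D ^ 4 := by ring
          rw [h] at this
          linarith
        exact h14.trans h15
      have h14 := mul_le_mul_of_nonneg_left h13 (by positivity : 0 ≤ 13 * (N * b))
      have h : N * (N - 1) * b * (2 * D ^ 2) * 13 = 13 * (N * b) * ((N - 1) * (2 * D ^ 2)) := by
        ring
      rw [h]
      exact h14
    linarith
  by_contra hcon
  push Not at hcon
  have h8 : 0 < N * b * D ^ 3 := by positivity
  have hLpos : 0 < L := by linarith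
  have h9 : L ^ 2 ≤ 13 * (N * b) * D ^ 3 * L + 17 * (N * b) * D ^ 4 := by
    have := mul_le_mul_of_nonneg_right h6 hL
    linarith
  have h10 : 16 * (N * b) * D ^ 3 * L < L ^ 2 := by
    have := mul_lt_mul_of_pos_right hcon hLpos
    rw [sq]
    exact this
  have h12 : 3 * L < 17 * D := by
    have : N * b * D ^ 3 * (3 * L) < N * b * D ^ 3 * (17 * D) := by
      have h : N * b * D ^ 3 * (17 * D) = 17 * (N * b) * D ^ 4 := by ring
      rw [h]
      linarith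
    exact lt_of_mul_lt_mul_left this h8.le
  have h13 : D ≤ N * b * D ^ 3 := by
    have h14 : 1 ≤ N * b := by nlinarith
    have h15 : D ≤ D ^ 3 := by
      calc D = D * 1 := by ring
        _ ≤ D * D ^ 2 := mul_le_mul_of_nonneg_left (by nlinarith) hD0.le
        _ = D ^ 3 := by ring
    have h16 := mul_le_mul_of_nonneg_right h14 (pow_pos hD0 3).le
    linarith
  linarith

/-- The main estimate: `L` is at most a multiple of `DD ^ 3`. -/
theorem L_le {n : ℕ} (hn : 2 ≤ n) {t : Fin n → ℕ} (ht : StrictMono t) (h1 : ∀ j, 1 ≤ t j)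
    {A : ℕ} (hA : A ≤ 14) {L X : ℝ} (hL : 0 ≤ L)
    (e1 : ∑ j, (t j : ℝ) * (L + t j) = (∑ r : Fin n, (r : ℝ) * (L + r)) +
        n * (A + n) * X)
    (e2 : ∑ j, ((t j : ℝ) * (L + t j)) ^ 2 = (∑ r : Fin n, ((r : ℝ) * (L + r)) ^ 2) +
        n * (n - 1) * (A + n) * X * (2 * (L + n - 1) - (A + n - 1)) +
        n * (A + n) * (2 * n + A - 1) * X ^ 2) :
    L * DD t + EE t = n * (A + n) * X ∧ L ≤ 16 * (n * (A + n)) * DD t ^ 3 := by
  have hlin : L * DD t + EE t = n * (A + n) * X := by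
    have : ∑ j, (t j : ℝ) * (L + t j) - ∑ r : Fin n, (r : ℝ) * (L + r) = L * DD t + EE t := by
      unfold DD EE
      rw [Finset.mul_sum, ← Finset.sum_sub_distrib, ← Finset.sum_add_distrib]
      exact Finset.sum_congr rfl fun j _ => by ring
    linarith
  have hquad : L ^ 2 * EE t + 2 * L * F3 t + G4 t =
      n * (n - 1) * (A + n) * X * (2 * (L + n - 1) - (A + n - 1)) +
        n * (A + n) * (2 * n + A - 1) * X ^ 2 := by
    have : ∑ j, ((t j : ℝ) * (L + t j)) ^ 2 - ∑ r : Fin n, ((r : ℝ) * (L + r)) ^ 2 =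
        L ^ 2 * EE t + 2 * L * F3 t + G4 t := by
      unfold EE F3 G4
      rw [Finset.mul_sum, Finset.mul_sum, ← Finset.sum_sub_distrib, ← Finset.sum_add_distrib,
        ← Finset.sum_add_distrib]
      exact Finset.sum_congr rfl fun j _ => by ring
    linarith
  refine ⟨hlin, ?_⟩
  have hDn := DD_n ht h1
  have hE0 := EE_nonneg ht h1
  have hE1 := EE_le ht h1
  have hG0 := G4_nonneg ht h1
  have hG1 := G4_le ht h1
  have hF1 := F_le ht h1
  have hCS := CS ht h1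
  obtain ⟨D, hD⟩ : ∃ D, D = DD t := ⟨_, rfl⟩
  obtain ⟨E, hE⟩ : ∃ E, E = EE t := ⟨_, rfl⟩
  obtain ⟨F, hF⟩ : ∃ F, F = F3 t := ⟨_, rfl⟩
  obtain ⟨G, hG⟩ : ∃ G, G = G4 t := ⟨_, rfl⟩
  obtain ⟨N, hN⟩ : ∃ N : ℝ, N = n := ⟨_, rfl⟩
  obtain ⟨b, hb⟩ : ∃ b : ℝ, b = A + N := ⟨_, rfl⟩
  -- the integer
  obtain ⟨Z, hZ⟩ : ∃ Z : ℤ, (Z : ℝ) = N * b * E - 2 * N * (N - 1) * b * D -
      (N + b - 1) * D ^ 2 := by
    refine ⟨n * (A + n) * (∑ j : Fin n, ((t j : ℤ) ^ 2 - ((j : ℕ) : ℤ) ^ 2)) -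
      2 * n * (n - 1) * (A + n) * (∑ j : Fin n, ((t j : ℤ) - ((j : ℕ) : ℤ))) -
      (n + (A + n) - 1) * (∑ j : Fin n, ((t j : ℤ) - ((j : ℕ) : ℤ))) ^ 2, ?_⟩
    rw [hD, hE, hb, hN]
    unfold DD EE
    push_cast
    ring
  rw [← hD, ← hE] at hlin
  rw [← hE, ← hF, ← hG] at hquad
  rw [← hD, ← hE, ← hF, ← hN] at hF1 hCS
  rw [← hD, ← hN] at hDn
  rw [← hD, ← hE] at hE1
  rw [← hE] at hE0
  rw [← hG] at hG0
  rw [← hD, ← hG] at hG1
  rw [← hN, ← hb] at hlin ⊢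
  rw [← hN] at hquad
  rw [← hD]
  have hAb : (A : ℝ) = b - N := by rw [hb]; ring
  rw [hAb] at hquad
  have hN2 : 2 ≤ N := by rw [hN]; exact_mod_cast hn
  have hA0 : (0 : ℝ) ≤ A := by positivity
  have hA14 : (A : ℝ) ≤ 14 := by exact_mod_cast hA
  have hbN : N ≤ b := by linarith
  have hb14 : b ≤ N + 14 := by linarith
  have hD2 : 2 ≤ D := by linarith
  -- the quadratic equation
  have hQ : (N * b * E - 2 * N * (N - 1) * b * D - (N + b - 1) * D ^ 2) * L ^ 2 +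
      (2 * N * b * F - N * (N - 1) * b * (D * (2 * N - 1 - b) + 2 * E) -
        2 * (N + b - 1) * D * E) * L +
      (N * b * G - N * (N - 1) * b * E * (2 * N - 1 - b) - (N + b - 1) * E ^ 2) = 0 := by
    have hX : N * b * (L ^ 2 * E + 2 * L * F + G) =
        N * (N - 1) * b * (L * D + E) * (2 * L + 2 * N - 1 - b) +
        (N + b - 1) * (L * D + E) ^ 2 := by
      rw [hquad, hlin]
      ring
    linear_combination hX
  -- the identity for the linear coefficient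
  have hI : D * (2 * N * b * F - N * (N - 1) * b * (D * (2 * N - 1 - b) + 2 * E) -
        2 * (N + b - 1) * D * E) = 2 * E * (Z : ℝ) +
      2 * N * b * ((F - 3 * (N - 1) * E + 3 * (N - 1) ^ 2 * D) * D -
        (E - 2 * (N - 1) * D) ^ 2) + N * b * (N - 1) * (b - 1) * D ^ 2 := by
    rw [hZ]
    ring
  rw [← hZ] at hQ
  rcases le_or_gt 0 Z with hZ0 | hZ0
  · -- nonnegative leading coefficient
    have hZ0' : (0 : ℝ) ≤ Z := by exact_mod_cast hZ0
    have hE' : 0 ≤ E - 2 * (N - 1) * D := by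
      have hnb : 0 < N * b := mul_pos (by linarith) (by linarith)
      have h3 : 0 ≤ N * b * (E - 2 * (N - 1) * D) := by
        have h4 : N * b * (E - 2 * (N - 1) * D) = Z + (N + b - 1) * D ^ 2 := by rw [hZ]; ring
        rw [h4]
        have : 0 ≤ (N + b - 1) * D ^ 2 := mul_nonneg (by linarith) (sq_nonneg _)
        linarith
      exact nonneg_of_mul_nonneg_right h3 hnb
    exact case_pos hN2 hbN hD2 hE0 hE1 hG0 hL hZ0' (hCS hE') hI rfl hQ
  · -- negative leading coefficient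
    have hZ1 : (Z : ℝ) ≤ -1 := by
      have : Z ≤ -1 := by omega
      exact_mod_cast this
    exact case_neg hN2 hbN hb14 hD2 hDn hE0 hE1 hG1 hL hZ1 hF1 hI rfl hQ

/-- `L ^ 4 ≤ 16 (n b) ^ 4 X ^ 3` -/
theorem core {n : ℕ} (hn : 2 ≤ n) {t : Fin n → ℕ} (ht : StrictMono t) (h1 : ∀ j, 1 ≤ t j)
    {A : ℕ} (hA : A ≤ 14) {L X : ℝ} (hL : 0 ≤ L)
    (e1 : ∑ j, (t j : ℝ) * (L + t j) = (∑ r : Fin n, (r : ℝ) * (L + r)) +
        n * (A + n) * X)
    (e2 : ∑ j, ((t j : ℝ) * (L + t j)) ^ 2 = (∑ r : Fin n, ((r : ℝ) * (L + r)) ^ 2) +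
        n * (n - 1) * (A + n) * X * (2 * (L + n - 1) - (A + n - 1)) +
        n * (A + n) * (2 * n + A - 1) * X ^ 2) :
    L ^ 4 ≤ 16 * (n * (A + n)) ^ 4 * X ^ 3 := by
  obtain ⟨h2, h3⟩ := L_le hn ht h1 hA hL e1 e2
  have hD0 : 0 ≤ DD t := (by positivity : (0 : ℝ) ≤ n).trans (DD_n ht h1)
  have hE0 := EE_nonneg ht h1
  have h4 : L * DD t ≤ n * (A + n) * X := by linarith
  have h5 : 0 ≤ L * DD t := mul_nonneg hL hD0
  calc L ^ 4 = L * L ^ 3 := by ring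
    _ ≤ (16 * (n * (A + n)) * DD t ^ 3) * L ^ 3 :=
        mul_le_mul_of_nonneg_right h3 (pow_nonneg hL 3)
    _ = 16 * (n * (A + n)) * (L * DD t) ^ 3 := by ring
    _ ≤ 16 * (n * (A + n)) * (n * (A + n) * X) ^ 3 := by
        apply mul_le_mul_of_nonneg_left (pow_le_pow_left₀ h5 h4 3) (by positivity)
    _ = _ := by ring

end Pool.Agent.BetaL
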