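import Mathlib
import Pool.Agent.BetaL.Main
import Pool.Agent.BetaL.Spec
import Pool.Agent.BetaL.Dio

namespace Pool.Agent.BetaL

open Finset Pool.Agent.MP_1e96f1_co

lemma real_one {N A L X : ℝ} (hN : 2 ≤ N) (hA : 0 ≤ A) (hX : 0 ≤ X)
    (h : L ^ 4 ≤ 16 * (N * (A + N)) ^ 4 * X ^ 3) :
    16 * L ^ 4 ≤ (2 * N + A) ^ 8 * X ^ 3 := by
  have h1 : 4 * (N * (A + N)) ≤ (2 * N + A) ^ 2 := by nlinarith [sq_nonneg A]
  have h0 : 0 ≤ 4 * (N * (A + N)) := by positivity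
  have h2 := pow_le_pow_left₀ h0 h1 4
  have h3 := mul_le_mul_of_nonneg_right h2 (pow_nonneg hX 3)
  have e : ((2 * N + A) ^ 2) ^ 4 = (2 * N + A) ^ 8 := by ring
  rw [e] at h3
  calc 16 * L ^ 4 ≤ 16 * (16 * (N * (A + N)) ^ 4 * X ^ 3) := by linarith
    _ = (4 * (N * (A + N))) ^ 4 * X ^ 3 := by ring
    _ ≤ _ := h3

lemma real_two {N A L X x : ℝ} (hN : 2 ≤ N) (hA : 0 ≤ A) (hA' : A ≤ 14) (hX : 0 ≤ X)
    (hXx : X ≤ x) (hL : 0 ≤ L) (hup : N * L ≤ (A + 1) * x)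
    (h : L ^ 4 ≤ 16 * (N * (A + N)) ^ 4 * X ^ 3) :
    L ^ 12 ≤ 2 ^ 48 * x ^ 11 := by
  have hN0 : 0 < N := by linarith
  have hx : 0 ≤ x := hX.trans hXx
  have h1 : N * (A + N) ≤ 8 * N ^ 2 := by nlinarith
  have h2 : 16 * (N * (A + N)) ^ 4 ≤ 65536 * N ^ 8 := by
    have := pow_le_pow_left₀ (by positivity) h1 4
    calc 16 * (N * (A + N)) ^ 4 ≤ 16 * (8 * N ^ 2) ^ 4 := by linarith
      _ = 65536 * N ^ 8 := by ring
  have h3 : L ^ 4 ≤ 65536 * N ^ 8 * x ^ 3 := by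
    calc L ^ 4 ≤ 16 * (N * (A + N)) ^ 4 * X ^ 3 := h
      _ ≤ 65536 * N ^ 8 * X ^ 3 := mul_le_mul_of_nonneg_right h2 (pow_nonneg hX 3)
      _ ≤ 65536 * N ^ 8 * x ^ 3 :=
        mul_le_mul_of_nonneg_left (pow_le_pow_left₀ hX hXx 3) (by positivity)
  have h4 : N * L ≤ 15 * x := by nlinarith
  have h5 : (N * L) ^ 8 ≤ (15 * x) ^ 8 := pow_le_pow_left₀ (by positivity) h4 8
  have h6 : (N * L) ^ 8 * L ^ 4 ≤ (15 * x) ^ 8 * (65536 * N ^ 8 * x ^ 3) :=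
    mul_le_mul h5 h3 (by positivity) (by positivity)
  have h7 : N ^ 8 * L ^ 12 ≤ N ^ 8 * (15 ^ 8 * 65536 * x ^ 11) := by
    calc N ^ 8 * L ^ 12 = (N * L) ^ 8 * L ^ 4 := by ring
      _ ≤ _ := h6
      _ = _ := by ring
  have h8 : L ^ 12 ≤ 15 ^ 8 * 65536 * x ^ 11 := le_of_mul_le_mul_left h7 (by positivity)
  have h9 : (15 : ℝ) ^ 8 * 65536 * x ^ 11 ≤ 2 ^ 48 * x ^ 11 :=
    mul_le_mul_of_nonneg_right (by norm_num) (by positivity)
  exact h8.trans h9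

lemma real_three {N A L X x v : ℝ} (hN : 2 ≤ N) (hA : 2 ≤ A) (hA' : A ≤ 14) (hX : 0 ≤ X)
    (hXx : X ≤ x) (hx0 : 0 < x) (hlow : x ≤ (N + 1) * L)
    (hv : N * v ≤ x * (2 * N + 1 + A))
    (h : L ^ 4 ≤ 16 * (N * (A + N)) ^ 4 * X ^ 3) :
    v ≤ (2 * N + A) ^ 12 := by
  have hN0 : 0 < N := by linarith
  have h1 : x ^ 4 ≤ ((N + 1) * L) ^ 4 := pow_le_pow_left₀ hx0.le hlow 4
  have h2 : x ^ 4 ≤ 16 * (N + 1) ^ 4 * (N * (A + N)) ^ 4 * x ^ 3 := by
    calc x ^ 4 ≤ ((N + 1) * L) ^ 4 := h1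
      _ = (N + 1) ^ 4 * L ^ 4 := by ring
      _ ≤ (N + 1) ^ 4 * (16 * (N * (A + N)) ^ 4 * X ^ 3) :=
        mul_le_mul_of_nonneg_left h (by positivity)
      _ ≤ (N + 1) ^ 4 * (16 * (N * (A + N)) ^ 4 * x ^ 3) := by
        apply mul_le_mul_of_nonneg_left _ (by positivity)
        exact mul_le_mul_of_nonneg_left (pow_le_pow_left₀ hX hXx 3) (by positivity)
      _ = _ := by ring
  have h3 : x ≤ 16 * (N + 1) ^ 4 * (N * (A + N)) ^ 4 := by
    have h4 : x ^ 3 * x ≤ x ^ 3 * (16 * (N + 1) ^ 4 * (N * (A + N)) ^ 4) := by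
      calc x ^ 3 * x = x ^ 4 := by ring
        _ ≤ _ := h2
        _ = _ := by ring
    exact le_of_mul_le_mul_left h4 (by positivity)
  have h4 : 2 * (N + 1) ≤ 2 * N + A := by linarith
  have h5 : 4 * (N * (A + N)) ≤ (2 * N + A) ^ 2 := by nlinarith [sq_nonneg A]
  have h6 : (2 * (N + 1)) ^ 4 * (4 * (N * (A + N))) ^ 4 ≤
      (2 * N + A) ^ 4 * ((2 * N + A) ^ 2) ^ 4 :=
    mul_le_mul (pow_le_pow_left₀ (by positivity) h4 4)
      (pow_le_pow_left₀ (by positivity) h5 4) (by positivity) (by positivity)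
  have h7 : 256 * x ≤ (2 * N + A) ^ 12 := by
    calc 256 * x ≤ 256 * (16 * (N + 1) ^ 4 * (N * (A + N)) ^ 4) := by linarith
      _ = (2 * (N + 1)) ^ 4 * (4 * (N * (A + N))) ^ 4 := by ring
      _ ≤ _ := h6
      _ = _ := by ring
  have h8 : x * (2 * N + 1 + A) ≤ x * (10 * N) :=
    mul_le_mul_of_nonneg_left (by linarith) hx0.le
  have h9 : v ≤ 10 * x := by
    have : N * v ≤ N * (10 * x) := by linarith
    exact le_of_mul_le_mul_left this hN0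
  linarith

variable {Ω : Type*} [Fintype Ω] [DecidableEq Ω]

/-- the case `2 i ≤ k - d + 1` -/
theorem side {Bs : Finset (Finset Ω)} {v k d n : ℕ} (hD : IsDesign Bs v k d) (hd : 0 < d)
    (hB : IsBeta Bs v d (n + 1)) (hn : 2 ≤ n) (hk : d + 2 * n + 1 ≤ k)
    (hv : k = d + 2 * n + 1 → 2 * k ≤ v + 1) :
    (((v : ℤ) - 2 * k < 0 ∧ 16 * ((v : ℤ) - 2 * k) ^ 4 ≤ ((k : ℤ) - d - 1) ^ 8 ∧
        ((v : ℤ) - 2 * k) ^ 12 ≤ 29 ^ 12) ∨
      (0 ≤ (v : ℤ) - 2 * k ∧ 16 * ((v : ℤ) - 2 * k) ^ 4 ≤ ((k : ℤ) - d - 1) ^ 8 * k ^ 3 ∧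
        ((v : ℤ) - 2 * k) ^ 12 ≤ 2 ^ 48 * k ^ 11)) ∧
    (d + 2 * n + 3 ≤ k → (v : ℤ) ≤ ((k : ℤ) - d - 1) ^ 12) := by
  obtain ⟨hdk, hkv⟩ := design_facts hD
  obtain ⟨A, hA⟩ : ∃ A, k = d + 2 * n + 1 + A := ⟨k - (d + 2 * n + 1), by omega⟩
  have hkd : k - d = 2 * n + 1 + A := by omega
  have hA14 : A ≤ 14 := by
    by_contra hcon
    push Not at hcon
    refine no_beta hD hd ?_ hB
    unfold Far
    left
    omega
  have hup := noda_upper hD hB (by omega) (by omega)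
  have hlow := noda_lower hD hB (by omega)
  rw [hkd] at hup hlow
  -- real variables
  set x : ℝ := ((d + 2 * n + 1 : ℕ) : ℝ) with hx
  set L : ℝ := (v : ℝ) - 2 * x + 1 with hL
  have hxd : x = d + 2 * n + 1 := by rw [hx]; push_cast; ring
  have hkx : (k : ℝ) = x + A := by rw [hA, hxd]; push_cast; ring
  have hn2 : (2 : ℝ) ≤ n := by exact_mod_cast hn
  have hd1 : (1 : ℝ) ≤ d := by exact_mod_cast hd
  have hA0 : (0 : ℝ) ≤ A := by positivity
  have hA14' : (A : ℝ) ≤ 14 := by exact_mod_cast hA14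
  have hup' : (n : ℝ) * v ≤ (x - 1) * (2 * n + 1 + A) := by
    have : ((n * v : ℕ) : ℝ) ≤ (((d + 2 * n) * (2 * n + 1 + A) : ℕ) : ℝ) := by
      exact_mod_cast hup
    push_cast at this
    rw [hxd]
    have e : ((d : ℝ) + 2 * n + 1 - 1) = d + 2 * n := by ring
    rw [e]
    exact this
  have hlow' : (x + 1) * (2 * n + 1 + A) ≤ (n + 1) * (v : ℝ) := by
    have : (((d + 2 * n + 2) * (2 * n + 1 + A) : ℕ) : ℝ) ≤ (((n + 1) * v : ℕ) : ℝ) := by
      exact_mod_cast hlow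
    push_cast at this
    rw [hxd]
    have e : ((d : ℝ) + 2 * n + 1 + 1) = d + 2 * n + 2 := by ring
    rw [e]
    exact this
  have hx6 : 6 ≤ x := by rw [hxd]; linarith
  have hnL : (n : ℝ) * L ≤ (A + 1) * x := by
    have e : (n : ℝ) * L = n * v - 2 * n * x + n := by rw [hL]; ring
    rw [e]
    linarith
  have hL0 : 0 ≤ L := by
    rcases Nat.eq_zero_or_pos A with h0 | h0
    · have h1 : 2 * k ≤ v + 1 := hv (by omega)
      have h2 : 2 * (d + 2 * n + 1) ≤ v + 1 := by omega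
      have h3 : 2 * x ≤ v + 1 := by rw [hx]; exact_mod_cast h2
      rw [hL]; linarith
    · have h1 : (1 : ℝ) ≤ A := by exact_mod_cast h0
      have h2 : ((n : ℝ) + 1) * L = (n + 1) * v - 2 * (n + 1) * x + (n + 1) := by
        rw [hL]; ring
      have h3 : 0 ≤ x * ((A : ℝ) - 1) := mul_nonneg (by linarith) (by linarith)
      have h4 : 0 ≤ ((n : ℝ) + 1) * L := by
        rw [h2]
        linarith
      exact nonneg_of_mul_nonneg_right h4 (by positivity)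
  obtain ⟨t, ht, h1, e1, e2⟩ := int_zeros hD hB (by omega) (by omega) (x := x) (a := (A : ℝ))
    (L := L) hx (by rw [hkx]; ring) hL hL0
  have hcore := core hn ht h1 hA14 hL0 e1 e2
  have hX0 : 0 ≤ x - n := by rw [hxd]; linarith
  have hXx : x - n ≤ x := by linarith
  have hm : (k : ℝ) - d - 1 = 2 * n + A := by rw [hkx, hxd]; ring
  have hgap : (v : ℝ) - 2 * k = L - 1 - 2 * A := by rw [hL, hkx]; ring
  have r1 := real_one hn2 hA0 hX0 hcore
  have r2 := real_two hn2 hA0 hA14' hX0 hXx hL0 hnL hcore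
  refine ⟨?_, ?_⟩
  · rcases lt_or_ge ((v : ℤ) - 2 * k) 0 with hneg | hpos
    · left
      have hneg' : (v : ℝ) - 2 * k < 0 := by exact_mod_cast hneg
      have hb1 : -((v : ℝ) - 2 * k) ≤ 2 * A + 1 := by rw [hgap]; linarith
      have hb0 : 0 ≤ -((v : ℝ) - 2 * k) := by linarith
      refine ⟨hneg, ?_, ?_⟩
      · have h3 : 16 * ((v : ℝ) - 2 * k) ^ 4 ≤ ((k : ℝ) - d - 1) ^ 8 := by
          rw [hm]
          have h4 := pow_le_pow_left₀ hb0 hb1 4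
          have h5 : 4 * (2 * (A : ℝ) + 1) ≤ (2 * n + A) ^ 2 := by nlinarith [sq_nonneg (A : ℝ)]
          have h6 := pow_le_pow_left₀ (by positivity) h5 4
          have h7 : 0 ≤ (2 * (A : ℝ) + 1) ^ 4 := by positivity
          calc 16 * ((v : ℝ) - 2 * k) ^ 4 = 16 * (-((v : ℝ) - 2 * k)) ^ 4 := by ring
            _ ≤ 16 * (2 * (A : ℝ) + 1) ^ 4 := by linarith
            _ ≤ (4 * (2 * (A : ℝ) + 1)) ^ 4 := by
              have e : (4 * (2 * (A : ℝ) + 1)) ^ 4 = 256 * (2 * (A : ℝ) + 1) ^ 4 := by ring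
              rw [e]; linarith
            _ ≤ ((2 * n + A) ^ 2) ^ 4 := h6
            _ = _ := by ring
        exact_mod_cast h3
      · have h3 : ((v : ℝ) - 2 * k) ^ 12 ≤ 29 ^ 12 := by
          have h4 : -((v : ℝ) - 2 * k) ≤ 29 := by linarith
          have h5 := pow_le_pow_left₀ hb0 h4 12
          calc ((v : ℝ) - 2 * k) ^ 12 = (-((v : ℝ) - 2 * k)) ^ 12 := by ring
            _ ≤ _ := h5
        exact_mod_cast h3
    · right
      have hpos' : 0 ≤ (v : ℝ) - 2 * k := by exact_mod_cast hpos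
      have hb1 : (v : ℝ) - 2 * k ≤ L := by rw [hgap]; linarith
      have hXk : x - n ≤ k := by rw [hkx]; linarith
      have hxk : x ≤ k := by rw [hkx]; linarith
      refine ⟨hpos, ?_, ?_⟩
      · have h3 : 16 * ((v : ℝ) - 2 * k) ^ 4 ≤ ((k : ℝ) - d - 1) ^ 8 * k ^ 3 := by
          rw [hm]
          have h4 := pow_le_pow_left₀ hpos' hb1 4
          calc 16 * ((v : ℝ) - 2 * k) ^ 4 ≤ 16 * L ^ 4 := by linarith
            _ ≤ _ := r1
            _ ≤ (2 * n + A) ^ 8 * k ^ 3 :=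
              mul_le_mul_of_nonneg_left (pow_le_pow_left₀ hX0 hXk 3) (by positivity)
        exact_mod_cast h3
      · have h3 : ((v : ℝ) - 2 * k) ^ 12 ≤ 2 ^ 48 * k ^ 11 := by
          have h4 := pow_le_pow_left₀ hpos' hb1 12
          have h5 := pow_le_pow_left₀ (by linarith : 0 ≤ x) hxk 11
          linarith
        exact_mod_cast h3
  · intro h3
    have hA2 : 2 ≤ A := by omega
    have hA2' : (2 : ℝ) ≤ A := by exact_mod_cast hA2
    have hlow2 : x ≤ ((n : ℝ) + 1) * L := by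
      have e : ((n : ℝ) + 1) * L = (n + 1) * v - 2 * (n + 1) * x + (n + 1) := by
        rw [hL]; ring
      rw [e]
      have h4 : 0 ≤ x * ((A : ℝ) - 2) := mul_nonneg (by linarith) (by linarith)
      linarith
    have hv' : (n : ℝ) * v ≤ x * (2 * n + 1 + A) := by
      have : 0 ≤ 2 * (n : ℝ) + 1 + A := by positivity
      linarith
    have h4 : (v : ℝ) ≤ ((k : ℝ) - d - 1) ^ 12 := by
      rw [hm]
      exact real_three hn2 hA2' hA14' hX0 hXx (by linarith) hlow2 hv' hcore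
    exact_mod_cast h4

/-- The main theorem. -/
theorem main {Bs : Finset (Finset Ω)} {v k d i : ℕ} (hD : IsDesign Bs v k d) (hd : 0 < d)
    (hB : IsBeta Bs v d i) (hi : 3 ≤ i) (hi' : i + 2 ≤ k - d) :
    16 * ((v : ℤ) - 2 * k) ^ 4 ≤ ((k : ℤ) - d - 1) ^ 8 * k ^ 3 ∧
    ((v : ℤ) - 2 * k) ^ 12 ≤ 2 ^ 48 * k ^ 11 ∧
    (2 * i + 1 ≤ k - d ∨ k - d + 3 ≤ 2 * i → v ≤ (k - d - 1) ^ 12) := by
  obtain ⟨hdk, hkv⟩ := design_facts hD
  have hcast : (((k - d - 1 : ℕ) : ℤ)) = (k : ℤ) - d - 1 := by omega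
  have hk6 : (2 : ℤ) ≤ k := by omega
  have hk0 : (1 : ℤ) ≤ (k : ℤ) ^ 3 := one_le_pow₀ (by omega)
  have hbig : (29 : ℤ) ^ 12 ≤ 2 ^ 48 * k ^ 11 := by
    have := pow_le_pow_left₀ (by norm_num : (0 : ℤ) ≤ 2) hk6 11
    calc (29 : ℤ) ^ 12 ≤ 2 ^ 48 * 2 ^ 11 := by norm_num
      _ ≤ _ := by linarith
  have h8 : (0 : ℤ) ≤ ((k : ℤ) - d - 1) ^ 8 := by positivity
  by_cases hc : 2 * i ≤ k - d + 1 ∧ (2 * i = k - d + 1 → 2 * k ≤ v + 1)
  · obtain ⟨n, rfl⟩ : ∃ n, i = n + 1 := ⟨i - 1, by omega⟩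
    obtain ⟨h1, h2⟩ := side hD hd hB (by omega) (by omega) (fun h => hc.2 (by omega))
    refine ⟨?_, ?_, ?_⟩
    · rcases h1 with ⟨_, h3, _⟩ | ⟨_, h3, _⟩
      · calc _ ≤ ((k : ℤ) - d - 1) ^ 8 := h3
          _ = ((k : ℤ) - d - 1) ^ 8 * 1 := by ring
          _ ≤ _ := mul_le_mul_of_nonneg_left hk0 h8
      · exact h3
    · rcases h1 with ⟨_, _, h3⟩ | ⟨_, _, h3⟩
      · exact h3.trans hbig
      · exact h3
    · intro h3
      have h4 := h2 (by omega)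
      rw [← hcast] at h4
      exact_mod_cast h4
  · have h1 := beta_co hD (by omega) hB
    have hd' : 0 < v + d - 2 * k := by
      rcases Nat.eq_zero_or_pos (v + d - 2 * k) with h0 | h0
      · exfalso
        obtain ⟨n, rfl⟩ : ∃ n, i = n + 1 := ⟨i - 1, by omega⟩
        have hlow := noda_lower hD hB (by omega)
        obtain ⟨q, hq⟩ : ∃ q, k = d + q := ⟨k - d, by omega⟩
        have e1 : k - d = q := by omega
        have e2 : v = d + 2 * q := by omega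
        have e3 : n + 3 ≤ q := by omega
        rw [e1] at hlow
        rw [e2] at hlow
        obtain ⟨r, hr⟩ : ∃ r, q = n + 3 + r := ⟨q - (n + 3), by omega⟩
        rw [hr] at hlow
        nlinarith
      · exact h0
    obtain ⟨n, hn⟩ : ∃ n, k - d - i + 1 = n + 1 := ⟨k - d - i, by omega⟩
    rw [hn] at h1
    have hkd' : v - k - (v + d - 2 * k) = k - d := by omega
    obtain ⟨g1, g2⟩ := side (design_co hD) hd' h1 (by omega) (by omega) (fun h => by omega)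
    have hck : ((v - k : ℕ) : ℤ) = (v : ℤ) - k := by omega
    have hcd : ((v + d - 2 * k : ℕ) : ℤ) = (v : ℤ) + d - 2 * k := by omega
    rw [hck, hcd] at g1 g2
    have e1 : ((v : ℤ) - 2 * ((v : ℤ) - k)) = -((v : ℤ) - 2 * k) := by ring
    have e2 : ((v : ℤ) - k - ((v : ℤ) + d - 2 * k) - 1) = (k : ℤ) - d - 1 := by ring
    rw [e1, e2] at g1
    rw [e2] at g2
    have e3 : (-((v : ℤ) - 2 * k)) ^ 4 = ((v : ℤ) - 2 * k) ^ 4 := by ring
    have e4 : (-((v : ℤ) - 2 * k)) ^ 12 = ((v : ℤ) - 2 * k) ^ 12 := by ring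
    rw [e3, e4] at g1
    refine ⟨?_, ?_, ?_⟩
    · rcases g1 with ⟨_, h3, _⟩ | ⟨h0, h3, _⟩
      · calc _ ≤ ((k : ℤ) - d - 1) ^ 8 := h3
          _ = ((k : ℤ) - d - 1) ^ 8 * 1 := by ring
          _ ≤ _ := mul_le_mul_of_nonneg_left hk0 h8
      · have h4 : (v : ℤ) - k ≤ k := by linarith
        have h5 : 0 ≤ (v : ℤ) - k := by omega
        exact h3.trans (mul_le_mul_of_nonneg_left (pow_le_pow_left₀ h5 h4 3) h8)
    · rcases g1 with ⟨_, _, h3⟩ | ⟨h0, _, h3⟩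
      · exact h3.trans hbig
      · have h4 : (v : ℤ) - k ≤ k := by linarith
        have h5 : 0 ≤ (v : ℤ) - k := by omega
        have h6 := pow_le_pow_left₀ h5 h4 11
        linarith
    · intro h3
      have h4 := g2 (by omega)
      rw [← hcast] at h4
      exact_mod_cast h4

end Pool.Agent.BetaL
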